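import Pool.Agent.MP_08f939_co.Mg.Sid

-- part MP_08f939_co.H50.Cos
section

namespace Pool.Agent.MP_08f939_co.H50

open Finset Real

/-- Taylor polynomials of the cosine. -/
noncomputable def cp (m : ℕ) (y : ℝ) : ℝ :=
  ∑ j ∈ range m, (-1) ^ j * y ^ (2 * j) / ((2 * j).factorial : ℝ)

/-- Taylor polynomials of the sine. -/
noncomputable def sp (m : ℕ) (y : ℝ) : ℝ :=
  ∑ j ∈ range m, (-1) ^ j * y ^ (2 * j + 1) / ((2 * j + 1).factorial : ℝ)

theorem hasDerivAt_term (c : ℝ) (k : ℕ) (y : ℝ) :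
    HasDerivAt (fun y : ℝ => c * y ^ (k + 1) / ((k + 1).factorial : ℝ))
      (c * y ^ k / (k.factorial : ℝ)) y := by
  have h := ((hasDerivAt_pow (k + 1) y).const_mul c).div_const ((k + 1).factorial : ℝ)
  refine h.congr_deriv ?_
  rw [Nat.factorial_succ]
  have h1 : (k.factorial : ℝ) ≠ 0 := by positivity
  have h2 : ((k : ℝ) + 1) ≠ 0 := by positivity
  push_cast
  field_simp

theorem hasDerivAt_sp (m : ℕ) (y : ℝ) : HasDerivAt (sp m) (cp m y) y := by
  unfold sp cp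
  exact HasDerivAt.fun_sum fun j _ => hasDerivAt_term _ _ _

theorem cp_succ' (m : ℕ) (y : ℝ) : cp (m + 1) y =
    ∑ j ∈ range m, (-(-1) ^ j) * y ^ (2 * j + 1 + 1) / ((2 * j + 1 + 1).factorial : ℝ) + 1 := by
  unfold cp
  rw [Finset.sum_range_succ']
  congr 1
  · refine Finset.sum_congr rfl fun j _ => ?_
    rw [show 2 * (j + 1) = 2 * j + 1 + 1 by ring, pow_succ (-1 : ℝ)]
    ring
  · simp

theorem hasDerivAt_cp (m : ℕ) (y : ℝ) : HasDerivAt (cp (m + 1)) (-sp m y) y := by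
  have h : cp (m + 1) = fun y => ∑ j ∈ range m,
      (-(-1) ^ j) * y ^ (2 * j + 1 + 1) / ((2 * j + 1 + 1).factorial : ℝ) + 1 :=
    funext fun y => cp_succ' m y
  rw [h]
  have h2 := (HasDerivAt.fun_sum (u := range m) fun j _ =>
    hasDerivAt_term (-(-1) ^ j) (2 * j + 1) y).add_const 1
  refine h2.congr_deriv ?_
  unfold sp
  rw [← Finset.sum_neg_distrib]
  refine Finset.sum_congr rfl fun j _ => ?_
  ring

theorem nonneg_of_deriv (f f' : ℝ → ℝ) (h0 : f 0 = 0) (hd : ∀ y, HasDerivAt f (f' y) y)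
    (hp : ∀ y, 0 ≤ y → 0 ≤ f' y) (y : ℝ) (hy : 0 ≤ y) : 0 ≤ f y := by
  have hm : MonotoneOn f (Set.Ici 0) := by
    refine monotoneOn_of_deriv_nonneg (convex_Ici 0)
      (fun x _ => (hd x).continuousAt.continuousWithinAt)
      (fun x _ => (hd x).differentiableAt.differentiableWithinAt) ?_
    intro x hx
    rw [(hd x).deriv]
    exact hp x (interior_subset hx)
  have := hm (Set.mem_Ici.2 le_rfl) (Set.mem_Ici.2 hy) hy
  rwa [h0] at this

theorem taylor_nonneg (m : ℕ) : ∀ y : ℝ, 0 ≤ y → 0 ≤ (-1) ^ (m + 1) * (cos y - cp (m + 1) y) := by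
  induction m with
  | zero =>
    intro y _
    have := cos_le_one y
    simp [cp]
    linarith
  | succ m ih =>
    have hF : ∀ y : ℝ, 0 ≤ y → 0 ≤ (-1) ^ (m + 1) * (sin y - sp (m + 1) y) := by
      refine nonneg_of_deriv _ (fun y => (-1) ^ (m + 1) * (cos y - cp (m + 1) y)) ?_ ?_ ih
      · simp [sp]
      · intro y
        exact ((hasDerivAt_sin y).sub (hasDerivAt_sp _ y)).const_mul _
    refine nonneg_of_deriv _ (fun y => (-1) ^ (m + 1) * (sin y - sp (m + 1) y)) ?_ ?_ hF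
    · rw [cp_succ']; simp
    · intro y
      have := ((hasDerivAt_cos y).sub (hasDerivAt_cp (m + 1) y)).const_mul ((-1 : ℝ) ^ (m + 1 + 1))
      refine this.congr_deriv ?_
      rw [pow_succ (-1 : ℝ) (m + 1)]
      ring

theorem cp_abs (m : ℕ) (y : ℝ) : cp m |y| = cp m y := by
  unfold cp
  refine Finset.sum_congr rfl fun j _ => ?_
  rw [pow_mul, pow_mul, sq_abs]

theorem cos_le_cp (k : ℕ) (y : ℝ) : cos y ≤ cp (2 * k + 1) y := by
  have := taylor_nonneg (2 * k) |y| (abs_nonneg y)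
  rw [cp_abs, cos_abs, pow_succ, pow_mul] at this
  norm_num at this
  linarith

theorem cp_le_cos (k : ℕ) (y : ℝ) : cp (2 * k + 1 + 1) y ≤ cos y := by
  have := taylor_nonneg (2 * k + 1) |y| (abs_nonneg y)
  rw [cp_abs, cos_abs, pow_succ, pow_succ, pow_mul] at this
  norm_num at this
  linarith

theorem cp_le_cos_add (k : ℕ) (y : ℝ) : cp (2 * k + 1) y ≤
    cos y + y ^ (2 * (2 * k + 1)) / ((2 * (2 * k + 1)).factorial : ℝ) := by
  have h := cp_le_cos k y
  unfold cp at h ⊢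
  rw [Finset.sum_range_succ, pow_succ, pow_mul (-1 : ℝ)] at h
  norm_num at h ⊢
  rw [neg_div] at h
  linarith

theorem sum_zmod {R : Type} [AddCommMonoid R] (F : ZMod 2 → R) : ∑ c, F c = F 0 + F 1 :=
  Fin.sum_univ_two (f := F)

variable {κ : Type} [Fintype κ] [DecidableEq κ]

/-- A sum of independent signs. -/
def zs (ε : κ → ZMod 2) : ℝ := ∑ ω, (sg (ε ω) : ℝ)

theorem sum_exp_zs (l : ℝ) :
    ∑ ε : κ → ZMod 2, exp (l * zs ε) = (exp l + exp (-l)) ^ Fintype.card κ := by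
  have h : ∀ ε : κ → ZMod 2, exp (l * zs ε) = ∏ ω, exp (l * (sg (ε ω) : ℝ)) := by
    intro ε
    rw [zs, Finset.mul_sum, Real.exp_sum]
  simp only [h]
  rw [← Fintype.prod_sum (fun (_ : κ) (c : ZMod 2) => exp (l * (sg c : ℝ)))]
  simp [sum_zmod, sg_zero, sg_one]

theorem sum_cos_zs (θ : ℝ) :
    ∑ ε : κ → ZMod 2, cos (θ * zs ε) = (2 * cos θ) ^ Fintype.card κ := by
  have h : ∀ ε : κ → ZMod 2, Complex.exp (((θ * zs ε : ℝ) : ℂ) * Complex.I) =
      ∏ ω, Complex.exp ((θ : ℂ) * ((sg (ε ω) : ℤ) : ℂ) * Complex.I) := by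
    intro ε
    rw [← Complex.exp_sum, zs]
    congr 1
    push_cast
    rw [Finset.mul_sum, Finset.sum_mul]
  have h2 : ∑ ε : κ → ZMod 2, Complex.exp (((θ * zs ε : ℝ) : ℂ) * Complex.I) =
      (((2 * cos θ) ^ Fintype.card κ : ℝ) : ℂ) := by
    simp only [h]
    rw [← Fintype.prod_sum (fun (_ : κ) (c : ZMod 2) =>
      Complex.exp ((θ : ℂ) * ((sg c : ℤ) : ℂ) * Complex.I))]
    simp only [sum_zmod, sg_zero, sg_one, Finset.prod_const, Finset.card_univ]
    push_cast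
    rw [Complex.two_cos]
    congr 3 <;> ring
  have h3 := congrArg Complex.re h2
  rw [Complex.re_sum, Complex.ofReal_re] at h3
  rw [← h3]
  exact Finset.sum_congr rfl fun ε _ => (Complex.exp_ofReal_mul_I_re _).symm

theorem card_fun_zmod : (Fintype.card (κ → ZMod 2) : ℝ) = 2 ^ Fintype.card κ := by
  rw [Fintype.card_fun, ZMod.card]; push_cast; rfl

theorem tail_zs (l : ℝ) (m : ℕ) :
    ∑ ε : κ → ZMod 2, (l * zs ε) ^ (2 * m) / ((2 * m).factorial : ℝ) ≤
      2 ^ Fintype.card κ * (2 * exp (Fintype.card κ * l ^ 2 / 2)) := by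
  have h1 : ∀ y : ℝ, y ^ (2 * m) / ((2 * m).factorial : ℝ) ≤ exp y + exp (-y) := by
    intro y
    have h := Real.pow_div_factorial_le_exp |y| (abs_nonneg y) (2 * m)
    rw [pow_mul, sq_abs, ← pow_mul] at h
    rcases abs_cases y with ⟨h', -⟩ | ⟨h', -⟩
    · rw [h'] at h; linarith [exp_pos (-y)]
    · rw [h'] at h; linarith [exp_pos y]
  have h2 : (exp l + exp (-l)) ^ Fintype.card κ ≤
      2 ^ Fintype.card κ * exp (Fintype.card κ * l ^ 2 / 2) := by
    have h := Real.cosh_le_exp_half_sq l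
    rw [Real.cosh_eq] at h
    calc (exp l + exp (-l)) ^ Fintype.card κ ≤ (2 * exp (l ^ 2 / 2)) ^ Fintype.card κ :=
          pow_le_pow_left₀ (by positivity) (by linarith) _
      _ = _ := by rw [mul_pow, ← Real.exp_nat_mul]; congr 2; ring
  calc _ ≤ ∑ ε : κ → ZMod 2, (exp (l * zs ε) + exp ((-l) * zs ε)) := by
        refine Finset.sum_le_sum fun ε _ => ?_
        rw [neg_mul]; exact h1 _
    _ = (exp l + exp (-l)) ^ Fintype.card κ + (exp l + exp (-l)) ^ Fintype.card κ := by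
        rw [Finset.sum_add_distrib, sum_exp_zs, sum_exp_zs, neg_neg, add_comm (exp (-l))]
    _ ≤ _ := by linarith

theorem cos_pow_le (θ : ℝ) (n : ℕ) (hθ : θ ^ 2 ≤ 1) :
    cos θ ^ n * (1 + n * θ ^ 2 / 3) ≤ 1 := by
  have habs : |θ| ≤ 1 := by
    rw [← sq_le_one_iff_abs_le_one]; exact hθ
  have hb := Real.cos_bound habs
  have h4 : |θ| ^ 4 = θ ^ 2 * θ ^ 2 := by rw [show 4 = 2 * 2 by rfl, pow_mul, sq_abs]; ring
  rw [h4] at hb
  have hb2 := abs_le.1 hb
  have hs := sq_nonneg θ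
  have hc1 : cos θ ≤ 1 - θ ^ 2 / 3 := by nlinarith [hb2.2]
  have hc0 : 0 ≤ cos θ := by nlinarith [hb2.1]
  have h1 : 1 + n * (θ ^ 2 / 3) ≤ (1 + θ ^ 2 / 3) ^ n := one_add_mul_le_pow (by linarith) n
  calc cos θ ^ n * (1 + n * θ ^ 2 / 3) ≤ (1 - θ ^ 2 / 3) ^ n * (1 + θ ^ 2 / 3) ^ n := by
        refine mul_le_mul (pow_le_pow_left₀ hc0 hc1 n) (by rw [mul_div_assoc]; exact h1)
          (by positivity) (pow_nonneg (by linarith) n)
    _ = ((1 - θ ^ 2 / 3) * (1 + θ ^ 2 / 3)) ^ n := by rw [mul_pow]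
    _ ≤ 1 := pow_le_one₀ (by nlinarith) (by nlinarith)

theorem sum_cp {Ω : Type} [Fintype Ω] (Y : Ω → ℝ) (θ : ℝ) (m : ℕ) :
    ∑ w, cp m (θ * Y w) =
      ∑ j ∈ range m, (-1) ^ j * θ ^ (2 * j) / ((2 * j).factorial : ℝ) * ∑ w, Y w ^ (2 * j) := by
  unfold cp
  rw [Finset.sum_comm]
  refine Finset.sum_congr rfl fun j _ => ?_
  rw [Finset.mul_sum]
  refine Finset.sum_congr rfl fun w _ => ?_
  rw [mul_pow]; ring

theorem tail_bound (U : ℕ) (hU : 4 ≤ U) (hn : U ≤ Fintype.card κ) (θ : ℝ)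
    (hθ : Fintype.card κ * θ ^ 2 ≤ U) :
    ∑ ε : κ → ZMod 2, (θ * zs ε) ^ (2 * (2 * U + 1)) / ((2 * (2 * U + 1)).factorial : ℝ) ≤
      2 ^ Fintype.card κ * (Fintype.card κ * θ ^ 2 / (32 * U)) := by
  set n : ℝ := (Fintype.card κ : ℝ) with hndef
  have hU4 : (4 : ℝ) ≤ U := by exact_mod_cast hU
  have hnU : (U : ℝ) ≤ n := by rw [hndef]; exact_mod_cast hn
  have hn0 : 0 < n := by linarith
  set l : ℝ := √(4 * U / n) with hl
  have hl2 : l ^ 2 = 4 * U / n := Real.sq_sqrt (by positivity)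
  set u : ℝ := n * θ ^ 2 with hu
  have hu0 : 0 ≤ u := by positivity
  have hθ2 : θ ^ 2 = u / (4 * U) * l ^ 2 := by
    rw [hl2, hu]; field_simp
  have h1 : ∀ y : ℝ, (θ * y) ^ (2 * (2 * U + 1)) =
      (u / (4 * U)) ^ (2 * U + 1) * (l * y) ^ (2 * (2 * U + 1)) := by
    intro y
    rw [pow_mul, pow_mul, ← mul_pow, mul_pow θ, mul_pow l, hθ2]
    congr 1; ring
  have h2 := tail_zs (κ := κ) l (2 * U + 1)
  have h3 : n * l ^ 2 / 2 = (U : ℕ) * 2 := by rw [hl2]; field_simp; ring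
  rw [← hndef, h3, Real.exp_nat_mul] at h2
  have he : exp 2 ≤ 8 := by
    have h := Real.exp_one_lt_d9
    have h' : exp 2 = exp 1 * exp 1 := by rw [← Real.exp_add]; norm_num
    rw [h']
    nlinarith [Real.exp_pos 1]
  have h4 : (u / (4 * U)) ^ (2 * U + 1) * (2 * exp 2 ^ U) ≤ u / (32 * U) := by
    have hq : u / (4 * U) ≤ 1 / 4 := by
      rw [div_le_div_iff₀ (by positivity) (by norm_num)]; linarith
    have hq0 : 0 ≤ u / (4 * U) := by positivity
    have h5 : (u / (4 * U)) ^ (2 * U) * exp 2 ^ U ≤ 1 / 16 := by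
      rw [pow_mul, ← mul_pow]
      calc ((u / (4 * U)) ^ 2 * exp 2) ^ U ≤ (1 / 2 : ℝ) ^ U := by
            refine pow_le_pow_left₀ (by positivity) ?_ U
            nlinarith [Real.exp_pos 2, mul_le_mul hq hq hq0 (by norm_num : (0 : ℝ) ≤ 1 / 4)]
        _ ≤ (1 / 2 : ℝ) ^ 4 := pow_le_pow_of_le_one (by norm_num) (by norm_num) hU
        _ = 1 / 16 := by norm_num
    have h6 : u / (32 * U) = u / (4 * U) * (2 * (1 / 16)) := by field_simp; ring
    rw [h6, pow_succ]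
    calc (u / (4 * U)) ^ (2 * U) * (u / (4 * U)) * (2 * exp 2 ^ U)
        = u / (4 * U) * (2 * ((u / (4 * U)) ^ (2 * U) * exp 2 ^ U)) := by ring
      _ ≤ _ := by gcongr
  calc _ = (u / (4 * U)) ^ (2 * U + 1) * ∑ ε : κ → ZMod 2,
        (l * zs ε) ^ (2 * (2 * U + 1)) / ((2 * (2 * U + 1)).factorial : ℝ) := by
        rw [Finset.mul_sum]
        refine Finset.sum_congr rfl fun ε _ => ?_
        rw [h1, mul_div_assoc]
    _ ≤ (u / (4 * U)) ^ (2 * U + 1) * (2 ^ Fintype.card κ * (2 * exp 2 ^ U)) := by gcongr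
    _ = 2 ^ Fintype.card κ * ((u / (4 * U)) ^ (2 * U + 1) * (2 * exp 2 ^ U)) := by ring
    _ ≤ _ := by gcongr

/-- Anti-concentration from moments: a variable whose even moments are close to those of a sum of
independent signs has a characteristic function bounded away from one. -/
theorem anti {Ω : Type} [Fintype Ω] (Y : Ω → ℝ) (Q : ℝ) (hQ : Q = Fintype.card Ω) (hQ0 : 0 < Q)
    (U : ℕ) (hU : 4 ≤ U) (hn : U ≤ Fintype.card κ) (δ : ℝ) (hδ0 : 0 ≤ δ)
    (hδ : δ * (32 * U ^ 2 * U ^ (2 * U)) ≤ 1)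
    (hm : ∀ j, 1 ≤ j → j ≤ 2 * U →
      |(∑ w, Y w ^ (2 * j)) / Q - (∑ ε : κ → ZMod 2, zs ε ^ (2 * j)) / 2 ^ Fintype.card κ| ≤
        δ * (Fintype.card κ : ℝ) ^ j)
    (θ : ℝ) (hθ : Fintype.card κ * θ ^ 2 ≤ U) :
    (∑ w, cos (θ * Y w)) / Q ≤ 1 - Fintype.card κ * θ ^ 2 / (8 * U) := by
  have htail := tail_bound U hU hn θ hθ
  set n : ℝ := (Fintype.card κ : ℝ) with hndef
  have hU4 : (4 : ℝ) ≤ U := by exact_mod_cast hU
  have hnU : (U : ℝ) ≤ n := by rw [hndef]; exact_mod_cast hn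
  have hn0 : 0 < n := by linarith
  set u : ℝ := n * θ ^ 2 with hu
  have hu0 : 0 ≤ u := by positivity
  have hP : (0 : ℝ) < 2 ^ Fintype.card κ := by positivity
  have h1 : (∑ w, cos (θ * Y w)) / Q ≤ (∑ w, cp (2 * U + 1) (θ * Y w)) / Q := by
    gcongr with w; exact cos_le_cp _ _
  have h2 : (∑ ε : κ → ZMod 2, cp (2 * U + 1) (θ * zs ε)) / 2 ^ Fintype.card κ ≤
      cos θ ^ Fintype.card κ + u / (32 * U) := by
    rw [div_le_iff₀ hP]
    calc _ ≤ ∑ ε : κ → ZMod 2, (cos (θ * zs ε) +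
          (θ * zs ε) ^ (2 * (2 * U + 1)) / ((2 * (2 * U + 1)).factorial : ℝ)) :=
          Finset.sum_le_sum fun ε _ => cp_le_cos_add _ _
      _ ≤ _ := by
          rw [Finset.sum_add_distrib, sum_cos_zs, mul_pow]
          linarith
  have h3 : (∑ w, cp (2 * U + 1) (θ * Y w)) / Q -
      (∑ ε : κ → ZMod 2, cp (2 * U + 1) (θ * zs ε)) / 2 ^ Fintype.card κ ≤ u / (16 * U) := by
    rw [sum_cp, sum_cp, Finset.sum_div, Finset.sum_div, ← Finset.sum_sub_distrib,
      Finset.sum_range_succ']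
    have h0 : (-1) ^ 0 * θ ^ (2 * 0) / ((2 * 0).factorial : ℝ) * (∑ w, Y w ^ (2 * 0)) / Q -
        (-1) ^ 0 * θ ^ (2 * 0) / ((2 * 0).factorial : ℝ) *
          (∑ ε : κ → ZMod 2, zs ε ^ (2 * 0)) / 2 ^ Fintype.card κ = 0 := by
      simp only [mul_zero, pow_zero, Finset.sum_const, Finset.card_univ, nsmul_eq_mul, mul_one,
        Nat.factorial_zero, Nat.cast_one, div_one, one_mul]
      rw [card_fun_zmod, ← hQ, div_self hQ0.ne', div_self hP.ne', sub_self]
    rw [h0, add_zero]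
    have hterm : ∀ j ∈ range (2 * U),
        (-1) ^ (j + 1) * θ ^ (2 * (j + 1)) / ((2 * (j + 1)).factorial : ℝ) *
          (∑ w, Y w ^ (2 * (j + 1))) / Q -
        (-1) ^ (j + 1) * θ ^ (2 * (j + 1)) / ((2 * (j + 1)).factorial : ℝ) *
          (∑ ε : κ → ZMod 2, zs ε ^ (2 * (j + 1))) / 2 ^ Fintype.card κ ≤
          δ * u * U ^ (2 * U) := by
      intro j hj
      have hj' := Finset.mem_range.1 hj
      have hmj := hm (j + 1) (by omega) (by omega)
      rw [mul_div_assoc, mul_div_assoc _ _ ((2 : ℝ) ^ _), ← mul_sub]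
      refine (le_abs_self _).trans ?_
      rw [abs_mul]
      have hc : |(-1) ^ (j + 1) * θ ^ (2 * (j + 1)) / ((2 * (j + 1)).factorial : ℝ)| ≤
          (θ ^ 2) ^ (j + 1) := by
        rw [abs_div, abs_mul, abs_pow, abs_neg, abs_one, one_pow, one_mul, pow_mul,
          abs_of_nonneg (by positivity), Nat.abs_cast]
        refine div_le_self (by positivity) ?_
        exact_mod_cast Nat.factorial_pos _
      calc _ ≤ (θ ^ 2) ^ (j + 1) * (δ * n ^ (j + 1)) :=
            mul_le_mul hc hmj (abs_nonneg _) (by positivity)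
        _ = δ * u * u ^ j := by rw [hu, mul_pow, pow_succ, pow_succ]; ring
        _ ≤ δ * u * (U : ℝ) ^ j := by gcongr
        _ ≤ δ * u * (U : ℝ) ^ (2 * U) := by
            exact mul_le_mul_of_nonneg_left (pow_le_pow_right₀ (by linarith) (by omega))
              (by positivity)
    refine (Finset.sum_le_sum hterm).trans ?_
    rw [Finset.sum_const, Finset.card_range, nsmul_eq_mul, le_div_iff₀ (by positivity)]
    push_cast
    calc 2 * (U : ℝ) * (δ * u * U ^ (2 * U)) * (16 * U)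
        = u * (δ * (32 * U ^ 2 * U ^ (2 * U))) := by ring
      _ ≤ u * 1 := by gcongr
      _ = u := mul_one u
  have hθ1 : θ ^ 2 ≤ 1 := by
    by_contra hc
    push Not at hc
    nlinarith
  have h4 := cos_pow_le θ (Fintype.card κ) hθ1
  rw [← hndef, ← hu] at h4
  have h5 : cos θ ^ Fintype.card κ ≤ 1 - u / (4 * U) := by
    have h6 : cos θ ^ Fintype.card κ ≤ 1 / (1 + u / 3) := by
      rw [le_div_iff₀ (by positivity)]; exact h4
    have h7 : 1 / (1 + u / 3) = 1 - u / (3 + u) := by field_simp; ring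
    have h8 : u / (4 * U) ≤ u / (3 + u) :=
      div_le_div_of_nonneg_left hu0 (by positivity) (by linarith)
    linarith
  have h9 : u / (4 * U) - u / (32 * U) - u / (16 * U) - u / (8 * U) = u / (32 * U) := by
    field_simp; ring
  have h10 : 0 ≤ u / (32 * U) := by positivity
  linarith

end Pool.Agent.MP_08f939_co.H50

end

-- part MP_08f939_co.H50.Cube
section

namespace Pool.Agent.MP_08f939_co.H50

open Finset

variable {ι : Type} [Fintype ι] [DecidableEq ι]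

section Tau

variable {I J : Type} [Fintype I] [DecidableEq I] [Fintype J] [DecidableEq J]

/-- The weighted count of configurations of a given linear type. -/
def tau (f : (ι → ZMod 2) → ℝ) (α : I → J → ZMod 2) : ℝ :=
  ∑ u : I → ι → ZMod 2, (∏ i, f (u i)) * ∏ j, f (∑ i, α i j • u i)

theorem sum_update {Y : Type} [Fintype Y] (i : I) (Φ : (I → Y) → ℝ) :
    ∑ u : I → Y, ∑ a, Φ (Function.update u i a) = Fintype.card Y * ∑ u, Φ u := by
  have hinv : Function.Involutive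
      (fun p : (I → Y) × Y => (Function.update p.1 i p.2, p.1 i)) := by
    rintro ⟨u, a⟩
    simp
  calc ∑ u : I → Y, ∑ a, Φ (Function.update u i a)
      = ∑ p : (I → Y) × Y, Φ (Function.update p.1 i p.2) := by rw [Fintype.sum_prod_type]
    _ = ∑ p : (I → Y) × Y, Φ p.1 := Fintype.sum_equiv hinv.toPerm _ _ fun _ => rfl
    _ = _ := by
        rw [Fintype.sum_prod_type, Finset.mul_sum]
        simp

omit [DecidableEq J] in
theorem abs_tau_le (f g : (ι → ZMod 2) → ℝ) (hfg : ∀ x, |f x| ≤ g x) (α : I → J → ZMod 2) :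
    |tau f α| ≤ tau g α := by
  unfold tau
  refine (Finset.abs_sum_le_sum_abs _ _).trans (Finset.sum_le_sum fun u _ => ?_)
  rw [abs_mul, Finset.abs_prod, Finset.abs_prod]
  refine mul_le_mul (Finset.prod_le_prod (fun _ _ => abs_nonneg _) fun _ _ => hfg _)
    (Finset.prod_le_prod (fun _ _ => abs_nonneg _) fun _ _ => hfg _)
    (Finset.prod_nonneg fun _ _ => abs_nonneg _)
    (Finset.prod_nonneg fun _ _ => (abs_nonneg _).trans (hfg _))

omit [DecidableEq J] in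
theorem tau_le (g : (ι → ZMod 2) → ℝ) (h0 : ∀ x, 0 ≤ g x) (h2 : ∀ x, g x ≤ 2)
    (α : I → J → ZMod 2) : tau g α ≤ 2 ^ Fintype.card J * (∑ x, g x) ^ Fintype.card I := by
  have h : (∑ x, g x) ^ Fintype.card I = ∑ u : I → ι → ZMod 2, ∏ i, g (u i) := by
    rw [← Fintype.prod_sum (fun (_ : I) x => g x)]; simp
  rw [h, Finset.mul_sum]
  refine Finset.sum_le_sum fun u _ => ?_
  rw [mul_comm]
  refine mul_le_mul_of_nonneg_right ?_ (Finset.prod_nonneg fun _ _ => h0 _)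
  calc _ ≤ ∏ _j : J, (2 : ℝ) := Finset.prod_le_prod (fun _ _ => h0 _) fun _ _ => h2 _
    _ = _ := by simp

theorem tau_le_save (g : (ι → ZMod 2) → ℝ) (h0 : ∀ x, 0 ≤ g x) (h2 : ∀ x, g x ≤ 2) (c : ℝ)
    (hc : ∀ v, ∑ a, ∑ b, g a * g b * g (a + b + v) ≤ c) (α : I → J → ZMod 2)
    (i1 i2 : I) (j0 : J) (h12 : i1 ≠ i2) (ha1 : α i1 j0 = 1) (ha2 : α i2 j0 = 1) :
    tau g α ≤ 2 ^ Fintype.card J * (c * (∑ x, g x) ^ (Fintype.card I - 2)) := by
  set q : ℝ := (Fintype.card (ι → ZMod 2) : ℝ) with hq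
  have hq0 : 0 < q := by rw [hq]; exact_mod_cast Fintype.card_pos
  set Φ : (I → ι → ZMod 2) → ℝ := fun u => (∏ i, g (u i)) * g (∑ i, α i j0 • u i) with hΦ
  set rest : Finset I := (univ.erase i1).erase i2 with hrest
  have hi2 : i2 ∈ univ.erase i1 := Finset.mem_erase.2 ⟨h12.symm, mem_univ _⟩
  have hc0 : 0 ≤ c := le_trans (Finset.sum_nonneg fun a _ => Finset.sum_nonneg fun b _ =>
    mul_nonneg (mul_nonneg (h0 _) (h0 _)) (h0 _)) (hc 0)
  have h1 : tau g α ≤ 2 ^ Fintype.card J * ∑ u, Φ u := by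
    rw [Finset.mul_sum]
    refine Finset.sum_le_sum fun u _ => ?_
    rw [← Finset.mul_prod_erase univ _ (mem_univ j0)]
    have : ∏ j ∈ univ.erase j0, g (∑ i, α i j • u i) ≤ 2 ^ Fintype.card J := by
      calc _ ≤ ∏ _j ∈ univ.erase j0, (2 : ℝ) :=
            Finset.prod_le_prod (fun _ _ => h0 _) fun _ _ => h2 _
        _ = 2 ^ (univ.erase j0).card := by simp
        _ ≤ _ := pow_le_pow_right₀ (by norm_num) (Finset.card_le_univ _)
    have hp : 0 ≤ (∏ i, g (u i)) * g (∑ i, α i j0 • u i) :=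
      mul_nonneg (Finset.prod_nonneg fun _ _ => h0 _) (h0 _)
    calc _ = ((∏ i, g (u i)) * g (∑ i, α i j0 • u i)) *
          ∏ j ∈ univ.erase j0, g (∑ i, α i j • u i) := by ring
      _ ≤ ((∏ i, g (u i)) * g (∑ i, α i j0 • u i)) * 2 ^ Fintype.card J := by gcongr
      _ = _ := by rw [hΦ]; ring
  have h3 : ∀ (u : I → ι → ZMod 2) (a b : ι → ZMod 2),
      Φ (Function.update (Function.update u i1 a) i2 b) =
        (∏ i ∈ rest, g (u i)) * (g a * g b * g (a + b + ∑ i ∈ rest, α i j0 • u i)) := by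
    intro u a b
    set w := Function.update (Function.update u i1 a) i2 b with hw
    have w1 : w i1 = a := by rw [hw, Function.update_of_ne h12, Function.update_self]
    have w2 : w i2 = b := by rw [hw, Function.update_self]
    have w3 : ∀ i ∈ rest, w i = u i := by
      intro i hi
      have hi' := Finset.mem_erase.1 hi
      rw [hw, Function.update_of_ne hi'.1, Function.update_of_ne (Finset.mem_erase.1 hi'.2).1]
    simp only [hΦ]
    rw [← Finset.mul_prod_erase univ _ (mem_univ i1), ← Finset.mul_prod_erase _ _ hi2,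
      ← Finset.add_sum_erase univ _ (mem_univ i1), ← Finset.add_sum_erase _ _ hi2, w1, w2, ha1,
      ha2, one_smul, one_smul, ← hrest, Finset.prod_congr rfl (fun i hi => by rw [w3 i hi]),
      Finset.sum_congr rfl (fun i hi => by rw [w3 i hi]), ← add_assoc]
    ring
  have h4 : q * (q * ∑ u, Φ u) ≤ c * ∑ u : I → ι → ZMod 2, ∏ i ∈ rest, g (u i) := by
    rw [← sum_update i2 Φ, ← sum_update i1, Finset.mul_sum]
    refine Finset.sum_le_sum fun u _ => ?_
    simp only [h3, ← Finset.mul_sum]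
    rw [mul_comm c]
    exact mul_le_mul_of_nonneg_left (hc _) (Finset.prod_nonneg fun _ _ => h0 _)
  have h5 : ∑ u : I → ι → ZMod 2, ∏ i ∈ rest, g (u i) =
      q * (q * (∑ x, g x) ^ (Fintype.card I - 2)) := by
    have e1 : ∀ u : I → ι → ZMod 2, ∏ i ∈ rest, g (u i) =
        ∏ i, (if i ∈ rest then g (u i) else 1) := by
      intro u
      rw [Finset.prod_ite_mem, Finset.univ_inter]
    simp only [e1]
    rw [← Fintype.prod_sum (fun (i : I) (x : ι → ZMod 2) => if i ∈ rest then g x else 1),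
      ← Finset.mul_prod_erase univ _ (mem_univ i1), ← Finset.mul_prod_erase _ _ hi2, ← hrest]
    have n1 : i1 ∉ rest := fun h => (Finset.mem_erase.1 (Finset.mem_erase.1 h).2).1 rfl
    have n2 : i2 ∉ rest := fun h => (Finset.mem_erase.1 h).1 rfl
    have hcard : rest.card = Fintype.card I - 2 := by
      rw [hrest, Finset.card_erase_of_mem hi2, Finset.card_erase_of_mem (mem_univ _),
        Finset.card_univ]
      omega
    simp only [n1, n2, if_false, Finset.sum_const, Finset.card_univ, nsmul_eq_mul, mul_one]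
    rw [Finset.prod_congr rfl (g := fun _ => ∑ x, g x) (fun i hi => by simp only [hi, if_true]),
      Finset.prod_const, hcard]
  rw [h5] at h4
  have h6 : ∑ u, Φ u ≤ c * (∑ x, g x) ^ (Fintype.card I - 2) := by
    have : q * q * ∑ u, Φ u ≤ q * q * (c * (∑ x, g x) ^ (Fintype.card I - 2)) := by linarith
    exact le_of_mul_le_mul_left this (by positivity)
  exact h1.trans (by gcongr)

theorem tau_match (f : (ι → ZMod 2) → ℝ) (α : I → J → ZMod 2) (π : I ≃ J)
    (hπ : ∀ i j, α i j = if j = π i then 1 else 0) :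
    tau f α = (∑ x, f x ^ 2) ^ Fintype.card I := by
  have h : (∑ x, f x ^ 2) ^ Fintype.card I = ∑ u : I → ι → ZMod 2, ∏ i, f (u i) ^ 2 := by
    rw [← Fintype.prod_sum (fun (_ : I) x => f x ^ 2)]; simp
  rw [h]
  refine Finset.sum_congr rfl fun u _ => ?_
  have h1 : ∏ j, f (∑ i, α i j • u i) = ∏ i, f (u i) := by
    rw [← Equiv.prod_comp π]
    refine Finset.prod_congr rfl fun i _ => ?_
    congr 1
    rw [Finset.sum_eq_single i]
    · rw [hπ, if_pos rfl, one_smul]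
    · intro b _ hb
      rw [hπ, if_neg (fun hc => hb (π.injective hc).symm), zero_smul]
    · intro hc; exact absurd (mem_univ _) hc
  rw [h1, ← Finset.prod_mul_distrib]
  exact Finset.prod_congr rfl fun i _ => (sq _).symm

end Tau

omit [DecidableEq ι] in
theorem e_sum_right {P : Type} (t : Finset P) (ξ : ι → ZMod 2) (s : P → ι → ZMod 2) :
    e ξ (∑ i ∈ t, s i) = ∏ i ∈ t, e ξ (s i) := by
  classical
  induction t using Finset.induction_on with
  | empty => simp [e_zero_right]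
  | insert a t ha ih => rw [Finset.sum_insert ha, Finset.prod_insert ha, e_add_right, ih]

omit [DecidableEq ι] in
theorem e_sum_left {P : Type} (t : Finset P) (ξ : ι → ZMod 2) (s : P → ι → ZMod 2) :
    e (∑ i ∈ t, s i) ξ = ∏ i ∈ t, e (s i) ξ := by
  rw [e_comm, e_sum_right]; exact Finset.prod_congr rfl fun _ _ => e_comm _ _

omit [DecidableEq ι] in
theorem e_smul (c : ZMod 2) (ξ s : ι → ZMod 2) : e (c • ξ) s = e ξ (c • s) := by
  unfold e; rw [smul_dotProduct, dotProduct_smul]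

variable {K : ℕ}

/-- A vertex of the cube with base point `x` and directions `h`. -/
def vtx (x : ι → ZMod 2) (h : Fin K → ι → ZMod 2) (ω : Fin K → ZMod 2) : ι → ZMod 2 :=
  x + ∑ k, ω k • h k

/-- The sign of a vertex. -/
def sn (ω : Fin K → ZMod 2) : ℤ := ∏ k, sg (ω k)

theorem sn_mul_self (ω : Fin K → ZMod 2) : sn ω * sn ω = 1 := by
  rw [sn, ← Finset.prod_mul_distrib]
  exact Finset.prod_eq_one fun _ _ => sg_mul_self _

/-- The alternating sum over a cube. -/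
def alt (f : (ι → ZMod 2) → ℝ) (x : ι → ZMod 2) (h : Fin K → ι → ZMod 2) : ℝ :=
  ∑ ω, (sn ω : ℝ) * f (vtx x h ω)

omit [DecidableEq ι] in
theorem e_vtx (x : ι → ZMod 2) (h : Fin K → ι → ZMod 2) (ω : Fin K → ZMod 2) (s : ι → ZMod 2) :
    e (vtx x h ω) s = e x s * ∏ k, e (ω k • h k) s := by
  rw [vtx, e_add_left, e_sum_left]

omit [DecidableEq ι] in
theorem alt_W (S : Finset (ι → ZMod 2)) (x : ι → ZMod 2) (h : Fin K → ι → ZMod 2) :
    ∃ b : ℤ, alt (fun y => (W S y : ℝ)) x h = 2 ^ K * b := by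
  have h1 : ∀ s, ∑ ω, sn ω * e (vtx x h ω) s = e x s * ∏ k, (1 - e (h k) s) := by
    intro s
    have h2 : ∀ k, 1 - e (h k) s = ∑ c : ZMod 2, sg c * e (c • h k) s := by
      intro k
      rw [sum_zmod, sg_zero, sg_one, zero_smul, one_smul, e_zero_left]; ring
    simp only [h2]
    rw [Fintype.prod_sum (fun k (c : ZMod 2) => sg c * e (c • h k) s), Finset.mul_sum]
    refine Finset.sum_congr rfl fun ω _ => ?_
    rw [e_vtx, Finset.prod_mul_distrib, sn]; ring
  have h3 : (2 : ℤ) ^ K ∣ ∑ ω, sn ω * W S (vtx x h ω) := by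
    simp only [W, Finset.mul_sum]
    rw [Finset.sum_comm]
    refine Finset.dvd_sum fun s _ => ?_
    rw [h1]
    refine Dvd.dvd.mul_left ?_ _
    have : (2 : ℤ) ^ K = ∏ _k : Fin K, 2 := by simp
    rw [this]
    refine Finset.prod_dvd_prod_of_dvd _ _ fun k _ => ?_
    rcases e_cases (h k) s with h' | h' <;> rw [h'] <;> norm_num
  obtain ⟨b, hb⟩ := h3
  refine ⟨b, ?_⟩
  have := congrArg (fun z : ℤ => (z : ℝ)) hb
  simpa [alt] using this

omit [Fintype ι] [DecidableEq ι] in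
theorem alt_int (σ : (ι → ZMod 2) → ℤ) (x : ι → ZMod 2) (h : Fin K → ι → ZMod 2) :
    ∃ z : ℤ, alt (fun y => (σ y : ℝ)) x h = z :=
  ⟨∑ ω, sn ω * σ (vtx x h ω), by simp [alt]⟩

omit [Fintype ι] [DecidableEq ι] in
theorem alt_cons (f : (ι → ZMod 2) → ℝ) (x h0 : ι → ZMod 2) (h : Fin K → ι → ZMod 2) :
    alt f x (Fin.cons h0 h : Fin (K + 1) → ι → ZMod 2) = alt f x h - alt f (x + h0) h := by
  unfold alt
  rw [← Equiv.sum_comp (Fin.consEquiv fun _ : Fin (K + 1) => ZMod 2), Fintype.sum_prod_type,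
    sum_zmod, sub_eq_add_neg, ← Finset.sum_neg_distrib]
  congr 1
  · refine Finset.sum_congr rfl fun ω _ => ?_
    simp [Fin.consEquiv, sn, vtx, Fin.sum_univ_succ, Fin.prod_univ_succ, sg_zero]
  · refine Finset.sum_congr rfl fun ω _ => ?_
    simp [Fin.consEquiv, sn, vtx, Fin.sum_univ_succ, Fin.prod_univ_succ, sg_one, add_assoc]

theorem sum_sq_diff (g : (ι → ZMod 2) → ℝ) :
    ∑ h0, ∑ x, (g x - g (x + h0)) ^ 2 ≤ 2 * Fintype.card (ι → ZMod 2) * ∑ x, g x ^ 2 := by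
  have h1 : ∀ (F : (ι → ZMod 2) → ℝ) x, ∑ h0, F (x + h0) = ∑ y, F y := fun F x =>
    Fintype.sum_equiv (Equiv.addLeft x) _ _ fun _ => rfl
  rw [Finset.sum_comm]
  have h2 : ∀ x, ∑ h0, (g x - g (x + h0)) ^ 2 =
      Fintype.card (ι → ZMod 2) * g x ^ 2 - 2 * (g x * ∑ y, g y) + ∑ y, g y ^ 2 := by
    intro x
    rw [h1 (fun y => (g x - g y) ^ 2) x]
    simp only [sub_sq, Finset.sum_add_distrib, Finset.sum_sub_distrib, Finset.sum_const,
      Finset.card_univ, nsmul_eq_mul, ← Finset.mul_sum]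
    ring
  simp only [h2, Finset.sum_add_distrib, Finset.sum_sub_distrib, Finset.sum_const,
    Finset.card_univ, nsmul_eq_mul, ← Finset.mul_sum, ← Finset.sum_mul]
  nlinarith [mul_self_nonneg (∑ y, g y)]

theorem sum_alt_sq (f : (ι → ZMod 2) → ℝ) (K : ℕ) :
    ∑ h : Fin K → ι → ZMod 2, ∑ x, alt f x h ^ 2 ≤
      (2 * Fintype.card (ι → ZMod 2)) ^ K * ∑ x, f x ^ 2 := by
  induction K with
  | zero => simp [alt, sn, vtx]
  | succ K ih =>
    rw [← Equiv.sum_comp (Fin.consEquiv fun _ : Fin (K + 1) => ι → ZMod 2), Fintype.sum_prod_type,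
      Finset.sum_comm]
    calc _ ≤ ∑ h : Fin K → ι → ZMod 2,
          2 * Fintype.card (ι → ZMod 2) * ∑ x, alt f x h ^ 2 := by
          refine Finset.sum_le_sum fun h _ => ?_
          refine le_trans (le_of_eq ?_) (sum_sq_diff fun x => alt f x h)
          refine Finset.sum_congr rfl fun h0 _ => Finset.sum_congr rfl fun x _ => ?_
          rw [← alt_cons]; rfl
      _ ≤ 2 * Fintype.card (ι → ZMod 2) *
          ((2 * Fintype.card (ι → ZMod 2)) ^ K * ∑ x, f x ^ 2) := by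
          rw [← Finset.mul_sum]; gcongr
      _ = _ := by ring

/-- Correlations over vertices of a random cube, on the Fourier side. -/
theorem sum_prod_vtx {P : Type} [Fintype P] [DecidableEq P] (f : (ι → ZMod 2) → ℝ)
    (ω : P → Fin K → ZMod 2) :
    ∑ h : Fin K → ι → ZMod 2, ∑ x, ∏ i, (∑ s, f s * (e (vtx x h (ω i)) s : ℝ)) =
      (Fintype.card (ι → ZMod 2) : ℝ) ^ (K + 1) *
        ∑ s ∈ univ.filter (fun s : P → ι → ZMod 2 =>
          ∑ i, s i = 0 ∧ ∀ k, ∑ i, ω i k • s i = 0), ∏ i, f (s i) := by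
  have h1 : ∀ (h : Fin K → ι → ZMod 2) x, ∏ i, (∑ s, f s * (e (vtx x h (ω i)) s : ℝ)) =
      ∑ s : P → ι → ZMod 2, (∏ i, f (s i)) *
        ((e x (∑ i, s i) * ∏ k, e (h k) (∑ i, ω i k • s i) : ℤ) : ℝ) := by
    intro h x
    rw [Fintype.prod_sum (fun i s => f s * (e (vtx x h (ω i)) s : ℝ))]
    refine Finset.sum_congr rfl fun s _ => ?_
    rw [Finset.prod_mul_distrib, ← Int.cast_prod]
    congr 2
    simp only [e_vtx, e_smul, e_sum_right, Finset.prod_mul_distrib]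
    rw [Finset.prod_comm]
  simp only [h1]
  have h2 : ∀ s : P → ι → ZMod 2, ∑ h : Fin K → ι → ZMod 2, ∑ x,
      e x (∑ i, s i) * ∏ k, e (h k) (∑ i, ω i k • s i) =
      if ∑ i, s i = 0 ∧ ∀ k, ∑ i, ω i k • s i = 0 then
        (Fintype.card (ι → ZMod 2) : ℤ) ^ (K + 1) else 0 := by
    intro s
    simp only [← Finset.sum_mul, ← Finset.mul_sum]
    rw [← Fintype.prod_sum (fun k ξ => e ξ (∑ i, ω i k • s i))]
    simp only [orth]
    by_cases ha : ∑ i, s i = 0
    · by_cases hb : ∀ k, ∑ i, ω i k • s i = 0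
      · simp [ha, hb, pow_succ']
      · rw [if_neg (fun hc : _ ∧ _ => hb hc.2)]
        push Not at hb
        obtain ⟨k, hk⟩ := hb
        rw [Finset.prod_eq_zero (mem_univ k) (if_neg hk), mul_zero]
    · simp [ha]
  calc _ = ∑ s : P → ι → ZMod 2, (∏ i, f (s i)) * ((∑ h : Fin K → ι → ZMod 2, ∑ x,
        e x (∑ i, s i) * ∏ k, e (h k) (∑ i, ω i k • s i) : ℤ) : ℝ) := by
        simp only [Int.cast_sum, Finset.mul_sum]
        rw [Finset.sum_comm]
        rw [Finset.sum_congr rfl fun x _ => Finset.sum_comm, Finset.sum_comm]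
        exact Finset.sum_congr rfl fun s _ => Finset.sum_comm
    _ = _ := by
        simp only [h2]
        rw [Finset.sum_filter, Finset.mul_sum]
        refine Finset.sum_congr rfl fun s _ => ?_
        split_ifs <;> simp [mul_comm]

end Pool.Agent.MP_08f939_co.H50

end

-- part MP_08f939_co.H50.Typ
section

namespace Pool.Agent.MP_08f939_co.H50

open Finset

variable {ι : Type} [Fintype ι] [DecidableEq ι] {p K : ℕ}

/-- Homogeneous coordinates of the vertices. -/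
def vv (ω : Fin p → Fin K → ZMod 2) (i : Fin p) : ZMod 2 × (Fin K → ZMod 2) := (1, ω i)

abbrev In (J : Fin p → Bool) : Type := {j // J j = true}

abbrev Out (J : Fin p → Bool) : Type := {j // ¬ J j = true}

/-- `J` is a maximal affinely independent subfamily, `α` expresses the other vertices. -/
def Typ (ω : Fin p → Fin K → ZMod 2) (J : Fin p → Bool) (α : Fin p → Fin p → ZMod 2) : Prop :=
  (∀ c : In J → ZMod 2, ∑ j, c j • vv ω j = 0 → ∀ j, c j = 0) ∧
    ∀ i : Out J, vv ω i = ∑ j : In J, α i j • vv ω j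

/-- The type is a perfect matching. -/
def Match (J : Fin p → Bool) (α : Fin p → Fin p → ZMod 2) : Prop :=
  ∃ π : Out J ≃ In J, ∀ (i : Out J) (j : In J), α i j = if j = π i then 1 else 0

theorem exists_typ (ω : Fin p → Fin K → ZMod 2) : ∃ J α, Typ ω J α := by
  classical
  obtain ⟨b, -, -, hsp, hli⟩ := exists_linearIndepOn_extension (K := ZMod 2) (v := vv ω)
    (s := ∅) (t := Set.univ) (linearIndepOn_empty _ _) (Set.empty_subset _)
  let J : Fin p → Bool := fun i => decide (i ∈ b)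
  have hJ : ∀ i, J i = true ↔ i ∈ b := fun i => by simp [J]
  have hr : vv ω '' b = Set.range fun j : In J => vv ω j := by
    ext y
    constructor
    · rintro ⟨i, hi, rfl⟩; exact ⟨⟨i, (hJ i).2 hi⟩, rfl⟩
    · rintro ⟨i, rfl⟩; exact ⟨i, (hJ i).1 i.2, rfl⟩
  have hex : ∀ i, ∃ c : In J → ZMod 2, ∑ j, c j • vv ω j = vv ω i := by
    intro i
    have := hsp ⟨i, Set.mem_univ _, rfl⟩
    rw [hr] at this
    exact (Submodule.mem_span_range_iff_exists_fun _).1 this
  choose c hc using hex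
  refine ⟨J, fun i j => if h : J j = true then c i ⟨j, h⟩ else 0, ?_, ?_⟩
  · have hli' : LinearIndependent (ZMod 2) fun j : In J => vv ω j :=
      LinearIndependent.comp (v := fun x : b => vv ω x) hli (fun j : In J => ⟨j, (hJ j).1 j.2⟩)
        (fun a a' h => Subtype.ext (congrArg (fun x : b => (x : Fin p)) h))
    exact Fintype.linearIndependent_iff.1 hli'
  · intro i
    rw [← hc i]
    refine Finset.sum_congr rfl fun j _ => ?_
    simp only [j.2, dif_pos]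

theorem sum_split {M : Type} [AddCommMonoid M] (J : Fin p → Bool) (F : Fin p → M) :
    ∑ i, F i = ∑ j : In J, F j + ∑ i : Out J, F i :=
  (Fintype.sum_subtype_add_sum_subtype (fun j => J j = true) F).symm

theorem prod_split {M : Type} [CommMonoid M] (J : Fin p → Bool) (F : Fin p → M) :
    ∏ i, F i = (∏ j : In J, F j) * ∏ i : Out J, F i :=
  (Fintype.prod_subtype_mul_prod_subtype (fun j => J j = true) F).symm

theorem card_split (J : Fin p → Bool) : Fintype.card (In J) + Fintype.card (Out J) = p := by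
  have := sum_split J (fun _ => (1 : ℕ))
  simpa using this.symm

variable {ω : Fin p → Fin K → ZMod 2} {J : Fin p → Bool} {α : Fin p → Fin p → ZMod 2}

theorem Typ.comb (h : Typ ω J α) (d : Fin p → ZMod 2) :
    ∑ i, d i • vv ω i = ∑ j : In J, (d j + ∑ i : Out J, α i j * d i) • vv ω j := by
  rw [sum_split J]
  simp only [add_smul, Finset.sum_add_distrib, Finset.sum_smul]
  congr 1
  rw [Finset.sum_comm]
  refine Finset.sum_congr rfl fun i _ => ?_
  rw [h.2 i, Finset.smul_sum]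
  refine Finset.sum_congr rfl fun j _ => ?_
  rw [smul_smul, mul_comm]

theorem zmod_add_eq_zero {a b : ZMod 2} : a + b = 0 ↔ a = b := by
  revert a b; decide

omit [Fintype ι] [DecidableEq ι] in
theorem Typ.rel_iff (h : Typ ω J α) (s : Fin p → ι → ZMod 2) :
    (∑ i, s i = 0 ∧ ∀ k, ∑ i, ω i k • s i = 0) ↔
      ∀ j : In J, s j = ∑ i : Out J, α i j • s i := by
  have h1 : (∑ i, s i = 0 ∧ ∀ k, ∑ i, ω i k • s i = 0) ↔ ∀ l, ∑ i, s i l • vv ω i = 0 := by
    have e1 : ∀ l, (∑ i, s i l • vv ω i).1 = (∑ i, s i) l := by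
      intro l; simp [Prod.fst_sum, vv]
    have e2 : ∀ l k, (∑ i, s i l • vv ω i).2 k = (∑ i, ω i k • s i) l := by
      intro l k; simp [Prod.snd_sum, vv, mul_comm]
    constructor
    · rintro ⟨ha, hb⟩ l
      refine Prod.ext ?_ (funext fun k => ?_)
      · rw [e1, ha]; rfl
      · rw [e2, hb]; rfl
    · intro hl
      refine ⟨funext fun l => ?_, fun k => funext fun l => ?_⟩
      · rw [← e1, hl]; rfl
      · rw [← e2, hl]; rfl
  rw [h1]
  constructor
  · intro hl j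
    funext l
    have := h.1 _ ((h.comb fun i => s i l).symm.trans (hl l)) j
    rw [zmod_add_eq_zero.1 this]
    simp
  · intro hj l
    rw [h.comb]
    refine Finset.sum_eq_zero fun j _ => ?_
    have : s j l + ∑ i : Out J, α i j * s i l = 0 := by
      rw [zmod_add_eq_zero, hj j]; simp
    rw [this, zero_smul]

theorem Typ.sum_rel (h : Typ ω J α) (f : (ι → ZMod 2) → ℝ) :
    ∑ s ∈ univ.filter (fun s : Fin p → ι → ZMod 2 =>
        ∑ i, s i = 0 ∧ ∀ k, ∑ i, ω i k • s i = 0), ∏ i, f (s i) =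
      tau f (fun (i : Out J) (j : In J) => α i j) := by
  unfold tau
  refine Finset.sum_nbij' (fun s (i : Out J) => s i)
    (fun u i => if hi : J i = true then ∑ i' : Out J, α i' i • u i' else u ⟨i, hi⟩)
    (fun _ _ => mem_univ _) ?_ ?_ ?_ ?_
  · intro u _
    refine Finset.mem_filter.2 ⟨mem_univ _, (h.rel_iff _).2 fun j => ?_⟩
    simp only [j.2, dif_pos]
    refine Finset.sum_congr rfl fun i _ => ?_
    rw [dif_neg i.2]
  · intro s hs
    have hs' := (h.rel_iff _).1 (Finset.mem_filter.1 hs).2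
    funext i
    by_cases hi : J i = true
    · rw [dif_pos hi]; exact (hs' ⟨i, hi⟩).symm
    · rw [dif_neg hi]
  · intro u _
    funext i
    exact dif_neg i.2
  · intro s hs
    have hs' := (h.rel_iff _).1 (Finset.mem_filter.1 hs).2
    rw [prod_split J, mul_comm]
    congr 1
    exact Finset.prod_congr rfl fun j _ => by rw [← hs' j]

open Classical in
theorem card_typ (J : Fin p → Bool) (α : Fin p → Fin p → ZMod 2) :
    (univ.filter fun ω : Fin p → Fin K → ZMod 2 => Typ ω J α).card ≤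
      (2 ^ K) ^ Fintype.card (In J) := by
  have h : (univ : Finset (In J → Fin K → ZMod 2)).card = (2 ^ K) ^ Fintype.card (In J) := by
    simp [Finset.card_univ]
  rw [← h]
  refine Finset.card_le_card_of_injOn (fun ω (j : In J) => ω j) (fun _ _ => mem_univ _) ?_
  intro ω hω ω' hω' he
  have h1 : Typ ω J α := (Finset.mem_filter.1 hω).2
  have h2 : Typ ω' J α := (Finset.mem_filter.1 hω').2
  have h3 : ∀ j : In J, ω j = ω' j := fun j => congrFun he j
  funext i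
  by_cases hi : J i = true
  · exact h3 ⟨i, hi⟩
  · have e1 := h1.2 ⟨i, hi⟩
    have e2 := h2.2 ⟨i, hi⟩
    have e3 : vv ω i = vv ω' i := by
      rw [e1, e2]
      refine Finset.sum_congr rfl fun j _ => ?_
      rw [vv, vv, h3 j]
    exact congrArg Prod.snd e3

theorem Typ.eq_single (h : Typ ω J α) (c : In J → ZMod 2) (j : In J)
    (hc : vv ω j = ∑ j', c j' • vv ω j') (j' : In J) : c j' = if j' = j then 1 else 0 := by
  have h1 := h.1 (fun j' => c j' + if j' = j then 1 else 0) (by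
    simp only [add_smul, Finset.sum_add_distrib, ite_smul, one_smul, zero_smul,
      Finset.sum_ite_eq', mem_univ, if_true]
    rw [← hc, ← two_smul (ZMod 2), show (2 : ZMod 2) = 0 from rfl, zero_smul]) j'
  exact zmod_add_eq_zero.1 h1

theorem Typ.inj (h : Typ ω J α) {j j' : In J} (he : ω j = ω j') : j = j' := by
  have h1 := h.eq_single (fun x => if x = j' then 1 else 0) j (by
    simp only [ite_smul, one_smul, zero_smul, Finset.sum_ite_eq', mem_univ, if_true]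
    rw [vv, vv, he]) j
  by_contra hc
  simp [hc] at h1

theorem Typ.prod_match (h : Typ ω J α) (hm : Match J α) (φ : (Fin K → ZMod 2) → ℤ)
    (hφ : ∀ y, φ y * φ y = 1) : ∏ i, φ (ω i) = 1 := by
  obtain ⟨π, hπ⟩ := hm
  rw [prod_split J, ← Equiv.prod_comp π, ← Finset.prod_mul_distrib]
  refine Finset.prod_eq_one fun i _ => ?_
  have h1 := h.2 i
  simp only [hπ, ite_smul, one_smul, zero_smul, Finset.sum_ite_eq', mem_univ, if_true] at h1
  have h2 : ω i = ω (π i) := congrArg Prod.snd h1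
  rw [h2, hφ]

/-- The correlation in the model of independent signs. -/
def model (ω : Fin p → Fin K → ZMod 2) : ℤ :=
  ∑ ε : (Fin K → ZMod 2) → ZMod 2, ∏ i, sg (ε (ω i))

theorem model_eq_zero (j : Fin p) (hj : ∀ i, i ≠ j → ω i ≠ ω j) : model ω = 0 := by
  refine sum_eq_zero_of_flip _ (Pi.single (ω j) 1) fun ε => ?_
  simp only [Pi.add_apply, sg_add, Finset.prod_mul_distrib]
  rw [Finset.prod_eq_single j (f := fun i => sg ((Pi.single (ω j) 1 : _ → ZMod 2) (ω i)))]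
  · simp [sg_one]
  · intro i _ hi
    rw [Pi.single_eq_of_ne (hj i hi), sg_zero]
  · intro hc; exact absurd (mem_univ _) hc

theorem Typ.model_cases (h : Typ ω J α) : model ω = 0 ∨
    (Fintype.card (In J) ≤ Fintype.card (Out J) ∧
      (Fintype.card (In J) = Fintype.card (Out J) → Match J α)) := by
  by_cases hz : ∃ j : In J, ∀ i : Fin p, i ≠ (j : Fin p) → ω i ≠ ω j
  · obtain ⟨j, hj⟩ := hz
    exact Or.inl (model_eq_zero j hj)
  right
  push Not at hz
  choose ρ hρ1 hρ2 using hz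
  have hout : ∀ j, ¬ J (ρ j) = true := by
    intro j hc
    exact hρ1 j (congrArg Subtype.val (h.inj (j := ⟨ρ j, hc⟩) (j' := j) (hρ2 j)))
  let ρ' : In J → Out J := fun j => ⟨ρ j, hout j⟩
  have hinj : Function.Injective ρ' := by
    intro j j' he
    have : ρ j = ρ j' := congrArg Subtype.val he
    exact h.inj (by rw [← hρ2 j, this, hρ2 j'])
  refine ⟨Fintype.card_le_of_injective _ hinj, fun hcard => ?_⟩
  have hbij : Function.Bijective ρ' := (Fintype.bijective_iff_injective_and_card _).2 ⟨hinj, hcard⟩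
  refine ⟨(Equiv.ofBijective ρ' hbij).symm, fun i j => ?_⟩
  obtain ⟨j0, rfl⟩ := hbij.2 i
  have e1 : (Equiv.ofBijective ρ' hbij).symm (ρ' j0) = j0 :=
    (Equiv.ofBijective ρ' hbij).symm_apply_apply j0
  rw [e1]
  refine h.eq_single (fun j' => α (ρ' j0) j') j0 ?_ j
  rw [← h.2 (ρ' j0), vv, vv]
  exact congrArg _ (hρ2 j0).symm

theorem Typ.match_or (h : Typ ω J α) (hcard : Fintype.card (In J) = Fintype.card (Out J)) :
    Match J α ∨ ∃ (i1 i2 : Out J) (j0 : In J), i1 ≠ i2 ∧ α i1 j0 = 1 ∧ α i2 j0 = 1 := by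
  by_cases hz : ∃ (i1 i2 : Out J) (j0 : In J), i1 ≠ i2 ∧ α i1 j0 = 1 ∧ α i2 j0 = 1
  · exact Or.inr hz
  left
  have hcol : ∀ (i1 i2 : Out J) (j0 : In J), α i1 j0 = 1 → α i2 j0 = 1 → i1 = i2 := by
    intro i1 i2 j0 h1 h2
    by_contra hc
    exact hz ⟨i1, i2, j0, hc, h1, h2⟩
  have hrow : ∀ i : Out J, ∃ j : In J, α i j = 1 := by
    intro i
    by_contra hc
    push Not at hc
    have h1 := congrArg Prod.fst (h.2 i)
    rw [Finset.sum_eq_zero fun j _ => by rw [(zmod_cases _).resolve_right (hc j), zero_smul]] at h1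
    exact one_ne_zero h1
  choose π hπ using hrow
  have hinj : Function.Injective π := fun i i' he => hcol i i' (π i) (hπ i) (he ▸ hπ i')
  have hbij : Function.Bijective π :=
    (Fintype.bijective_iff_injective_and_card _).2 ⟨hinj, hcard.symm⟩
  refine ⟨Equiv.ofBijective π hbij, fun i j => ?_⟩
  rw [Equiv.ofBijective_apply]
  split_ifs with hj
  · rw [hj, hπ]
  · refine (zmod_cases _).resolve_right fun hc => hj ?_
    obtain ⟨i', rfl⟩ := hbij.2 j
    rw [hcol i i' _ hc (hπ i')]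

end Pool.Agent.MP_08f939_co.H50

end

-- part MP_08f939_co.H50.Mom
section

namespace Pool.Agent.MP_08f939_co.H50

open Finset

variable {ι : Type} [Fintype ι] [DecidableEq ι] {K : ℕ}

/-- The hypotheses on a Fourier transform `f` with majorant `g`. -/
structure Hyp (f g : (ι → ZMod 2) → ℝ) (N ν B : ℝ) : Prop where
  hN : 0 < N
  hfg : ∀ x, |f x| ≤ g x
  h2 : ∀ x, g x ≤ 2
  hsum : ∑ x, g x = 2 * N
  htri : ∀ v, ∑ a, ∑ b, g a * g b * g (a + b + v) ≤ 24 * N
  hsq : ∑ x, f x ^ 2 = N * (1 - ν)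
  hν0 : 0 ≤ ν
  hν1 : ν ≤ 1
  hν3 : ν * N ≤ 3
  hB : 4 ≤ B
  hF : ∀ y, (∑ s, f s * (e y s : ℝ)) ^ 2 ≤ B * N

theorem abs_sn_prod {P : Type} [Fintype P] (ω : P → Fin K → ZMod 2) :
    |∏ i, (sn (ω i) : ℝ)| = 1 := by
  rw [Finset.abs_prod]
  refine Finset.prod_eq_one fun i _ => ?_
  have h : (sn (ω i) : ℝ) * sn (ω i) = 1 := by exact_mod_cast sn_mul_self (ω i)
  rcases mul_self_eq_one_iff.1 h with h' | h' <;> simp [h']

theorem abs_model_le {p : ℕ} (ω : Fin p → Fin K → ZMod 2) :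
    |(model ω : ℝ)| ≤ 2 ^ Fintype.card (Fin K → ZMod 2) := by
  rw [← card_fun_zmod, model]
  push_cast
  refine (Finset.abs_sum_le_sum_abs _ _).trans ?_
  calc _ ≤ ∑ _ε : (Fin K → ZMod 2) → ZMod 2, (1 : ℝ) := by
        refine Finset.sum_le_sum fun ε _ => le_of_eq ?_
        rw [Finset.abs_prod]
        refine Finset.prod_eq_one fun i _ => ?_
        rcases sg_cases (ε (ω i)) with h' | h' <;> simp [h']
    _ = _ := by simp

theorem Hyp.term {f g : (ι → ZMod 2) → ℝ} {N ν B : ℝ} (H : Hyp f g N ν B) {j : ℕ} (hj : 1 ≤ j)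
    (lam : ℝ) (hl1 : lam ≤ 1) (hl2 : 1 ≤ lam * 2 ^ K) (hl3 : 2 ^ K ≤ lam * N)
    {ω : Fin (2 * j) → Fin K → ZMod 2} {J : Fin (2 * j) → Bool}
    {α : Fin (2 * j) → Fin (2 * j) → ZMod 2} (h : Typ ω J α) :
    |(∏ i, (sn (ω i) : ℝ)) * (∑ h : Fin K → ι → ZMod 2, ∑ x,
        ∏ i, (∑ s, f s * (e (vtx x h (ω i)) s : ℝ))) /
          ((Fintype.card (ι → ZMod 2) : ℝ) ^ (K + 1) * N ^ j) -
        (model ω : ℝ) / 2 ^ Fintype.card (Fin K → ZMod 2)| * (2 ^ K) ^ Fintype.card (In J) ≤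
      6 * B ^ j * lam * (2 ^ K) ^ j := by
  have hN := H.hN
  have hB := H.hB
  set q : ℝ := (Fintype.card (ι → ZMod 2) : ℝ) with hq
  have hq0 : 0 < q := by rw [hq]; exact_mod_cast Fintype.card_pos
  set n : ℝ := 2 ^ K with hn
  have hn1 : 1 ≤ n := one_le_pow₀ (by norm_num)
  have hl0 : 0 < lam := by
    by_contra hc
    push Not at hc
    nlinarith
  have hlN : 1 ≤ lam * N := hn1.trans hl3
  have hg0 : ∀ x, 0 ≤ g x := fun x => (abs_nonneg _).trans (H.hfg x)
  have hcard := card_split J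
  have hB1 : (1 : ℝ) ≤ B ^ j := one_le_pow₀ (by linarith)
  have hB4 : (4 : ℝ) ^ j ≤ B ^ j := pow_le_pow_left₀ (by norm_num) hB j
  have hP : (0 : ℝ) < 2 ^ Fintype.card (Fin K → ZMod 2) := by positivity
  have hA : (∏ i, (sn (ω i) : ℝ)) * (∑ h : Fin K → ι → ZMod 2, ∑ x,
        ∏ i, (∑ s, f s * (e (vtx x h (ω i)) s : ℝ))) / (q ^ (K + 1) * N ^ j) =
      (∏ i, (sn (ω i) : ℝ)) * tau f (fun (i : Out J) (j : In J) => α i j) / N ^ j := by
    rw [sum_prod_vtx, h.sum_rel, ← hq]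
    field_simp
  rcases lt_trichotomy (Fintype.card (In J)) j with hr | hr | hr
  · have h1 : |(∏ i, (sn (ω i) : ℝ)) * (∑ h : Fin K → ι → ZMod 2, ∑ x,
        ∏ i, (∑ s, f s * (e (vtx x h (ω i)) s : ℝ))) / (q ^ (K + 1) * N ^ j)| ≤ B ^ j := by
      rw [abs_div, abs_mul, abs_sn_prod, one_mul, abs_of_pos (a := q ^ (K + 1) * N ^ j)
        (by positivity), div_le_iff₀ (by positivity)]
      have h2 : ∀ (h : Fin K → ι → ZMod 2) x,
          |∏ i, (∑ s, f s * (e (vtx x h (ω i)) s : ℝ))| ≤ (B * N) ^ j := by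
        intro h x
        refine abs_le_of_sq_le_sq' ?_ (by positivity) |> abs_le.2
        rw [← Finset.prod_pow]
        calc _ ≤ ∏ _i : Fin (2 * j), B * N :=
              Finset.prod_le_prod (fun _ _ => sq_nonneg _) fun _ _ => H.hF _
          _ = _ := by rw [Finset.prod_const, Finset.card_univ, Fintype.card_fin, ← pow_mul,
              mul_comm j]
      calc _ ≤ ∑ h : Fin K → ι → ZMod 2, ∑ _x : ι → ZMod 2, (B * N) ^ j := by
            refine (Finset.abs_sum_le_sum_abs _ _).trans (Finset.sum_le_sum fun h _ => ?_)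
            exact (Finset.abs_sum_le_sum_abs _ _).trans (Finset.sum_le_sum fun x _ => h2 h x)
        _ = _ := by
            simp only [Finset.sum_const, Finset.card_univ, nsmul_eq_mul]
            rw [Fintype.card_fun (α := Fin K), Fintype.card_fin, Nat.cast_pow, ← hq, mul_pow]
            ring
    have h3 : |(model ω : ℝ) / 2 ^ Fintype.card (Fin K → ZMod 2)| ≤ 1 := by
      rw [abs_div, abs_of_pos hP, div_le_one hP]; exact abs_model_le ω
    have h4 : n ^ Fintype.card (In J) ≤ lam * n ^ j := by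
      calc n ^ Fintype.card (In J) ≤ (lam * n) * n ^ Fintype.card (In J) :=
            le_mul_of_one_le_left (by positivity) hl2
        _ = lam * n ^ (Fintype.card (In J) + 1) := by ring
        _ ≤ lam * n ^ j := by gcongr; omega
    calc _ ≤ (B ^ j + 1) * (lam * n ^ j) :=
          mul_le_mul ((abs_sub _ _).trans (add_le_add h1 h3)) h4 (by positivity) (by positivity)
      _ ≤ (6 * B ^ j) * (lam * n ^ j) := by gcongr; linarith
      _ = _ := by ring
  · have hd : Fintype.card (Out J) = j := by omega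
    rw [hA, hr]
    refine mul_le_mul_of_nonneg_right ?_ (by positivity)
    by_cases hm : Match J α
    · have h1 : ∏ i, (sn (ω i) : ℝ) = 1 := by exact_mod_cast h.prod_match hm sn sn_mul_self
      have h2 : (model ω : ℝ) = 2 ^ Fintype.card (Fin K → ZMod 2) := by
        rw [← card_fun_zmod, model, Finset.sum_congr rfl fun ε _ =>
          h.prod_match hm (fun y => sg (ε y)) fun _ => sg_mul_self _]
        simp
      obtain ⟨π, hπ⟩ := hm
      rw [h1, h2, tau_match f _ π hπ, H.hsq, hd, div_self hP.ne', one_mul, mul_pow,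
        mul_div_cancel_left₀ _ (by positivity)]
      have h3 : 1 + j * (-ν) ≤ (1 + -ν) ^ j := one_add_mul_le_pow (by linarith [H.hν1]) j
      have h4 : (1 - ν) ^ j ≤ 1 := pow_le_one₀ (by linarith [H.hν1]) (by linarith [H.hν0])
      have h5 : ν ≤ 3 * lam := by
        have := H.hν3
        have h6 : ν * N ≤ 3 * lam * N := by nlinarith
        exact le_of_mul_le_mul_right h6 hN
      have h6 : (j : ℝ) ≤ B ^ j := by
        refine le_trans ?_ hB4
        exact_mod_cast (Nat.lt_pow_self (by norm_num : 1 < 4)).le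
      rw [← sub_eq_add_neg] at h3
      rw [abs_sub_comm, abs_of_nonneg (by linarith)]
      have h7 : (j : ℝ) * ν ≤ B ^ j * (3 * lam) := mul_le_mul h6 h5 H.hν0 (by positivity)
      nlinarith [mul_pos (zero_lt_one.trans_le hB1) hl0]
    · have h1 : model ω = 0 := h.model_cases.resolve_right fun hc => hm (hc.2 (by omega))
      obtain ⟨i1, i2, j0, h12, ha1, ha2⟩ := (h.match_or (by omega)).resolve_left hm
      have h2 := (abs_tau_le f g H.hfg (fun (i : Out J) (j : In J) => α i j)).trans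
        (tau_le_save g hg0 H.h2 _ H.htri _ i1 i2 j0 h12 ha1 ha2)
      have h3 : 2 ≤ Fintype.card (Out J) := Fintype.one_lt_card_iff.2 ⟨i1, i2, h12⟩
      obtain ⟨m, rfl⟩ : ∃ m, j = m + 2 := ⟨j - 2, by omega⟩
      rw [hr, hd, H.hsum, Nat.add_sub_cancel] at h2
      rw [h1, Int.cast_zero, zero_div, sub_zero, abs_div, abs_mul, abs_sn_prod, one_mul,
        abs_of_pos (a := N ^ (m + 2)) (by positivity), div_le_iff₀ (by positivity)]
      refine h2.trans ?_
      have h4 : (4 : ℝ) ^ (m + 2) = 2 ^ (m + 2) * 2 ^ m * 4 := by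
        rw [show (4 : ℝ) = 2 * 2 by norm_num, mul_pow]; ring
      calc (2 : ℝ) ^ (m + 2) * (24 * N * (2 * N) ^ m) = 6 * 4 ^ (m + 2) * 1 * N ^ (m + 1) := by
            rw [h4, mul_pow]; ring
        _ ≤ 6 * B ^ (m + 2) * (lam * N) * N ^ (m + 1) := by gcongr
        _ = _ := by ring
  · have h1 : model ω = 0 := h.model_cases.resolve_right fun hc => by omega
    have h2 := (abs_tau_le f g H.hfg (fun (i : Out J) (j : In J) => α i j)).trans
      (tau_le g hg0 H.h2 _)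
    obtain ⟨m, hm⟩ : ∃ m, Fintype.card (In J) = j + (m + 1) := ⟨Fintype.card (In J) - j - 1, by omega⟩
    obtain ⟨d, hd⟩ : ∃ d, Fintype.card (Out J) = d := ⟨_, rfl⟩
    have hjd : j = d + (m + 1) := by omega
    rw [hA, h1, Int.cast_zero, zero_div, sub_zero, abs_div, abs_mul, abs_sn_prod, one_mul,
      abs_of_pos (a := N ^ j) (by positivity), div_mul_eq_mul_div, div_le_iff₀ (by positivity)]
    rw [hd, hm, H.hsum] at h2
    rw [hm]
    have h4 : (2 : ℝ) ^ (j + (m + 1)) * 2 ^ d = 4 ^ j := by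
      rw [show (4 : ℝ) = 2 ^ 2 by norm_num, ← pow_mul, ← pow_add]; congr 1; omega
    have h5 : n ^ (m + 1) ≤ lam * N ^ (m + 1) := by
      calc n ^ (m + 1) ≤ (lam * N) ^ (m + 1) := pow_le_pow_left₀ (by positivity) hl3 _
        _ = lam ^ m * (lam * N ^ (m + 1)) := by ring
        _ ≤ _ := mul_le_of_le_one_left (by positivity) (pow_le_one₀ hl0.le hl1)
    calc _ ≤ 2 ^ (j + (m + 1)) * (2 * N) ^ d * n ^ (j + (m + 1)) := by gcongr
      _ = 4 ^ j * N ^ d * n ^ j * n ^ (m + 1) := by rw [← h4, mul_pow]; ring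
      _ ≤ (6 * B ^ j) * N ^ d * n ^ j * (lam * N ^ (m + 1)) := by gcongr; linarith
      _ = 6 * B ^ j * lam * n ^ j * N ^ (d + (m + 1)) := by ring
      _ = _ := by rw [← hjd]

/-- The even moments of the alternating cube sums are those of a sum of independent signs. -/
theorem Hyp.moment {f g : (ι → ZMod 2) → ℝ} {N ν B : ℝ} (H : Hyp f g N ν B) {j : ℕ} (hj : 1 ≤ j)
    (lam : ℝ) (hl1 : lam ≤ 1) (hl2 : 1 ≤ lam * 2 ^ K) (hl3 : 2 ^ K ≤ lam * N) :
    |(∑ w : (Fin K → ι → ZMod 2) × (ι → ZMod 2),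
        (alt (fun y => ∑ s, f s * (e y s : ℝ)) w.2 w.1 / √N) ^ (2 * j)) /
          (Fintype.card (ι → ZMod 2) : ℝ) ^ (K + 1) -
        (∑ ε : (Fin K → ZMod 2) → ZMod 2, zs ε ^ (2 * j)) / 2 ^ Fintype.card (Fin K → ZMod 2)| ≤
      2 ^ (2 * j + 2 * j * (2 * j)) * (6 * B ^ j * lam) * (2 ^ K) ^ j := by
  classical
  have hN := H.hN
  set q : ℝ := (Fintype.card (ι → ZMod 2) : ℝ) with hq
  have hq0 : 0 < q := by rw [hq]; exact_mod_cast Fintype.card_pos
  have e1 : (∑ w : (Fin K → ι → ZMod 2) × (ι → ZMod 2),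
        (alt (fun y => ∑ s, f s * (e y s : ℝ)) w.2 w.1 / √N) ^ (2 * j)) / q ^ (K + 1) =
      ∑ ω : Fin (2 * j) → Fin K → ZMod 2, (∏ i, (sn (ω i) : ℝ)) *
        (∑ h : Fin K → ι → ZMod 2, ∑ x, ∏ i, (∑ s, f s * (e (vtx x h (ω i)) s : ℝ))) /
          (q ^ (K + 1) * N ^ j) := by
    rw [← Finset.sum_div, Fintype.sum_prod_type]
    simp only [div_pow, ← Finset.sum_div]
    rw [pow_mul (√N), Real.sq_sqrt hN.le, div_div, mul_comm (N ^ j)]
    congr 1
    simp only [alt, Fintype.sum_pow, Finset.prod_mul_distrib]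
    rw [Finset.sum_congr rfl fun h _ => Finset.sum_comm, Finset.sum_comm]
    refine Finset.sum_congr rfl fun ω _ => ?_
    rw [Finset.mul_sum]
    refine Finset.sum_congr rfl fun h _ => ?_
    rw [Finset.mul_sum]
  have e2 : (∑ ε : (Fin K → ZMod 2) → ZMod 2, zs ε ^ (2 * j)) /
        (2 : ℝ) ^ Fintype.card (Fin K → ZMod 2) =
      ∑ ω : Fin (2 * j) → Fin K → ZMod 2, (model ω : ℝ) / 2 ^ Fintype.card (Fin K → ZMod 2) := by
    rw [← Finset.sum_div]
    congr 1
    simp only [zs, Fintype.sum_pow, model]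
    push_cast
    rw [Finset.sum_comm]
  rw [e1, e2, ← Finset.sum_sub_distrib]
  refine (Finset.abs_sum_le_sum_abs _ _).trans ?_
  choose J α hT using fun ω : Fin (2 * j) → Fin K → ZMod 2 => exists_typ ω
  rw [← Finset.sum_fiberwise (s := univ) (g := fun ω => (J ω, α ω))]
  have hl0 : 0 ≤ lam := by
    by_contra hc
    push Not at hc
    have : (0 : ℝ) < 2 ^ K := by positivity
    nlinarith
  have hB0 : 0 ≤ B := by linarith [H.hB]
  calc _ ≤ ∑ _t : (Fin (2 * j) → Bool) × (Fin (2 * j) → Fin (2 * j) → ZMod 2),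
        6 * B ^ j * lam * (2 ^ K) ^ j := by
        refine Finset.sum_le_sum fun t _ => ?_
        have hpos : (0 : ℝ) < (2 ^ K) ^ Fintype.card (In t.1) := by positivity
        have hsub : (univ.filter fun ω => (J ω, α ω) = t) ⊆
            univ.filter fun ω : Fin (2 * j) → Fin K → ZMod 2 => Typ ω t.1 t.2 := by
          intro ω hω
          have := (Finset.mem_filter.1 hω).2
          subst this
          exact Finset.mem_filter.2 ⟨mem_univ _, hT ω⟩
        have hc : ((univ.filter fun ω => (J ω, α ω) = t).card : ℝ) ≤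
            (2 ^ K) ^ Fintype.card (In t.1) := by
          exact_mod_cast (Finset.card_le_card hsub).trans (card_typ t.1 t.2)
        calc _ ≤ ∑ _ω ∈ univ.filter fun ω => (J ω, α ω) = t,
              6 * B ^ j * lam * (2 ^ K) ^ j / (2 ^ K) ^ Fintype.card (In t.1) := by
              refine Finset.sum_le_sum fun ω hω => ?_
              rw [le_div_iff₀ hpos]
              exact H.term hj lam hl1 hl2 hl3 (Finset.mem_filter.1 (hsub hω)).2
          _ ≤ (2 ^ K) ^ Fintype.card (In t.1) *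
              (6 * B ^ j * lam * (2 ^ K) ^ j / (2 ^ K) ^ Fintype.card (In t.1)) := by
              rw [Finset.sum_const, nsmul_eq_mul]
              gcongr
          _ = _ := mul_div_cancel₀ _ hpos.ne'
    _ = _ := by
        rw [Finset.sum_const, Finset.card_univ, nsmul_eq_mul]
        simp only [Fintype.card_prod, Fintype.card_fun, Fintype.card_bool, Fintype.card_fin,
          ZMod.card]
        push_cast
        rw [← pow_mul, ← pow_add]
        ring

end Pool.Agent.MP_08f939_co.H50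

end

-- part MP_08f939_co.H50.Level
section

namespace Pool.Agent.MP_08f939_co.H50

open Finset

variable {ι : Type} [Fintype ι] [DecidableEq ι]

/-- The indicator of a set. -/
def ind (S : Finset (ι → ZMod 2)) (x : ι → ZMod 2) : ℝ := if x ∈ S then 1 else 0

theorem sum_ind_mul (S : Finset (ι → ZMod 2)) (F : (ι → ZMod 2) → ℝ) :
    ∑ x, ind S x * F x = ∑ x ∈ S, F x := by
  simp only [ind, ite_mul, one_mul, zero_mul]
  rw [Finset.sum_ite_mem, Finset.univ_inter]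

theorem sum_ind (S : Finset (ι → ZMod 2)) : ∑ x, ind S x = S.card := by
  have := sum_ind_mul S fun _ => 1
  simpa using this

theorem sum_shift (F : (ι → ZMod 2) → ℝ) (w : ι → ZMod 2) : ∑ a, F (a + w) = ∑ a, F a :=
  Fintype.sum_equiv (Equiv.addRight w) _ _ fun _ => rfl

theorem sum_ind_ind {S : Finset (ι → ZMod 2)} (hS : Sid S) (w : ι → ZMod 2) :
    ∑ a, ind S a * ind S (a + w) ≤ 2 + if w = 0 then (S.card : ℝ) else 0 := by
  have h1 : ∑ a, ind S a * ind S (a + w) = ((S.filter fun a => a + w ∈ S).card : ℝ) := by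
    rw [sum_ind_mul]
    simp [ind]
  rw [h1]
  split_ifs with hw
  · have : ((S.filter fun a => a + w ∈ S).card : ℝ) ≤ S.card := by
      exact_mod_cast Finset.card_filter_le _ _
    linarith
  · rw [add_zero]
    rcases (S.filter fun a => a + w ∈ S).eq_empty_or_nonempty with he | ⟨a0, ha0⟩
    · rw [he]; simp
    have ha0' := Finset.mem_filter.1 ha0
    have hsub : (S.filter fun a => a + w ∈ S) ⊆ {a0, a0 + w} := by
      intro a ha
      have ha' := Finset.mem_filter.1 ha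
      have hne : a0 ≠ a0 + w := fun hc => hw (by simpa using hc)
      have := hS.pair ha0'.1 ha0'.2 ha'.1 ha'.2 hne (by
        rw [← add_assoc, ← add_assoc, add_self, add_self])
      rcases this with h | h <;> simp [h.1]
    exact_mod_cast (Finset.card_le_card hsub).trans Finset.card_le_two

theorem parseval_W (A : Finset (ι → ZMod 2)) :
    ∑ y, (W A y : ℝ) ^ 2 = (Fintype.card (ι → ZMod 2) : ℝ) * A.card := by
  have h := parseval (fun ξ : ι → ZMod 2 => if ξ ∈ A then (1 : ℤ) else 0)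
  have h1 : ∀ y, ft (fun ξ : ι → ZMod 2 => if ξ ∈ A then (1 : ℤ) else 0) y = W A y := by
    intro y
    simp only [ft, W, ite_mul, one_mul, zero_mul]
    rw [Finset.sum_ite_mem, Finset.univ_inter]
    exact Finset.sum_congr rfl fun _ _ => e_comm _ _
  simp only [h1, ite_pow, one_pow, ne_eq, OfNat.ofNat_ne_zero, not_false_eq_true, zero_pow] at h
  rw [Finset.sum_ite_mem, Finset.univ_inter] at h
  simp only [Finset.sum_const, nsmul_eq_mul, mul_one] at h
  exact_mod_cast h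

omit [DecidableEq ι] in
theorem abs_W_le (A : Finset (ι → ZMod 2)) (y : ι → ZMod 2) : |(W A y : ℝ)| ≤ A.card := by
  rw [W]
  push_cast
  refine (Finset.abs_sum_le_sum_abs _ _).trans ?_
  calc _ ≤ ∑ _x ∈ A, (1 : ℝ) := by
        refine Finset.sum_le_sum fun x _ => ?_
        rcases e_cases y x with h | h <;> simp [h]
    _ = _ := by simp

theorem card_sums {S : Finset (ι → ZMod 2)} (hS : Sid S) :
    2 * (Fintype.card (ι → ZMod 2) : ℝ) =
      (S.card : ℝ) ^ 2 - S.card + 2 * ((sums S)ᶜ).card ∧ 1 ≤ (((sums S)ᶜ).card : ℝ) := by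
  have h1 := two_mul_card_sums hS
  have h2 := Finset.card_add_card_compl (sums S)
  have h3 : 0 < ((sums S)ᶜ).card :=
    Finset.card_pos.2 ⟨0, Finset.mem_compl.2 (zero_notMem_sums S)⟩
  have h1' : 2 * ((sums S).card : ℝ) = (S.card : ℝ) ^ 2 - S.card := by exact_mod_cast h1
  have h2' : ((sums S).card : ℝ) + ((sums S)ᶜ).card = Fintype.card (ι → ZMod 2) := by
    exact_mod_cast h2
  exact ⟨by linarith, by exact_mod_cast h3⟩

theorem ft_ind (S : Finset (ι → ZMod 2)) (y : ι → ZMod 2) :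
    ∑ s, (ind S s - S.card / (Fintype.card (ι → ZMod 2) : ℝ)) * (e y s : ℝ) =
      if y = 0 then 0 else (W S y : ℝ) := by
  have hq0 : (0 : ℝ) < Fintype.card (ι → ZMod 2) := by exact_mod_cast Fintype.card_pos
  simp only [sub_mul, Finset.sum_sub_distrib, ← Finset.mul_sum]
  rw [sum_ind_mul, ← Int.cast_sum, ← Int.cast_sum, orth']
  split_ifs with hy
  · subst hy
    have := W_zero S
    rw [W] at this
    rw [this]
    push_cast
    field_simp
    ring
  · simp [W]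

/-- The standing assumptions: a Sidon set within `T` of the trivial bound. -/
structure Near (S : Finset (ι → ZMod 2)) (T : ℝ) : Prop where
  sid : Sid S
  hT : 1 ≤ T
  hTN : T ^ 2 ≤ S.card
  big : 2 * (Fintype.card (ι → ZMod 2) : ℝ) ≤ (S.card + T) ^ 2

variable {S : Finset (ι → ZMod 2)} {T : ℝ}

theorem Near.pos (h : Near S T) : (1 : ℝ) ≤ S.card := by nlinarith [h.hT, h.hTN]

theorem card_le_q (S : Finset (ι → ZMod 2)) : (S.card : ℝ) ≤ Fintype.card (ι → ZMod 2) := by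
  exact_mod_cast Finset.card_le_univ S

theorem Near.sq_le (h : Near S T) :
    (S.card : ℝ) ^ 2 ≤ 2 * Fintype.card (ι → ZMod 2) + S.card := by
  obtain ⟨h1, h2⟩ := card_sums h.sid
  linarith

theorem Near.sq_le' (h : Near S T) : (S.card : ℝ) ^ 2 ≤ 3 * Fintype.card (ι → ZMod 2) := by
  linarith [h.sq_le, card_le_q S]

theorem Near.compl_le (h : Near S T) : (((sums S)ᶜ).card : ℝ) ≤ (T + 1) * S.card := by
  obtain ⟨h1, h2⟩ := card_sums h.sid
  nlinarith [h.big, h.hTN]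

theorem Near.hyp (h : Near S T) :
    Hyp (fun s => ind S s - S.card / (Fintype.card (ι → ZMod 2) : ℝ))
      (fun s => ind S s + S.card / (Fintype.card (ι → ZMod 2) : ℝ)) S.card
      (S.card / (Fintype.card (ι → ZMod 2) : ℝ)) (5 * T) := by
  have hq0 : (0 : ℝ) < Fintype.card (ι → ZMod 2) := by exact_mod_cast Fintype.card_pos
  have hN := h.pos
  have hT := h.hT
  set q : ℝ := (Fintype.card (ι → ZMod 2) : ℝ) with hq
  set ν : ℝ := S.card / q with hν
  have hν0 : 0 ≤ ν := by positivity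
  have hν1 : ν ≤ 1 := (div_le_one hq0).2 (card_le_q S)
  have hνq : ν * q = S.card := div_mul_cancel₀ _ hq0.ne'
  have hν3 : ν * S.card ≤ 3 := by
    rw [hν, div_mul_eq_mul_div, div_le_iff₀ hq0, ← sq]; exact h.sq_le'
  have hi : ∀ x, ind S x = 0 ∨ ind S x = 1 := by
    intro x; unfold ind; split_ifs <;> simp
  have hsum : ∑ x, (ind S x + ν) = 2 * S.card := by
    rw [Finset.sum_add_distrib, sum_ind, Finset.sum_const, Finset.card_univ, nsmul_eq_mul, ← hq]
    linarith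
  refine ⟨by linarith, fun x => ?_, fun x => ?_, hsum, fun v => ?_, ?_, hν0, hν1, hν3,
    by linarith, fun y => ?_⟩
  · rcases hi x with h' | h' <;> rw [h', abs_le] <;> constructor <;> linarith
  · rcases hi x with h' | h' <;> rw [h'] <;> linarith
  · have h1 : ∀ w, ∑ a, (ind S a + ν) * (ind S (a + w) + ν) ≤
        11 + if w = 0 then (S.card : ℝ) else 0 := by
      intro w
      have h2 := sum_ind_ind h.sid w
      have h3 : ∑ a, (ind S a + ν) * (ind S (a + w) + ν) =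
          ∑ a, ind S a * ind S (a + w) + 3 * (ν * S.card) := by
        simp only [add_mul, mul_add, Finset.sum_add_distrib, ← Finset.mul_sum, ← Finset.sum_mul,
          Finset.sum_const, Finset.card_univ, nsmul_eq_mul]
        rw [sum_shift (ind S) w, sum_ind, ← hq]
        linear_combination ν * hνq
      linarith
    rw [Finset.sum_comm]
    calc _ ≤ ∑ b, ((ind S b + ν) * 11 + if b = v then 2 * (S.card : ℝ) else 0) := by
          refine Finset.sum_le_sum fun b _ => ?_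
          have hb0 : 0 ≤ ind S b + ν := by rcases hi b with h' | h' <;> rw [h'] <;> linarith
          have hb2 : ind S b + ν ≤ 2 := by rcases hi b with h' | h' <;> rw [h'] <;> linarith
          calc _ = (ind S b + ν) * ∑ a, (ind S a + ν) * (ind S (a + (b + v)) + ν) := by
                rw [Finset.mul_sum]
                refine Finset.sum_congr rfl fun a _ => ?_
                rw [add_assoc]; ring
            _ ≤ (ind S b + ν) * (11 + if b + v = 0 then (S.card : ℝ) else 0) :=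
                mul_le_mul_of_nonneg_left (h1 _) hb0
            _ ≤ _ := by
                rw [mul_add]
                simp only [add_eq_zero_iff']
                split_ifs
                · nlinarith
                · simp
      _ = 24 * S.card := by
          rw [Finset.sum_add_distrib, ← Finset.sum_mul, hsum, Finset.sum_ite_eq']
          simp only [mem_univ, if_true]
          ring
  · have h1 : ∀ x, (ind S x - ν) ^ 2 = ind S x * (1 - 2 * ν) + ν ^ 2 := by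
      intro x; rcases hi x with h' | h' <;> rw [h'] <;> ring
    simp only [h1]
    rw [Finset.sum_add_distrib, ← Finset.sum_mul, sum_ind, Finset.sum_const, Finset.card_univ,
      nsmul_eq_mul, ← hq]
    linear_combination ν * hνq
  · rw [hν, hq, ft_ind]
    split_ifs with hy
    · nlinarith
    · have h1 : (W S y : ℝ) ^ 2 = S.card - 2 * W (sums S)ᶜ y := by exact_mod_cast W_sq h.sid hy
      have h2 := (abs_le.1 (abs_W_le (sums S)ᶜ y)).1
      have h3 := h.compl_le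
      nlinarith

/-- The sign of a Walsh coefficient. -/
def sgnW (S : Finset (ι → ZMod 2)) (y : ι → ZMod 2) : ℤ := if 0 ≤ W S y then 1 else -1

theorem Near.err (h : Near S T) :
    ∑ y, ((W S y : ℝ) - √(S.card : ℝ) * sgnW S y) ^ 2 ≤ 11 * T * Fintype.card (ι → ZMod 2) := by
  have hN := h.pos
  have hT := h.hT
  set N : ℝ := (S.card : ℝ) with hNdef
  set M : ℝ := √N with hM
  have hM2 : M ^ 2 = N := Real.sq_sqrt (by linarith)
  have hM0 : 0 ≤ M := Real.sqrt_nonneg _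
  have hM1 : 1 ≤ M := by nlinarith
  have h1 : ∀ y, ((W S y : ℝ) - M * sgnW S y) ^ 2 = (|(W S y : ℝ)| - M) ^ 2 := by
    intro y
    unfold sgnW
    split_ifs with hy
    · rw [abs_of_nonneg (by exact_mod_cast hy)]; simp
    · rw [abs_of_neg (by exact_mod_cast not_le.1 hy)]; push_cast; ring
  have h2 : ∀ y, ((W S y : ℝ) - M * sgnW S y) ^ 2 ≤
      4 / N * (W (sums S)ᶜ y : ℝ) ^ 2 + if y = 0 then N ^ 2 else 0 := by
    intro y
    rw [h1]
    split_ifs with hy
    · subst hy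
      rw [W_zero, Int.cast_natCast, ← hNdef, abs_of_nonneg (by linarith)]
      have : 0 ≤ 4 / N * (W (sums S)ᶜ 0 : ℝ) ^ 2 := by positivity
      nlinarith
    · have h3 : (W S y : ℝ) ^ 2 = N - 2 * W (sums S)ᶜ y := by
        rw [hNdef]; exact_mod_cast W_sq h.sid hy
      rw [add_zero, div_mul_eq_mul_div, le_div_iff₀ (by linarith)]
      have h4 : 4 * (W (sums S)ᶜ y : ℝ) ^ 2 =
          (|(W S y : ℝ)| - M) ^ 2 * (|(W S y : ℝ)| + M) ^ 2 := by
        rw [← mul_pow, show (|(W S y : ℝ)| - M) * (|(W S y : ℝ)| + M) =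
          |(W S y : ℝ)| ^ 2 - M ^ 2 by ring, sq_abs, h3, hM2]
        ring
      rw [h4]
      refine mul_le_mul_of_nonneg_left ?_ (sq_nonneg _)
      nlinarith [abs_nonneg (W S y : ℝ)]
  refine (Finset.sum_le_sum fun y _ => h2 y).trans ?_
  rw [Finset.sum_add_distrib, ← Finset.mul_sum, parseval_W, Finset.sum_ite_eq']
  simp only [mem_univ, if_true]
  have hq0 : (0 : ℝ) < Fintype.card (ι → ZMod 2) := by exact_mod_cast Fintype.card_pos
  have h5 : 4 / N * ((Fintype.card (ι → ZMod 2) : ℝ) * ((sums S)ᶜ).card) ≤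
      4 / N * ((Fintype.card (ι → ZMod 2) : ℝ) * ((T + 1) * N)) := by
    gcongr; exact h.compl_le
  have h6 : 4 / N * ((Fintype.card (ι → ZMod 2) : ℝ) * ((T + 1) * N)) =
      4 * (T + 1) * Fintype.card (ι → ZMod 2) := by field_simp
  have h7 := h.sq_le'
  nlinarith

theorem Near.err' (h : Near S T) :
    ∑ y, ((if y = 0 then 0 else (W S y : ℝ)) / √(S.card : ℝ) - sgnW S y) ^ 2 ≤
      12 * T * Fintype.card (ι → ZMod 2) / S.card := by
  have hN := h.pos
  have hT := h.hT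
  have he := h.err
  set N : ℝ := (S.card : ℝ) with hNdef
  set M : ℝ := √N with hM
  have hM2 : M ^ 2 = N := Real.sq_sqrt (by linarith)
  have hM0 : 0 < M := Real.sqrt_pos.2 (by linarith)
  have h2 : ∀ y, ((if y = 0 then 0 else (W S y : ℝ)) / M - sgnW S y) ^ 2 ≤
      ((W S y : ℝ) - M * sgnW S y) ^ 2 / N + if y = 0 then 1 else 0 := by
    intro y
    split_ifs with hy
    · have : 0 ≤ ((W S y : ℝ) - M * sgnW S y) ^ 2 / N := by positivity
      have h3 : (sgnW S y : ℝ) ^ 2 = 1 := by unfold sgnW; split_ifs <;> simp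
      rw [zero_div, zero_sub, neg_sq, h3]
      linarith
    · rw [add_zero, ← hM2, ← div_pow]
      refine le_of_eq ?_
      congr 1
      field_simp
  refine (Finset.sum_le_sum fun y _ => h2 y).trans ?_
  rw [Finset.sum_add_distrib, ← Finset.sum_div, Finset.sum_ite_eq']
  simp only [mem_univ, if_true]
  rw [div_add_one (by linarith)]
  have h3 := card_le_q S
  rw [← hNdef] at h3
  gcongr
  nlinarith

theorem pow_bound (U : ℕ) (hU : 4 ≤ U) : 192 * (U : ℝ) ^ 2 ≤ 2 ^ (U ^ 2) := by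
  have hU2 : (U : ℝ) ≤ 2 ^ U := by exact_mod_cast Nat.lt_two_pow_self.le
  calc 192 * (U : ℝ) ^ 2 ≤ 2 ^ 8 * (2 ^ U) ^ 2 := by gcongr; norm_num
    _ = 2 ^ (8 + U * 2) := by rw [← pow_mul, ← pow_add]
    _ ≤ _ := pow_le_pow_right₀ (by norm_num) (by nlinarith)

theorem pow_bound' (U : ℕ) (hU : 4 ≤ U) : 192 * (U : ℝ) ^ 2 ≤ 2 ^ (22 * U ^ 2) :=
  (pow_bound U hU).trans (pow_le_pow_right₀ (by norm_num) (by omega))

theorem delta_bound (U : ℕ) (hU : 4 ≤ U) (B : ℝ) (hB0 : 0 ≤ B) (hB : B ≤ U) :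
    (2 ^ (4 * U + 16 * U ^ 2) * (6 * B ^ (2 * U) * (1 / 2 ^ (22 * U ^ 2)))) *
      (32 * (U : ℝ) ^ 2 * U ^ (2 * U)) ≤ 1 := by
  have hU2 : (U : ℝ) ≤ 2 ^ U := by exact_mod_cast Nat.lt_two_pow_self.le
  have h192 := pow_bound U hU
  have a1 : B ^ (2 * U) ≤ (2 : ℝ) ^ (2 * U ^ 2) := by
    calc B ^ (2 * U) ≤ ((2 : ℝ) ^ U) ^ (2 * U) := pow_le_pow_left₀ hB0 (hB.trans hU2) _
      _ = _ := by rw [← pow_mul]; congr 1; ring
  have a2 : (U : ℝ) ^ (2 * U) ≤ (2 : ℝ) ^ (2 * U ^ 2) := by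
    calc (U : ℝ) ^ (2 * U) ≤ ((2 : ℝ) ^ U) ^ (2 * U) := pow_le_pow_left₀ (by positivity) hU2 _
      _ = _ := by rw [← pow_mul]; congr 1; ring
  have a3 : (2 : ℝ) ^ (4 * U + 16 * U ^ 2) ≤ 2 ^ (17 * U ^ 2) :=
    pow_le_pow_right₀ (by norm_num) (by nlinarith)
  calc _ = (2 ^ (4 * U + 16 * U ^ 2) * B ^ (2 * U) * (U : ℝ) ^ (2 * U) *
        (192 * (U : ℝ) ^ 2)) / 2 ^ (22 * U ^ 2) := by ring
    _ ≤ (2 ^ (17 * U ^ 2) * 2 ^ (2 * U ^ 2) * 2 ^ (2 * U ^ 2) * 2 ^ (U ^ 2)) /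
        2 ^ (22 * U ^ 2) := by gcongr
    _ = 1 := by
        rw [← pow_add, ← pow_add, ← pow_add, div_eq_one_iff_eq (by positivity)]
        congr 1; ring

theorem Near.anti (h : Near S T) (U K : ℕ) (hU : 4 ≤ U) (hTU : 5 * T ≤ U)
    (hK1 : 22 * U ^ 2 ≤ K) (hK2 : (2 : ℝ) ^ K * 2 ^ (22 * U ^ 2) ≤ S.card) (θ : ℝ)
    (hu : (2 : ℝ) ^ K * θ ^ 2 ≤ U) :
    ∑ w : (Fin K → ι → ZMod 2) × (ι → ZMod 2),
      Real.cos (θ * (alt (fun y => if y = 0 then 0 else (W S y : ℝ)) w.2 w.1 / √(S.card : ℝ))) ≤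
      (1 - 2 ^ K * θ ^ 2 / (8 * U)) * (Fintype.card (ι → ZMod 2) : ℝ) ^ (K + 1) := by
  have hT := h.hT
  have hU4 : (4 : ℝ) ≤ U := by exact_mod_cast hU
  have hq0 : (0 : ℝ) < Fintype.card (ι → ZMod 2) := by exact_mod_cast Fintype.card_pos
  have hcard : Fintype.card (Fin K → ZMod 2) = 2 ^ K := by simp
  have hcard' : (Fintype.card (Fin K → ZMod 2) : ℝ) = 2 ^ K := by rw [hcard]; push_cast; rfl
  have hL1 : (1 : ℝ) ≤ 2 ^ (22 * U ^ 2) := one_le_pow₀ (by norm_num)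
  have hLK : (2 : ℝ) ^ (22 * U ^ 2) ≤ 2 ^ K := pow_le_pow_right₀ (by norm_num) hK1
  have hUK : U ≤ Fintype.card (Fin K → ZMod 2) := by
    rw [hcard]
    exact le_trans (by nlinarith) Nat.lt_two_pow_self.le
  have hA := Pool.Agent.MP_08f939_co.H50.anti (κ := Fin K → ZMod 2)
    (fun w : (Fin K → ι → ZMod 2) × (ι → ZMod 2) => alt (fun y => ∑ s,
      (ind S s - S.card / (Fintype.card (ι → ZMod 2) : ℝ)) * (e y s : ℝ)) w.2 w.1 / √(S.card : ℝ))
    ((Fintype.card (ι → ZMod 2) : ℝ) ^ (K + 1))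
    (by rw [Fintype.card_prod, Fintype.card_fun (α := Fin K), Fintype.card_fin]; push_cast; ring)
    (by positivity) U hU hUK
    (2 ^ (4 * U + 16 * U ^ 2) * (6 * (5 * T) ^ (2 * U) * (1 / 2 ^ (22 * U ^ 2)))) (by positivity)
    (delta_bound U hU (5 * T) (by positivity) hTU)
    (fun j hj1 hj2 => by
      refine (h.hyp.moment (K := K) hj1 (1 / 2 ^ (22 * U ^ 2))
        ((div_le_one (by positivity)).2 hL1) ?_ ?_).trans ?_
      · rw [one_div_mul_eq_div, le_div_iff₀ (by positivity)]; linarith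
      · rw [one_div_mul_eq_div, le_div_iff₀ (by positivity)]; exact hK2
      · rw [hcard']
        have b1 : (2 : ℝ) ^ (2 * j + 2 * j * (2 * j)) ≤ 2 ^ (4 * U + 16 * U ^ 2) :=
          pow_le_pow_right₀ (by norm_num) (by nlinarith)
        have b2 : (5 * T) ^ j ≤ (5 * T) ^ (2 * U) := pow_le_pow_right₀ (by linarith) hj2
        gcongr)
    θ (by rw [hcard']; exact hu)
  simp only [ft_ind] at hA
  rw [hcard', div_le_iff₀ (by positivity)] at hA
  exact hA

theorem cos_lower (a b : ℝ) (m : ℤ) :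
    1 - 4 * Real.pi ^ 2 * (a ^ 2 + b ^ 2) ≤ Real.cos (2 * Real.pi * (a - b) + m * (2 * Real.pi)) := by
  rw [Real.cos_add_int_mul_two_pi]
  refine le_trans ?_ Real.one_sub_sq_div_two_le_cos
  have e4 : (a - b) ^ 2 ≤ 2 * (a ^ 2 + b ^ 2) := by nlinarith [sq_nonneg (a + b)]
  have hpi : 0 ≤ Real.pi ^ 2 := sq_nonneg _
  nlinarith [mul_le_mul_of_nonneg_left e4 hpi]

theorem cos_alt {K : ℕ} (S : Finset (ι → ZMod 2)) (M : ℝ) (r k : ℤ) (x : ι → ZMod 2)
    (h : Fin K → ι → ZMod 2) :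
    1 - 4 * Real.pi ^ 2 * ((r * M / 2 ^ K - k) ^ 2 *
        alt (fun y => (if y = 0 then 0 else (W S y : ℝ)) / M - sgnW S y) x h ^ 2 +
        (r / 2 ^ K) ^ 2 * alt (fun y => (W S y : ℝ) - M * sgnW S y) x h ^ 2) ≤
      Real.cos (2 * Real.pi * (r * M / 2 ^ K - k) *
        (alt (fun y => if y = 0 then 0 else (W S y : ℝ)) x h / M)) := by
  obtain ⟨b, hb⟩ := alt_W S x h
  obtain ⟨z, hz⟩ := alt_int (sgnW S) x h
  have e1 : alt (fun y => (if y = 0 then 0 else (W S y : ℝ)) / M - sgnW S y) x h =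
      alt (fun y => if y = 0 then 0 else (W S y : ℝ)) x h / M - z := by
    rw [← hz]
    simp only [alt, mul_sub, Finset.sum_sub_distrib, Finset.sum_div, mul_div_assoc]
  have e2 : alt (fun y => (W S y : ℝ) - M * sgnW S y) x h = 2 ^ K * b - M * z := by
    rw [← hz, ← hb]
    simp only [alt, mul_sub, Finset.sum_sub_distrib, Finset.mul_sum]
    congr 1
    exact Finset.sum_congr rfl fun _ _ => by ring
  rw [e1, e2]
  generalize alt (fun y => if y = 0 then 0 else (W S y : ℝ)) x h / M = Y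
  have e3 : 2 * Real.pi * (r * M / 2 ^ K - k) * Y = 2 * Real.pi *
      ((r * M / 2 ^ K - k) * (Y - z) - r / 2 ^ K * (2 ^ K * b - M * z)) +
      ((r * b - k * z : ℤ) : ℝ) * (2 * Real.pi) := by
    push_cast
    field_simp
    ring
  rw [e3, ← mul_pow, ← mul_pow]
  exact cos_lower _ _ _

theorem level_arith {n N U T φ r P : ℝ} (hn : 0 < n) (hU : 0 < U) (hr : 0 < r) (hP : 0 < P)
    (hF : 12 * T / N ≤ 1 / (16 * U))
    (hE : n * (4 * P * φ ^ 2) / (8 * U) ≤
      4 * P * (φ ^ 2 * (n * (12 * T / N)) + (r / n) ^ 2 * (n * (11 * T)))) :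
    (n / r * φ) ^ 2 ≤ 176 * U * T := by
  have hG : 4 * P * (φ ^ 2 * n / (16 * U)) ≤ 4 * P * ((r / n) ^ 2 * (n * (11 * T))) := by
    have c1 : φ ^ 2 * (n * (12 * T / N)) ≤ φ ^ 2 * (n * (1 / (16 * U))) := by gcongr
    have c2 : n * (4 * P * φ ^ 2) / (8 * U) = 2 * (4 * P * (φ ^ 2 * n / (16 * U))) := by
      field_simp; ring
    have c3 : φ ^ 2 * (n * (1 / (16 * U))) = φ ^ 2 * n / (16 * U) := by ring
    rw [c3] at c1
    have c4 := mul_le_mul_of_nonneg_left c1 (by positivity : 0 ≤ 4 * P)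
    rw [c2, mul_add] at hE
    linarith
  have hH := le_of_mul_le_mul_left hG (by positivity)
  rw [div_le_iff₀ (by positivity)] at hH
  calc (n / r * φ) ^ 2 = (n / r ^ 2) * (φ ^ 2 * n) := by ring
    _ ≤ (n / r ^ 2) * ((r / n) ^ 2 * (n * (11 * T)) * (16 * U)) := by gcongr
    _ = _ := by field_simp; ring

/-- At every intermediate level, a good approximation is automatically a very good one. -/
theorem Near.level (h : Near S T) (U K : ℕ) (hU : 4 ≤ U) (hTU : 5 * T ≤ U)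
    (hK1 : 22 * U ^ 2 ≤ K) (hK2 : (2 : ℝ) ^ K * 2 ^ (22 * U ^ 2) ≤ S.card) (r k : ℤ) (hr : 0 < r)
    (hu : (2 : ℝ) ^ K * (2 * Real.pi * (r * √(S.card : ℝ) / 2 ^ K - k)) ^ 2 ≤ U) :
    (√(S.card : ℝ) - 2 ^ K * k / r) ^ 2 ≤ 176 * U * T := by
  have hA := h.anti U K hU hTU hK1 hK2 _ hu
  have hC := Finset.sum_le_sum fun (w : (Fin K → ι → ZMod 2) × (ι → ZMod 2)) (_ : w ∈ univ) =>
    cos_alt S (√(S.card : ℝ)) r k w.2 w.1
  have hS1 := (sum_alt_sq (fun y => (if y = 0 then 0 else (W S y : ℝ)) / √(S.card : ℝ) -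
    sgnW S y) K).trans (mul_le_mul_of_nonneg_left h.err' (by positivity))
  have hS2 := (sum_alt_sq (fun y => (W S y : ℝ) - √(S.card : ℝ) * sgnW S y) K).trans
    (mul_le_mul_of_nonneg_left h.err (by positivity))
  replace hC := hC.trans hA
  rw [Finset.sum_sub_distrib, ← Finset.mul_sum, Finset.sum_add_distrib, ← Finset.mul_sum,
    ← Finset.mul_sum, Fintype.sum_prod_type (f := fun w => alt _ w.2 w.1 ^ 2),
    Fintype.sum_prod_type (f := fun w => alt _ w.2 w.1 ^ 2), Finset.sum_const, Finset.card_univ,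
    nsmul_eq_mul, mul_one, Fintype.card_prod, Fintype.card_fun (α := Fin K), Fintype.card_fin,
    Nat.cast_mul, Nat.cast_pow, ← pow_succ] at hC
  have hN := h.pos
  have hT := h.hT
  have hU4 : (4 : ℝ) ≤ U := by exact_mod_cast hU
  have hq0 : (0 : ℝ) < Fintype.card (ι → ZMod 2) := by exact_mod_cast Fintype.card_pos
  have hr0 : (0 : ℝ) < r := by exact_mod_cast hr
  have hF : 12 * T / S.card ≤ 1 / (16 * U) := by
    rw [div_le_div_iff₀ (by linarith) (by positivity)]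
    have h1 : (1 : ℝ) * 2 ^ (22 * U ^ 2) ≤ 2 ^ K * 2 ^ (22 * U ^ 2) := by
      gcongr; exact one_le_pow₀ (by norm_num)
    have h2 := pow_bound' U hU
    have h3 : 12 * T * (16 * U) ≤ 192 * (U : ℝ) ^ 2 := by nlinarith
    linarith
  have e5 : √(S.card : ℝ) - 2 ^ K * k / r = 2 ^ K / r * (r * √(S.card : ℝ) / 2 ^ K - k) := by
    field_simp
  rw [e5]
  refine level_arith (N := S.card) (P := Real.pi ^ 2) (by positivity) (by linarith) hr0
    (by positivity) hF ?_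
  rw [mul_pow (2 : ℝ)] at hS1 hS2
  generalize (r * √(S.card : ℝ) / 2 ^ K - k) = φ at *
  generalize (Fintype.card (ι → ZMod 2) : ℝ) = q at *
  generalize (∑ h : Fin K → ι → ZMod 2, ∑ x, alt (fun y =>
    (if y = 0 then 0 else (W S y : ℝ)) / √(S.card : ℝ) - sgnW S y) x h ^ 2) = A1 at *
  generalize (∑ h : Fin K → ι → ZMod 2, ∑ x,
    alt (fun y => (W S y : ℝ) - √(S.card : ℝ) * sgnW S y) x h ^ 2) = A2 at *
  have hQ : 0 < q ^ (K + 1) := by positivity
  refine le_of_mul_le_mul_left ?_ hQ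
  have b1 : 4 * Real.pi ^ 2 * (φ ^ 2 * A1 + (r / 2 ^ K) ^ 2 * A2) ≤
      4 * Real.pi ^ 2 * (φ ^ 2 * (2 ^ K * q ^ K * (12 * T * q / S.card)) +
        (r / 2 ^ K) ^ 2 * (2 ^ K * q ^ K * (11 * T * q))) := by gcongr
  calc q ^ (K + 1) * (2 ^ K * (4 * Real.pi ^ 2 * φ ^ 2) / (8 * U))
      = q ^ (K + 1) - (1 - 2 ^ K * (2 * Real.pi * φ) ^ 2 / (8 * U)) * q ^ (K + 1) := by ring
    _ ≤ 4 * Real.pi ^ 2 * (φ ^ 2 * A1 + (r / 2 ^ K) ^ 2 * A2) := by linarith
    _ ≤ _ := b1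
    _ = _ := by ring

end Pool.Agent.MP_08f939_co.H50

end

-- part MP_08f939_co.H50.Final
section

namespace Pool.Agent.MP_08f939_co.H50

open Finset

/-- `x` is a fraction `2 ^ K * k / r` with a small denominator. -/
def Rep (H : ℝ) (K : ℕ) (x : ℝ) : Prop :=
  ∃ r k : ℤ, 0 < r ∧ (r : ℝ) ^ 2 * H ≤ 2 ^ K ∧ x = 2 ^ K * k / r

theorem Rep.eq {H : ℝ} {K : ℕ} {x y : ℝ} (hx : Rep H K x) (hy : Rep H (K + 1) y)
    (hxy : 2 * (x - y) ^ 2 < H ^ 2) (hH : 0 < H) : x = y := by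
  obtain ⟨r, k, hr, hrH, rfl⟩ := hx
  obtain ⟨r', k', hr', hrH', rfl⟩ := hy
  have hr0 : (0 : ℝ) < r := by exact_mod_cast hr
  have hr0' : (0 : ℝ) < r' := by exact_mod_cast hr'
  have e : (2 : ℝ) ^ K * k / r - 2 ^ (K + 1) * k' / r' =
      2 ^ K * ((k * r' - 2 * k' * r : ℤ) : ℝ) / (r * r') := by
    push_cast; field_simp; ring
  by_cases hd : k * r' - 2 * k' * r = 0
  · rw [hd] at e
    simpa [sub_eq_zero] using e
  exfalso
  have h1 : (1 : ℝ) ≤ ((k * r' - 2 * k' * r : ℤ) : ℝ) ^ 2 := by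
    exact_mod_cast (one_le_sq_iff_one_le_abs _).2 (Int.one_le_abs hd)
  rw [e, div_pow, mul_pow, ← mul_div_assoc, div_lt_iff₀ (by positivity)] at hxy
  have h2 : ((r : ℝ) ^ 2 * H) * ((r' : ℝ) ^ 2 * H) ≤ 2 ^ K * 2 ^ (K + 1) :=
    mul_le_mul hrH hrH' (by positivity) (by positivity)
  have h3 : ((2 : ℝ) ^ K) ^ 2 * 1 ≤ (2 ^ K) ^ 2 * ((k * r' - 2 * k' * r : ℤ) : ℝ) ^ 2 := by gcongr
  rw [pow_succ (2 : ℝ) K] at h2
  nlinarith

theorem chain {H M E : ℝ} (hH : 0 < H) (hE : 8 * E < H ^ 2) {K1 K2 : ℕ} (h12 : K1 ≤ K2)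
    (lev : ∀ K, K1 ≤ K → K ≤ K2 → ∃ x, Rep H K x ∧ (M - x) ^ 2 ≤ E) :
    ∃ x, Rep H K1 x ∧ Rep H K2 x ∧ (M - x) ^ 2 ≤ E := by
  obtain ⟨x, hx, hxE⟩ := lev K1 le_rfl h12
  refine ⟨x, hx, ?_, hxE⟩
  have : ∀ K, K1 ≤ K → K ≤ K2 → Rep H K x := by
    intro K hK
    induction K, hK using Nat.le_induction with
    | base => exact fun _ => hx
    | succ K hK ih =>
      intro hK2
      obtain ⟨y, hy, hyE⟩ := lev (K + 1) (by omega) hK2
      have : x = y := (ih (by omega)).eq hy (by nlinarith [sq_nonneg (M - x + (M - y))]) hH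
      rwa [this]
  exact this K2 h12 le_rfl

theorem two_pow_dvd {A r c : ℤ} {m : ℕ} (hr : 0 < r) (hrm : r ^ 2 ≤ 2 ^ (2 * m))
    (h : A * r = 2 ^ (2 * m) * c) : 2 ^ m ∣ A := by
  obtain ⟨r, rfl⟩ := Int.eq_ofNat_of_zero_le hr.le
  obtain ⟨j, s, hs, rfl⟩ := Nat.exists_eq_two_pow_mul_odd (n := r) (by omega)
  have hjm : j ≤ m := by
    have h1 : (2 ^ j * s) ^ 2 ≤ (2 ^ m) ^ 2 := by
      rw [← pow_mul 2 m, mul_comm m]; exact_mod_cast hrm
    have h2 : 2 ^ j * s ≤ 2 ^ m := (Nat.pow_le_pow_iff_left (by norm_num)).1 h1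
    have h3 : 2 ^ j ≤ 2 ^ m := le_trans (Nat.le_mul_of_pos_right _ hs.pos) h2
    exact (Nat.pow_le_pow_iff_right (by norm_num)).1 h3
  obtain ⟨d, rfl⟩ := Nat.exists_eq_add_of_le hjm
  have h1 : (2 : ℤ) ^ j * (A * s) = 2 ^ j * (2 ^ (j + d) * (2 ^ d * c)) := by
    push_cast at h
    linear_combination h
  have h2 : (2 : ℤ) ^ (j + d) ∣ A * s := ⟨_, mul_left_cancel₀ (by positivity) h1⟩
  refine IsCoprime.dvd_of_dvd_mul_right ?_ h2
  refine IsCoprime.pow_left ?_
  exact_mod_cast Nat.isCoprime_iff_coprime.2 (Nat.coprime_two_left.2 hs)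

theorem fourth_ne {A r : ℤ} (hr : 0 < r) (n : ℕ) : A ^ 4 - r ^ 4 * 2 ^ (2 * n + 1) ≠ 0 := by
  intro h
  have hr0 : (0 : ℝ) < r := by exact_mod_cast hr
  have h1 : (A : ℝ) ^ 4 = r ^ 4 * 2 ^ (2 * n + 1) := by exact_mod_cast sub_eq_zero.1 h
  refine irrational_sqrt_two ⟨(A : ℚ) ^ 2 / ((r : ℚ) ^ 2 * 2 ^ n), ?_⟩
  push_cast
  symm
  rw [Real.sqrt_eq_iff_mul_self_eq (by norm_num) (by positivity), div_mul_div_comm,
    eq_div_iff (by positivity)]
  linear_combination -h1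

theorem fourth_close {x M N E T Q : ℝ} (hM : M ^ 2 = N) (hN : 1 ≤ N) (hE1 : 1 ≤ E) (hE : E ≤ N)
    (hx : (M - x) ^ 2 ≤ E) (hT : 1 ≤ T) (hTN : T ^ 2 ≤ N) (h1 : N ^ 2 ≤ Q + N)
    (h2 : Q ≤ (N + T) ^ 2) : (x ^ 4 - Q) ^ 2 ≤ 512 * E * N ^ 3 := by
  have a1 : x ^ 2 ≤ 4 * N := by nlinarith [sq_nonneg (M - x + M), sq_nonneg (M - x - M)]
  have a2 : (x + M) ^ 2 ≤ 10 * N := by nlinarith [sq_nonneg (x - M)]
  have a3 : (x ^ 2 + N) ^ 2 ≤ (5 * N) ^ 2 :=
    pow_le_pow_left₀ (by positivity) (by linarith) 2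
  have a4 : (x ^ 4 - N ^ 2) ^ 2 = (M - x) ^ 2 * (x + M) ^ 2 * (x ^ 2 + N) ^ 2 := by
    rw [← hM]; ring
  have a5 : (x ^ 4 - N ^ 2) ^ 2 ≤ E * (10 * N) * (5 * N) ^ 2 := by
    rw [a4]; gcongr
  have a6 : T ≤ N := by nlinarith
  have a7 : (N ^ 2 - Q) ^ 2 ≤ (3 * T * N) ^ 2 := by
    refine sq_le_sq' ?_ ?_ <;> nlinarith
  have a8 : (3 * T * N) ^ 2 ≤ 9 * E * N ^ 3 := by
    calc (3 * T * N) ^ 2 = 9 * 1 * T ^ 2 * N ^ 2 := by ring
      _ ≤ 9 * E * N * N ^ 2 := by gcongr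
      _ = _ := by ring
  have a9 : 0 ≤ E * N ^ 3 := by positivity
  nlinarith [sq_nonneg ((x ^ 4 - N ^ 2) - 5 * (N ^ 2 - Q))]

theorem final_arith {x H E N : ℝ} {n K1 m : ℕ} (hH : 1 ≤ H) (h1 : Rep H K1 x)
    (h2 : Rep H (2 * m) x) (hE : E ≤ 2 ^ K1) (hN0 : 0 ≤ N) (hN : N ≤ 2 ^ (n + 1))
    (hm : 2 * m ≤ n) (hm' : 5 * K1 + 3 * n + 12 < 8 * m)
    (hx : (x ^ 4 - 2 ^ (2 * n + 1)) ^ 2 ≤ 512 * E * N ^ 3) : False := by
  obtain ⟨r, k, hr, hrH, e1⟩ := h1
  obtain ⟨r', k', hr', hrH', e2⟩ := h2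
  have hr0 : (0 : ℝ) < r := by exact_mod_cast hr
  have hr0' : (0 : ℝ) < r' := by exact_mod_cast hr'
  have hrK : (r : ℝ) ^ 2 ≤ 2 ^ K1 := le_trans (le_mul_of_one_le_right (by positivity) hH) hrH
  have hrK' : (r' : ℝ) ^ 2 ≤ 2 ^ (2 * m) :=
    le_trans (le_mul_of_one_le_right (by positivity) hH) hrH'
  have hA : ((2 ^ K1 * k : ℤ) : ℝ) = r * x := by rw [e1]; push_cast; field_simp
  have hd : (2 : ℤ) ^ m ∣ 2 ^ K1 * k := by
    refine two_pow_dvd (c := r * k') hr' (by exact_mod_cast hrK') ?_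
    have : ((2 ^ K1 * k : ℤ) : ℝ) * r' = 2 ^ (2 * m) * (r * k') := by
      rw [hA, e2]; field_simp
    exact_mod_cast this
  generalize (2 ^ K1 * k : ℤ) = A at hA hd
  have hd2 : (2 : ℤ) ^ (4 * m) ∣ A ^ 4 - r ^ 4 * 2 ^ (2 * n + 1) := by
    refine dvd_sub ?_ (Dvd.dvd.mul_left (pow_dvd_pow _ (by omega)) _)
    rw [mul_comm 4, pow_mul]
    exact pow_dvd_pow_of_dvd hd 4
  have hlow : (2 : ℤ) ^ (4 * m) ≤ |A ^ 4 - r ^ 4 * 2 ^ (2 * n + 1)| :=
    Int.le_of_dvd (abs_pos.2 (fourth_ne hr n)) ((dvd_abs _ _).2 hd2)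
  have hlow2 : ((2 : ℤ) ^ (4 * m)) ^ 2 ≤ (A ^ 4 - r ^ 4 * 2 ^ (2 * n + 1)) ^ 2 := by
    rw [← sq_abs (A ^ 4 - _)]
    exact pow_le_pow_left₀ (by positivity) hlow 2
  have hlow3 : ((2 : ℝ) ^ (4 * m)) ^ 2 ≤ ((A : ℝ) ^ 4 - r ^ 4 * 2 ^ (2 * n + 1)) ^ 2 := by
    exact_mod_cast hlow2
  have hE0 : 0 ≤ 512 * E * N ^ 3 := (sq_nonneg _).trans hx
  have hup : ((A : ℝ) ^ 4 - r ^ 4 * 2 ^ (2 * n + 1)) ^ 2 ≤ 2 ^ (5 * K1 + 3 * n + 12) := by
    calc ((A : ℝ) ^ 4 - r ^ 4 * 2 ^ (2 * n + 1)) ^ 2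
        = ((r : ℝ) ^ 2) ^ 4 * (x ^ 4 - 2 ^ (2 * n + 1)) ^ 2 := by rw [hA]; ring
      _ ≤ (2 ^ K1) ^ 4 * (512 * E * N ^ 3) := by gcongr
      _ ≤ (2 ^ K1) ^ 4 * (512 * 2 ^ K1 * (2 ^ (n + 1)) ^ 3) := by gcongr
      _ = _ := by ring
  have h3 : (2 : ℝ) ^ (5 * K1 + 3 * n + 12) < 2 ^ (4 * m * 2) :=
    pow_lt_pow_right₀ (by norm_num) (by omega)
  rw [← pow_mul] at hlow3
  linarith

variable {ι : Type} [Fintype ι] [DecidableEq ι]

theorem Near.rep {S : Finset (ι → ZMod 2)} {T : ℝ} (h : Near S T) (H K : ℕ) (hH : 1 ≤ H)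
    (hTH : 5 * T ≤ (40 * H : ℕ)) (hK1 : 22 * (40 * H) ^ 2 ≤ K)
    (hK2 : (2 : ℝ) ^ K * 2 ^ (22 * (40 * H) ^ 2) ≤ S.card) :
    ∃ x, Rep H K x ∧ (√(S.card : ℝ) - x) ^ 2 ≤ 176 * (40 * H : ℕ) * T := by
  have hHK : H ≤ 2 ^ K := le_trans (by nlinarith) Nat.lt_two_pow_self.le
  have hR : 0 < Nat.sqrt (2 ^ K / H) := Nat.sqrt_pos.2 (Nat.div_pos hHK hH)
  have hR1 : Nat.sqrt (2 ^ K / H) ^ 2 * H ≤ 2 ^ K :=
    le_trans (Nat.mul_le_mul_right _ (Nat.sqrt_le' _)) (Nat.div_mul_le_self _ _)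
  have hR2 : 2 ^ K < (Nat.sqrt (2 ^ K / H) + 1) ^ 2 * H :=
    (Nat.div_lt_iff_lt_mul hH).1 (Nat.lt_succ_sqrt' _)
  obtain ⟨k, r, hr, hrR, hrk⟩ := Real.exists_int_int_abs_mul_sub_le (√(S.card : ℝ) / 2 ^ K) hR
  generalize Nat.sqrt (2 ^ K / H) = R at *
  have hR1' : (R : ℝ) ^ 2 * H ≤ 2 ^ K := by exact_mod_cast hR1
  have hR2' : (2 : ℝ) ^ K ≤ ((R : ℝ) + 1) ^ 2 * H := by exact_mod_cast hR2.le
  have hr0 : (0 : ℝ) < r := by exact_mod_cast hr
  have hrR' : (r : ℝ) ≤ R := by exact_mod_cast hrR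
  refine ⟨2 ^ K * k / r, ⟨r, k, hr, le_trans (by gcongr) hR1', rfl⟩, ?_⟩
  refine h.level (40 * H) K (by omega) hTH hK1 hK2 r k hr ?_
  rw [← mul_div_assoc] at hrk
  generalize (r * √(S.card : ℝ) / 2 ^ K - k) = φ at *
  have h1 : φ ^ 2 ≤ (1 / ((R : ℝ) + 1)) ^ 2 := by
    rw [← sq_abs φ]; exact pow_le_pow_left₀ (abs_nonneg _) hrk 2
  have h2 : Real.pi ^ 2 ≤ 10 := by nlinarith [Real.pi_lt_d2, Real.pi_pos]
  calc (2 : ℝ) ^ K * (2 * Real.pi * φ) ^ 2 = 4 * Real.pi ^ 2 * (2 ^ K * φ ^ 2) := by ring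
    _ ≤ 4 * 10 * ((((R : ℝ) + 1) ^ 2 * H) * (1 / ((R : ℝ) + 1)) ^ 2) := by gcongr
    _ = _ := by push_cast; field_simp; ring

theorem main {n T : ℕ} (hι : Fintype.card ι = 2 * n) (hT : 1 ≤ T) (hn : 10 ^ 16 * T ^ 2 ≤ n)
    {S : Finset (ι → ZMod 2)} (hS : Sid S) : (S.card + T) ^ 2 < 2 ^ (2 * n + 1) := by
  by_contra hc
  push Not at hc
  have hq : Fintype.card (ι → ZMod 2) = 2 ^ (2 * n) := by rw [Fintype.card_fun, ZMod.card, hι]
  have hq' : 2 * (Fintype.card (ι → ZMod 2) : ℝ) = 2 ^ (2 * n + 1) := by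
    rw [hq]; push_cast; ring
  have hn2 : n < 2 ^ n := Nat.lt_two_pow_self
  have hN1 : 2 ^ n ≤ S.card := by
    by_contra h1
    push Not at h1
    have h2 : 3 * (S.card + T) ≤ 4 * 2 ^ n := by nlinarith
    have h3 : (3 * (S.card + T)) ^ 2 ≤ (4 * 2 ^ n) ^ 2 := Nat.pow_le_pow_left h2 2
    have h4 : 2 ^ (2 * n + 1) = 2 * (2 ^ n) ^ 2 := by ring
    have h5 : 0 < (2 ^ n) ^ 2 := by positivity
    nlinarith
  have hT' : (1 : ℝ) ≤ T := by exact_mod_cast hT
  have hnear : Near S T := by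
    refine ⟨hS, hT', ?_, ?_⟩
    · have : T ^ 2 ≤ S.card := by omega
      exact_mod_cast this
    · rw [hq']; exact_mod_cast hc
  obtain ⟨K1, hK1⟩ : ∃ K1, K1 = 22 * (40 * (60000 * T)) ^ 2 := ⟨_, rfl⟩
  have hK1T : K1 = 126720000000000 * T ^ 2 := by rw [hK1]; ring
  have hT2 : 1 ≤ T ^ 2 := Nat.one_le_pow _ _ hT
  obtain ⟨m, hm1, hm2⟩ : ∃ m, 2 * m + K1 ≤ n ∧ n ≤ 2 * m + K1 + 1 := ⟨(n - K1) / 2, by omega⟩
  have hN1' : (2 : ℝ) ^ n ≤ S.card := by exact_mod_cast hN1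
  obtain ⟨x, hx1, hx2, hxE⟩ := chain (H := ((60000 * T : ℕ) : ℝ)) (M := √(S.card : ℝ))
    (E := 176 * (40 * (60000 * T) : ℕ) * T) (K1 := K1) (K2 := 2 * m) (by positivity)
    (by push_cast; nlinarith) (by omega) (fun K hK hK' => by
      refine hnear.rep (60000 * T) K (by omega) (by push_cast; linarith) (hK1 ▸ hK) ?_
      rw [← hK1, ← pow_add]
      exact le_trans (pow_le_pow_right₀ (by norm_num) (by omega)) hN1')
  have hEK : (176 * (40 * (60000 * T) : ℕ) * T : ℝ) ≤ 2 ^ K1 := by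
    have h1 : 176 * (40 * (60000 * T)) * T ≤ 2 ^ K1 :=
      le_trans (by rw [hK1T]; nlinarith) Nat.lt_two_pow_self.le
    exact_mod_cast h1
  have hN2 : (S.card : ℝ) ≤ 2 ^ (n + 1) := by
    have h1 := hnear.sq_le'
    rw [hq] at h1
    push_cast at h1
    refine (abs_le_of_sq_le_sq' ?_ (by positivity)).2
    have h2 : ((2 : ℝ) ^ (n + 1)) ^ 2 = 4 * 2 ^ (2 * n) := by ring
    have h3 : (0 : ℝ) < 2 ^ (2 * n) := by positivity
    linarith
  refine final_arith (n := n) (by push_cast; linarith) hx1 hx2 hEK (Nat.cast_nonneg _) hN2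
    (by omega) (by omega) ?_
  refine fourth_close (Real.sq_sqrt (Nat.cast_nonneg _)) hnear.pos (by push_cast; nlinarith)
    (hEK.trans (le_trans (pow_le_pow_right₀ (by norm_num) (by omega)) hN1')) hxE hT' hnear.hTN ?_ ?_
  · rw [← hq']; exact hnear.sq_le
  · rw [← hq']; exact hnear.big

theorem main' {n T : ℕ} (hT : 1 ≤ T) (hn : 10 ^ 16 * T ^ 2 ≤ n)
    (S : Finset ((Fin n → ZMod 2) × (Fin n → ZMod 2)))
    (hS : ∀ x ∈ S, ∀ y ∈ S, ∀ z ∈ S, ∀ t ∈ S, x ≠ y → x ≠ z → x ≠ t → y ≠ z → y ≠ t → z ≠ t →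
      x + y + z + t ≠ 0) : (S.card + T) ^ 2 < 2 ^ (2 * n + 1) := by
  let φ := (LinearEquiv.sumArrowLequivProdArrow (Fin n) (Fin n) (ZMod 2) (ZMod 2)).symm
  have hS' : Sid (S.map φ.toEquiv.toEmbedding) := by
    intro x hx y hy z hz t ht h1 h2 h3 h4 h5 h6 h
    obtain ⟨x, hx', rfl⟩ := Finset.mem_map.1 hx
    obtain ⟨y, hy', rfl⟩ := Finset.mem_map.1 hy
    obtain ⟨z, hz', rfl⟩ := Finset.mem_map.1 hz
    obtain ⟨t, ht', rfl⟩ := Finset.mem_map.1 ht
    refine hS x hx' y hy' z hz' t ht' (fun e => h1 (by rw [e])) (fun e => h2 (by rw [e]))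
      (fun e => h3 (by rw [e])) (fun e => h4 (by rw [e])) (fun e => h5 (by rw [e]))
      (fun e => h6 (by rw [e])) ?_
    apply φ.injective
    rw [map_add, map_add, map_add, map_zero]
    exact h
  have := main (by simp [two_mul]) hT hn hS'
  rwa [Finset.card_map] at this

end Pool.Agent.MP_08f939_co.H50

end
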