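import Pool.Agent.MP_08f939_co.Mg.Sid
import Mathlib

-- part MP_08f939_co.Data
section

namespace Pool.Agent.MP_08f939_co

open Finset

variable {ι : Type} [Fintype ι] [DecidableEq ι]

theorem ft_W (S : Finset (ι → ZMod 2)) (z : ι → ZMod 2) :
    ft (W S) z = if z ∈ S then (Fintype.card (ι → ZMod 2) : ℤ) else 0 := by
  simp only [ft, W, Finset.sum_mul, ← e_add_right]
  rw [Finset.sum_comm]
  simp only [orth, add_eq_zero_iff']
  rw [Finset.sum_ite_eq']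

theorem sum_W (S : Finset (ι → ZMod 2)) :
    ∑ ξ, W S ξ = if (0 : ι → ZMod 2) ∈ S then (Fintype.card (ι → ZMod 2) : ℤ) else 0 := by
  rw [← ft_W]; simp [ft, e_zero_right]

theorem sum_mul_W (f : (ι → ZMod 2) → ℤ) (U : Finset (ι → ZMod 2)) :
    ∑ ξ, f ξ * W U ξ = ∑ y ∈ U, ft f y := sum_mul_sum_e f U

theorem sum_W_sq (U : Finset (ι → ZMod 2)) :
    ∑ ξ, W U ξ ^ 2 = (Fintype.card (ι → ZMod 2) : ℤ) * U.card := by
  simp only [sq]
  rw [sum_mul_W, Finset.sum_congr rfl (fun y hy => by rw [ft_W, if_pos hy])]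
  simp [mul_comm]

theorem sum_e_W_sq_nonneg (U : Finset (ι → ZMod 2)) (σ : ι → ZMod 2) :
    0 ≤ ∑ ξ, e ξ σ * W U ξ ^ 2 := by
  have : ∑ ξ, e ξ σ * W U ξ ^ 2 = ∑ ξ, (W U ξ * e ξ σ) * W U ξ :=
    Finset.sum_congr rfl fun ξ _ => by ring
  rw [this, sum_mul_W]
  refine Finset.sum_nonneg fun y _ => ?_
  have h1 : ft (fun ξ => W U ξ * e ξ σ) y = ft (W U) (σ + y) := by
    simp only [ft, e_add_right, mul_assoc]
  rw [h1, ft_W]
  split_ifs <;> positivity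

theorem abs_sum_ft_le {f : (ι → ZMod 2) → ℤ} {A : Finset (ι → ZMod 2)} {a : ℕ}
    (h1 : ∀ x ∈ A, |ft f x| = a) (h2 : ∀ x, x ∉ A → ft f x = 0) (S : Finset (ι → ZMod 2)) :
    |∑ x ∈ S, ft f x| ≤ a * (S ∩ A).card := by
  have : ∑ x ∈ S ∩ A, ft f x = ∑ x ∈ S, ft f x :=
    Finset.sum_subset Finset.inter_subset_left fun x hx hx' =>
      h2 x fun hc => hx' (Finset.mem_inter.2 ⟨hx, hc⟩)
  rw [← this]
  refine (Finset.abs_sum_le_sum_abs _ _).trans ?_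
  rw [Finset.sum_congr rfl (fun x hx => h1 x (Finset.mem_inter.1 hx).2)]
  simp [mul_comm]

theorem nu_bound {f : (ι → ZMod 2) → ℤ} {A : Finset (ι → ZMod 2)} {a : ℕ}
    (h1 : ∀ x ∈ A, |ft f x| = a) (h2 : ∀ x, x ∉ A → ft f x = 0)
    (hA : ∀ x ∈ A, ∀ y ∈ A, ∀ z ∈ A, x + y + z ∈ A) {S : Finset (ι → ZMod 2)} (hS : Sid S) :
    7 * (∑ ξ, f ξ * W S ξ) ^ 2 ≤ 16 * ((A.card : ℤ) * a ^ 2) := by
  rw [sum_mul_W]
  have h3 := abs_sum_ft_le h1 h2 S
  have h4 := card_inter_le hS hA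
  have h5 : (∑ x ∈ S, ft f x) ^ 2 ≤ ((a : ℤ) * (S ∩ A).card) ^ 2 := by
    rw [← sq_abs]; exact pow_le_pow_left₀ (abs_nonneg _) h3 2
  have h6 : (0 : ℤ) ≤ (a : ℤ) ^ 2 := by positivity
  nlinarith [mul_le_mul_of_nonneg_left h4 h6]

theorem mu_bound {f : (ι → ZMod 2) → ℤ} {A : Finset (ι → ZMod 2)} {a : ℕ}
    (h1 : ∀ x ∈ A, |ft f x| = a) (h2 : ∀ x, x ∉ A → ft f x = 0) (hf : f 0 = 1)
    (U : Finset (ι → ZMod 2)) :
    2 * |∑ y ∈ U, ft f y| ≤ a * A.card + (Fintype.card (ι → ZMod 2) : ℤ) := by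
  have h3 : ∑ x, |ft f x| = a * A.card := by
    rw [← Finset.sum_subset (Finset.subset_univ A) (f := fun x => |ft f x|)
      (fun x _ hx => by simp [h2 x hx]), Finset.sum_congr rfl h1]
    simp [mul_comm]
  have h4 := sum_ft f
  rw [hf, mul_one] at h4
  have h5 : ∑ y ∈ U, 2 * ft f y ≤ ∑ y, (|ft f y| + ft f y) :=
    (Finset.sum_le_sum fun y _ => by linarith [le_abs_self (ft f y)]).trans
      (Finset.sum_le_sum_of_subset_of_nonneg (Finset.subset_univ U)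
        fun y _ _ => by linarith [neg_abs_le (ft f y)])
  have h6 : ∑ y ∈ U, -2 * ft f y ≤ ∑ y, (|ft f y| - ft f y) :=
    (Finset.sum_le_sum fun y _ => by linarith [neg_abs_le (ft f y)]).trans
      (Finset.sum_le_sum_of_subset_of_nonneg (Finset.subset_univ U)
        fun y _ _ => by linarith [le_abs_self (ft f y)])
  rw [← Finset.mul_sum, Finset.sum_add_distrib, h3, h4] at h5
  rw [← Finset.mul_sum, Finset.sum_sub_distrib, h3, h4] at h6
  have hq : (0 : ℤ) ≤ (Fintype.card (ι → ZMod 2) : ℤ) := by positivity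
  rcases abs_cases (∑ y ∈ U, ft f y) with h | h <;> linarith [h.1]

theorem le_sum_of_nonneg (G : (ι → ZMod 2) → ℤ) (h : ∀ ξ, ξ ≠ 0 → 0 ≤ G ξ) : G 0 ≤ ∑ ξ, G ξ := by
  rw [← Finset.add_sum_erase univ G (Finset.mem_univ 0)]
  have := Finset.sum_nonneg (s := univ.erase (0 : ι → ZMod 2))
    (fun ξ hξ => h ξ (Finset.mem_erase.1 hξ).1)
  linarith

theorem whole_data {S : Finset (ι → ZMod 2)} (hS : Sid S) (hσ : ∑ x ∈ S, x = 0)
    {q N u : ℤ} (hq : q = Fintype.card (ι → ZMod 2)) (hN : N = S.card)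
    (hu : u = (sums S)ᶜ.card) :
    ∃ (a ρ : ℕ) (β μ ν z : ℤ), a * ρ = q ∧ (β = 0 ∨ β = a ∨ (β = -a ∧ 1 < ρ)) ∧
      |μ| ≤ a * u ∧ 2 * |μ| ≤ q * ρ + q ∧ 7 * ν ^ 2 ≤ 16 * q ^ 2 ∧ (z = 0 ∨ z = 1) ∧
      ∀ D α γ δ δ' κ lam : ℤ,
        (∀ X p : ℤ, (p = 1 ∨ p = -1) → 8 ∣ X - N + 2 - 2 * p →
          0 ≤ (X ^ 2 - N + D) ^ 2 - α * (X ^ 2 - N + D) + γ
            + p * (δ * (X ^ 2 - N + D) + δ' + κ * X) + lam * X) →
        (D - 2 * u) ^ 2 - α * (D - 2 * u) + γ + (δ * (D - 2 * u) + δ' + κ * N) + lam * N ≤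
          D ^ 2 * q - 4 * D * q + 4 * q * u - α * (D * q - 2 * q) + γ * q
            + (δ * D + δ') * β - 2 * δ * μ + κ * ν + lam * q * z := by
  obtain ⟨F, hF, hF0, h8⟩ := exists_quad S
  simp only [hσ, e_zero_right] at h8
  have hf : qf F 0 0 = fun ξ => sg (F ξ) := by funext ξ; simp [qf]
  have hψ0 : sg (F 0) = 1 := by rw [hF0, sg_zero]
  obtain ⟨A, a, h1, h2, h3, hA⟩ := spec (qf F 0 0) 0 (by rw [hf]; simp [hψ0]) (qf_auto hF 0 0)
  rw [hf] at h1 h2 h3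
  have hq0 : 0 < q := by rw [hq]; exact_mod_cast Fintype.card_pos
  have h4 : ∑ ξ, sg (F ξ) ^ 2 = q := by
    simp only [sq, sg_mul_self]; simp [hq]
  rw [h4, ← hq] at h3
  have hdvd : (a : ℤ) ∣ q := by
    have : (a : ℤ) ^ 2 ∣ q ^ 2 := ⟨A.card, by linarith⟩
    exact (Int.pow_dvd_pow_iff two_ne_zero).1 this
  have ha0 : (0 : ℤ) < a := by
    rcases Nat.eq_zero_or_pos a with h | h
    · rw [h] at h3; simp at h3; omega
    · exact_mod_cast h
  obtain ⟨ρ', hρ'⟩ := hdvd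
  have hρ0 : 0 < ρ' := by
    by_contra hc
    nlinarith
  obtain ⟨ρ, rfl⟩ := Int.eq_ofNat_of_zero_le hρ0.le
  have hYsum : ∑ ξ, W (sums S)ᶜ ξ = q := by
    rw [sum_W, if_pos (Finset.mem_compl.2 (zero_notMem_sums S)), hq]
  have hβ : ∑ ξ, sg (F ξ) = ft (fun ξ => sg (F ξ)) 0 := by simp [ft, e_zero_right]
  refine ⟨a, ρ, ∑ ξ, sg (F ξ), ∑ ξ, sg (F ξ) * W (sums S)ᶜ ξ, ∑ ξ, sg (F ξ) * W S ξ,
    if (0 : ι → ZMod 2) ∈ S then 1 else 0, hρ'.symm, ?_, ?_, ?_, ?_, ?_, ?_⟩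
  · by_cases h0 : (0 : ι → ZMod 2) ∈ A
    · have h5 := h1 0 h0
      rw [← hβ] at h5
      right
      rcases abs_cases (∑ ξ, sg (F ξ)) with h | h
      · left; linarith [h.1]
      · right
        refine ⟨by linarith [h.1], ?_⟩
        by_contra hc
        have hρ1 : (ρ : ℤ) = 1 := by omega
        have h6 := le_sum_of_nonneg (fun ξ => sg (F ξ) + 1)
          (fun ξ _ => by rcases sg_cases (F ξ) with h | h <;> simp [h])
        simp only [Finset.sum_add_distrib, hψ0, Finset.sum_const, Finset.card_univ,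
          nsmul_eq_mul, mul_one] at h6
        rw [hρ1] at hρ'
        linarith [h.1]
    · left; rw [hβ]; exact h2 0 h0
  · rw [sum_mul_W]
    refine (abs_sum_ft_le h1 h2 _).trans ?_
    rw [hu]
    gcongr
    exact Finset.inter_subset_left
  · rw [sum_mul_W]
    refine (mu_bound h1 h2 hψ0 _).trans ?_
    rw [← hq]
    have : (a : ℤ) * (a * A.card) = a * (q * ρ) := by
      calc (a : ℤ) * (a * A.card) = q * q := by linarith
        _ = q * (a * ρ) := by rw [← hρ']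
        _ = _ := by ring
    have := mul_left_cancel₀ ha0.ne' this
    linarith
  · have := nu_bound h1 h2 hA hS
    rw [h3] at this
    linarith
  · split_ifs <;> simp
  · intro D α γ δ δ' κ lam hpt
    have h5 := le_sum_of_nonneg (fun ξ => (D - 2 * W (sums S)ᶜ ξ) ^ 2 - α * (D - 2 * W (sums S)ᶜ ξ)
      + γ + sg (F ξ) * (δ * (D - 2 * W (sums S)ᶜ ξ) + δ' + κ * W S ξ) + lam * W S ξ) (by
        intro ξ hξ
        have h6 := hpt (W S ξ) (sg (F ξ)) (sg_cases _) (by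
          have := h8 ξ
          rw [hN]; omega)
        rw [W_sq hS hξ, ← hN] at h6
        rw [show D - 2 * W (sums S)ᶜ ξ = N - 2 * W (sums S)ᶜ ξ - N + D by ring]
        exact h6)
    have h6 : ∀ ξ, (D - 2 * W (sums S)ᶜ ξ) ^ 2 - α * (D - 2 * W (sums S)ᶜ ξ)
      + γ + sg (F ξ) * (δ * (D - 2 * W (sums S)ᶜ ξ) + δ' + κ * W S ξ) + lam * W S ξ =
        (D ^ 2 - α * D + γ) + (2 * α - 4 * D) * W (sums S)ᶜ ξ + 4 * W (sums S)ᶜ ξ ^ 2
        + (δ * D + δ') * sg (F ξ) - 2 * δ * (sg (F ξ) * W (sums S)ᶜ ξ)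
        + κ * (sg (F ξ) * W S ξ) + lam * W S ξ := fun ξ => by ring
    simp only [hψ0, W_zero, ← hu, ← hN, one_mul] at h5
    simp only [h6, Finset.sum_add_distrib, Finset.sum_sub_distrib, ← Finset.mul_sum, hYsum,
      sum_W_sq, sum_W S, Finset.sum_const, Finset.card_univ, nsmul_eq_mul, ← hq, ← hu] at h5
    refine h5.trans (le_of_eq ?_)
    split_ifs <;> ring

end Pool.Agent.MP_08f939_co

end

-- part MP_08f939_co.Half
section

namespace Pool.Agent.MP_08f939_co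

open Finset

variable {ι : Type} [Fintype ι] [DecidableEq ι]

theorem half_data {S : Finset (ι → ZMod 2)} (hS : Sid S) (hσ : ∑ x ∈ S, x ≠ 0) (l : ZMod 2)
    {q N u : ℤ} (hq : q = Fintype.card (ι → ZMod 2)) (hN : N = S.card)
    (hu : u = (sums S)ᶜ.card) :
    ∃ ν y : ℤ, 7 * ν ^ 2 ≤ 8 * q ^ 2 ∧ (y = 0 ∨ y = 1) ∧
      ∀ D w₀ w₁ α α' γ γ' κ : ℤ, 0 ≤ w₁ →
        (∀ X L p : ℤ, (L = 1 ∨ L = -1) → (p = 1 ∨ p = -1) → 8 ∣ X - N + 3 - L - 2 * p →
          0 ≤ (w₀ - w₁ * L) * (X ^ 2 - N + D) ^ 2 - (α + α' * L) * (X ^ 2 - N + D) + γ + γ' * L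
            + κ * ((if L = sg l then p else 0) * X)) →
        (w₀ - w₁) * (D - 2 * u) ^ 2 - (α + α') * (D - 2 * u) + γ + γ'
            + κ * (if l = 0 then N else 0) ≤
          w₀ * (D ^ 2 * q - 4 * D * q + 4 * q * u) + 4 * w₁ * D * q * y - α * (D * q - 2 * q)
            + 2 * α' * q * y + γ * q + κ * ν := by
  obtain ⟨F, hF, hF0, h8⟩ := exists_quad S
  set σ := ∑ x ∈ S, x with hσd
  have hq0 : 0 < q := by rw [hq]; exact_mod_cast Fintype.card_pos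
  have hL : ∑ ξ, e ξ σ = 0 := by rw [orth, if_neg hσ]
  have hf : ∀ ξ, qf F σ l ξ = if e ξ σ = sg l then sg (F ξ) else 0 := by
    intro ξ
    unfold qf e
    generalize ξ ⬝ᵥ σ = a
    generalize sg (F ξ) = b
    rcases zmod_cases a with rfl | rfl <;> rcases zmod_cases l with rfl | rfl <;>
      simp [sg_zero, sg_one]
  have h4 : 2 * ∑ ξ, qf F σ l ξ ^ 2 = q := by
    have : ∀ ξ, 2 * qf F σ l ξ ^ 2 = 1 + sg l * e ξ σ := by
      intro ξ
      rw [hf]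
      rcases e_cases ξ σ with h | h <;> rcases sg_cases l with h' | h' <;>
        rcases sg_cases (F ξ) with h'' | h'' <;> simp [h, h', h'']
    rw [Finset.mul_sum]
    simp only [this, Finset.sum_add_distrib, ← Finset.mul_sum, hL]
    simp [hq]
  obtain ⟨ξ₀, hξ₀⟩ : ∃ ξ₀, qf F σ l ξ₀ ≠ 0 := by
    by_contra hc
    push Not at hc
    simp [hc] at h4
    omega
  obtain ⟨A, a, h1, h2, h3, hA⟩ := spec (qf F σ l) ξ₀ hξ₀ (qf_auto hF σ l)
  have hYsum : ∑ ξ, W (sums S)ᶜ ξ = q := by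
    rw [sum_W, if_pos (Finset.mem_compl.2 (zero_notMem_sums S)), hq]
  have hLY : ∑ ξ, e ξ σ * W (sums S)ᶜ ξ = q * if σ ∈ (sums S)ᶜ then 1 else 0 := by
    have := ft_W (sums S)ᶜ σ
    simp only [ft, mul_comm (W _ _)] at this
    rw [this, hq]
    split_ifs <;> simp
  have hR := sum_e_W_sq_nonneg (sums S)ᶜ σ
  refine ⟨∑ ξ, qf F σ l ξ * W S ξ, if σ ∈ (sums S)ᶜ then 1 else 0, ?_, ?_, ?_⟩
  · have := nu_bound h1 h2 hA hS
    rw [h3, ← hq] at this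
    nlinarith
  · split_ifs <;> simp
  · intro D w₀ w₁ α α' γ γ' κ hw hpt
    have h5 := le_sum_of_nonneg (fun ξ => (w₀ - w₁ * e ξ σ) * (D - 2 * W (sums S)ᶜ ξ) ^ 2
      - (α + α' * e ξ σ) * (D - 2 * W (sums S)ᶜ ξ)
      + γ + γ' * e ξ σ + κ * (qf F σ l ξ * W S ξ)) (by
        intro ξ hξ
        have h6 := hpt (W S ξ) (e ξ σ) (sg (F ξ)) (e_cases _ _) (sg_cases _) (by
          have := h8 ξ
          rw [hN]; exact this)
        rw [W_sq hS hξ, ← hN, ← hf] at h6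
        rw [show D - 2 * W (sums S)ᶜ ξ = N - 2 * W (sums S)ᶜ ξ - N + D by ring]
        exact h6)
    have h6 : ∀ ξ, (w₀ - w₁ * e ξ σ) * (D - 2 * W (sums S)ᶜ ξ) ^ 2
      - (α + α' * e ξ σ) * (D - 2 * W (sums S)ᶜ ξ)
      + γ + γ' * e ξ σ + κ * (qf F σ l ξ * W S ξ) =
        (w₀ * D ^ 2 - α * D + γ) + (2 * α - 4 * w₀ * D) * W (sums S)ᶜ ξ
        + 4 * w₀ * W (sums S)ᶜ ξ ^ 2 + (γ' - α' * D - w₁ * D ^ 2) * e ξ σ
        + (2 * α' + 4 * w₁ * D) * (e ξ σ * W (sums S)ᶜ ξ)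
        - 4 * w₁ * (e ξ σ * W (sums S)ᶜ ξ ^ 2) + κ * (qf F σ l ξ * W S ξ) := fun ξ => by ring
    have h7 : qf F σ l 0 * N = if l = 0 then N else 0 := by
      unfold qf
      rw [zero_dotProduct, hF0, sg_zero]
      rcases zmod_cases l with rfl | rfl <;> simp
    simp only [W_zero, ← hu, ← hN, e_zero_left, mul_one, h7] at h5
    simp only [h6, Finset.sum_add_distrib, Finset.sum_sub_distrib, ← Finset.mul_sum, hYsum,
      sum_W_sq, hL, hLY, Finset.sum_const, Finset.card_univ, nsmul_eq_mul, ← hq, ← hu] at h5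
    have h9 := mul_nonneg hw hR
    linarith

omit [Fintype ι] [DecidableEq ι] in
theorem Sid.translate {S : Finset (ι → ZMod 2)} (h : Sid S) (c : ι → ZMod 2) :
    Sid (S.map (addRightEmbedding c)) := by
  intro x hx y hy z hz t ht h1 h2 h3 h4 h5 h6
  simp only [Finset.mem_map, addRightEmbedding_apply] at hx hy hz ht
  obtain ⟨x, hx, rfl⟩ := hx
  obtain ⟨y, hy, rfl⟩ := hy
  obtain ⟨z, hz, rfl⟩ := hz
  obtain ⟨t, ht, rfl⟩ := ht
  have := h x hx y hy z hz t ht (by simpa using h1) (by simpa using h2) (by simpa using h3)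
    (by simpa using h4) (by simpa using h5) (by simpa using h6)
  rw [show x + c + (y + c) + (z + c) + (t + c) = x + y + z + t + (c + c) + (c + c) by abel,
    add_self, add_zero, add_zero]
  exact this

omit [Fintype ι] [DecidableEq ι] in
theorem exists_sum_zero {S : Finset (ι → ZMod 2)} (h : Sid S) (hodd : S.card % 2 = 1) :
    ∃ S' : Finset (ι → ZMod 2), Sid S' ∧ S'.card = S.card ∧ ∑ x ∈ S', x = 0 := by
  refine ⟨S.map (addRightEmbedding (∑ x ∈ S, x)), h.translate _, Finset.card_map _, ?_⟩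
  rw [Finset.sum_map]
  simp only [addRightEmbedding_apply, Finset.sum_add_distrib, Finset.sum_const]
  obtain ⟨m, hm⟩ : ∃ m, S.card = 2 * m + 1 := ⟨S.card / 2, by omega⟩
  rw [hm, add_nsmul, one_nsmul, mul_nsmul, two_nsmul, add_self, nsmul_zero, zero_add, add_self]

theorem two_mul_u {S : Finset (ι → ZMod 2)} (hS : Sid S) :
    2 * (((sums S)ᶜ.card : ℕ) : ℤ) =
      2 * (Fintype.card (ι → ZMod 2) : ℤ) - (S.card : ℤ) ^ 2 + S.card := by
  have h1 := two_mul_card_sums hS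
  have h2 : ((sums S).card : ℤ) + (sums S)ᶜ.card = Fintype.card (ι → ZMod 2) := by
    exact_mod_cast Finset.card_add_card_compl (sums S)
  linarith

end Pool.Agent.MP_08f939_co

end

-- part MP_08f939_co.Poly
section

namespace Pool.Agent.MP_08f939_co

theorem nn1 (j : ℤ) : 0 ≤ j * (j + 1) := by
  rcases le_or_gt 0 j with h | h <;> nlinarith

theorem nn2 (j : ℤ) : 0 ≤ j * (2 * j - 1) := by
  rcases le_or_gt 1 j with h | h <;> nlinarith

theorem ptO {k X p : ℤ} (hk : k % 4 = 2) (hp : p = 1 ∨ p = -1) (h : 8 ∣ X - k - 1 - 2 * p) :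
    0 ≤ (X ^ 2 - k ^ 2) ^ 2 - 22 * (X ^ 2 - k ^ 2) + (45 - 36 * k ^ 2)
      + 4 * p * k * (X ^ 2 - k ^ 2 + 9) - 24 * p * k * X + 24 * X := by
  obtain ⟨m, rfl⟩ : ∃ m, k = 4 * m + 2 := ⟨k / 4, by omega⟩
  obtain ⟨j, hj⟩ := h
  rcases hp with rfl | rfl
  · obtain rfl : X = 4 * m + 5 + 8 * j := by omega
    have := mul_nonneg (nn1 j) (nn2 (m + j + 1))
    nlinarith
  · obtain rfl : X = 4 * m + 1 + 8 * j := by omega
    have := mul_nonneg (nn2 j) (nn1 (m + j))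
    nlinarith

theorem ptA {k X p : ℤ} (hk : k % 4 = 2) (hp : p = 1 ∨ p = -1) (h : 8 ∣ X - k - 2 * p) :
    0 ≤ (X ^ 2 - k ^ 2) ^ 2 - 40 * (X ^ 2 - k ^ 2) + (144 - 48 * k ^ 2)
      + 8 * p * k * (X ^ 2 - k ^ 2 + 12) := by
  obtain ⟨m, rfl⟩ : ∃ m, k = 4 * m + 2 := ⟨k / 4, by omega⟩
  obtain ⟨j, hj⟩ := h
  rcases hp with rfl | rfl
  · obtain rfl : X = 4 * m + 4 + 8 * j := by omega
    have := mul_nonneg (nn1 j) (nn1 (m + j))
    nlinarith
  · obtain rfl : X = 4 * m + 8 * j := by omega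
    have := mul_nonneg (nn1 (j - 1)) (nn1 (m + j))
    nlinarith

theorem ptB {k X : ℤ} (hk : k % 4 = 2) (h : 8 ∣ X - k) :
    0 ≤ (X ^ 2 - k ^ 2) ^ 2 - 16 * (X ^ 2 - k ^ 2) - 32 * k ^ 2 + 32 * k * X := by
  obtain ⟨m, rfl⟩ : ∃ m, k = 4 * m + 2 := ⟨k / 4, by omega⟩
  obtain ⟨j, hj⟩ := h
  obtain rfl : X = 4 * m + 2 + 8 * j := by omega
  have := mul_nonneg (sq_nonneg j) (nn1 (m + j))
  nlinarith

theorem ptB' {k X p : ℤ} (hk : k % 4 = 2) (hp : p = 1 ∨ p = -1) (h : 8 ∣ X - k + 2 - 2 * p) :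
    0 ≤ (X ^ 2 - k ^ 2) ^ 2 - 16 * (X ^ 2 - k ^ 2) - 32 * k ^ 2 + 32 * k * p * X := by
  rcases hp with rfl | rfl
  · have := ptB (X := X) hk (by omega); linarith
  · have := ptB (X := -X) hk (by omega); nlinarith

theorem ptC {k X : ℤ} (hk : k % 4 = 2) (h : 4 ∣ X) :
    0 ≤ (X ^ 2 - k ^ 2) ^ 2 - 8 * (X ^ 2 - k ^ 2) + (16 - 16 * k ^ 2) := by
  obtain ⟨m, rfl⟩ : ∃ m, k = 4 * m + 2 := ⟨k / 4, by omega⟩
  obtain ⟨j, rfl⟩ := h
  have := mul_nonneg (nn1 (j - m - 1)) (nn1 (m + j))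
  nlinarith

/-- The necessary condition obtained when the elements sum to zero. -/
def WD (q N u D α γ δ δ' κ lam : ℤ) : Prop :=
  ∃ (a ρ : ℕ) (β μ ν z : ℤ), a * ρ = q ∧ (β = 0 ∨ β = a ∨ (β = -a ∧ 1 < ρ)) ∧
    |μ| ≤ a * u ∧ 2 * |μ| ≤ q * ρ + q ∧ 7 * ν ^ 2 ≤ 16 * q ^ 2 ∧ (z = 0 ∨ z = 1) ∧
    (D - 2 * u) ^ 2 - α * (D - 2 * u) + γ + (δ * (D - 2 * u) + δ' + κ * N) + lam * N ≤
      D ^ 2 * q - 4 * D * q + 4 * q * u - α * (D * q - 2 * q) + γ * q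
        + (δ * D + δ') * β - 2 * δ * μ + κ * ν + lam * q * z

/-- The necessary condition obtained when the elements do not sum to zero. -/
def HD (q u D w₀ w₁ α α' γ γ' κ M : ℤ) : Prop :=
  ∃ ν y : ℤ, 7 * ν ^ 2 ≤ 8 * q ^ 2 ∧ (y = 0 ∨ y = 1) ∧
    (w₀ - w₁) * (D - 2 * u) ^ 2 - (α + α') * (D - 2 * u) + γ + γ' + κ * M ≤
      w₀ * (D ^ 2 * q - 4 * D * q + 4 * q * u) + 4 * w₁ * D * q * y - α * (D * q - 2 * q)
        + 2 * α' * q * y + γ * q + κ * ν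

variable {ι : Type} [Fintype ι] [DecidableEq ι] {S : Finset (ι → ZMod 2)} {q N u k : ℤ}

theorem necO (hS : Sid S) (hq : q = Fintype.card (ι → ZMod 2)) (hN : N = S.card)
    (hu : 2 * u = 2 * q - N ^ 2 + N) (hk : k % 4 = 2) {s c : ℤ} (hs : s = 1 ∨ s = -1)
    (hc : c = 1 ∨ c = -1) (h8 : 8 ∣ s * N - k - 1 - 2 * c) :
    WD q N u (N - k ^ 2) 22 (45 - 36 * k ^ 2) (4 * c * k) (36 * c * k) (-24 * c * k * s)
      (24 * s) := by
  obtain ⟨S', hS', hcard, hσ⟩ := exists_sum_zero hS (by rcases hs with rfl | rfl <;> omega)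
  have h2 := two_mul_u hS'
  rw [hcard, ← hq, ← hN] at h2
  obtain ⟨a, ρ, β, μ, ν, z, h1, h3, h4, h5, h6, h7, H⟩ :=
    whole_data hS' hσ hq (N := N) (by rw [hcard, hN]) (u := u) (by omega)
  refine ⟨a, ρ, β, μ, ν, z, h1, h3, h4, h5, h6, h7, H _ _ _ _ _ _ _ ?_⟩
  intro X p hp hX
  have := ptO (X := s * X) (p := c * p) hk
    (by rcases hc with rfl | rfl <;> rcases hp with rfl | rfl <;> simp)
    (by rcases hc with rfl | rfl <;> rcases hp with rfl | rfl <;> rcases hs with rfl | rfl <;>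
      omega)
  rcases hs with rfl | rfl <;> nlinarith

theorem necA (hS : Sid S) (hq : q = Fintype.card (ι → ZMod 2)) (hN : N = S.card)
    (hu : 2 * u = 2 * q - N ^ 2 + N) (hk : k % 4 = 2) {c : ℤ} (hc : c = 1 ∨ c = -1)
    (h8 : 8 ∣ N - k - 2 * c) :
    WD q N u (N - k ^ 2) 40 (144 - 48 * k ^ 2) (8 * c * k) (96 * c * k) 0 0 ∨
    HD q u (N - k ^ 2) 1 1 16 (-16) (-32 * k ^ 2) (32 * k ^ 2) (64 * k * c) 0 := by
  have h2 := two_mul_u hS
  rw [← hq, ← hN] at h2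
  by_cases hσ : ∑ x ∈ S, x = 0
  · left
    obtain ⟨a, ρ, β, μ, ν, z, h1, h3, h4, h5, h6, h7, H⟩ :=
      whole_data hS hσ hq hN (u := u) (by omega)
    refine ⟨a, ρ, β, μ, ν, z, h1, h3, h4, h5, h6, h7, H _ _ _ _ _ _ _ ?_⟩
    intro X p hp hX
    have := ptA (X := X) (p := c * p) hk
      (by rcases hc with rfl | rfl <;> rcases hp with rfl | rfl <;> simp)
      (by rcases hc with rfl | rfl <;> rcases hp with rfl | rfl <;> omega)
    nlinarith
  · right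
    obtain ⟨ν, y, h1, h3, H⟩ := half_data hS hσ 1 hq hN (u := u) (by omega)
    have H' := H (N - k ^ 2) 1 1 16 (-16) (-32 * k ^ 2) (32 * k ^ 2) (64 * k * c) zero_le_one (by
      intro X L p hL hp hX
      rcases hL with rfl | rfl
      · simp [sg_one]
      · have := ptB' (X := X) (p := c * p) hk
          (by rcases hc with rfl | rfl <;> rcases hp with rfl | rfl <;> simp)
          (by rcases hc with rfl | rfl <;> rcases hp with rfl | rfl <;> omega)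
        rw [sg_one, if_pos rfl]
        nlinarith)
    rw [if_neg (by decide)] at H'
    exact ⟨ν, y, h1, h3, H'⟩

theorem necB (hS : Sid S) (hq : q = Fintype.card (ι → ZMod 2)) (hN : N = S.card)
    (hu : 2 * u = 2 * q - N ^ 2 + N) (hk : k % 4 = 2) {c : ℤ} (hc : c = 1 ∨ c = -1)
    (h8 : 8 ∣ N - k + 2 - 2 * c) :
    WD q N u (N - k ^ 2) 16 (-32 * k ^ 2) 0 0 (32 * k * c) 0 ∨
    HD q u (N - k ^ 2) 2 0 24 8 (16 - 48 * k ^ 2) (-16 - 16 * k ^ 2) (64 * k * c) N := by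
  have h2 := two_mul_u hS
  rw [← hq, ← hN] at h2
  by_cases hσ : ∑ x ∈ S, x = 0
  · left
    obtain ⟨a, ρ, β, μ, ν, z, h1, h3, h4, h5, h6, h7, H⟩ :=
      whole_data hS hσ hq hN (u := u) (by omega)
    refine ⟨a, ρ, β, μ, ν, z, h1, h3, h4, h5, h6, h7, H _ _ _ _ _ _ _ ?_⟩
    intro X p hp hX
    have := ptB' (X := X) (p := c * p) hk
      (by rcases hc with rfl | rfl <;> rcases hp with rfl | rfl <;> simp)
      (by rcases hc with rfl | rfl <;> rcases hp with rfl | rfl <;> omega)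
    nlinarith
  · right
    obtain ⟨ν, y, h1, h3, H⟩ := half_data hS hσ 0 hq hN (u := u) (by omega)
    have H' := H (N - k ^ 2) 2 0 24 8 (16 - 48 * k ^ 2) (-16 - 16 * k ^ 2) (64 * k * c) le_rfl (by
      intro X L p hL hp hX
      rcases hL with rfl | rfl
      · have := ptB' (X := X) (p := c * p) hk
          (by rcases hc with rfl | rfl <;> rcases hp with rfl | rfl <;> simp)
          (by rcases hc with rfl | rfl <;> rcases hp with rfl | rfl <;> omega)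
        rw [sg_zero, if_pos rfl]
        nlinarith
      · have := ptC (X := X) hk
          (by rcases hc with rfl | rfl <;> rcases hp with rfl | rfl <;> omega)
        rw [sg_zero, if_neg (by decide)]
        nlinarith)
    rw [if_pos rfl] at H'
    exact ⟨ν, y, h1, h3, H'⟩

end Pool.Agent.MP_08f939_co

end

-- part MP_08f939_co.Asym
section

namespace Pool.Agent.MP_08f939_co

theorem nu1 {q ν : ℤ} (hq : 0 ≤ q) (h : 7 * ν ^ 2 ≤ 16 * q ^ 2) : 25 * |ν| ≤ 38 * q := by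
  by_contra hc
  have h1 : 38 * q < 25 * |ν| := not_le.1 hc
  have h2 := sq_abs ν
  nlinarith [abs_nonneg ν]

theorem nu2 {q ν : ℤ} (hq : 0 ≤ q) (h : 7 * ν ^ 2 ≤ 8 * q ^ 2) : 100 * |ν| ≤ 107 * q := by
  by_contra hc
  have h1 : 107 * q < 100 * |ν| := not_le.1 hc
  have h2 := sq_abs ν
  nlinarith [abs_nonneg ν]

theorem mul_le_abs (x y : ℤ) : x * y ≤ |x| * |y| := by
  rw [← abs_mul]; exact le_abs_self _

theorem WD.bound {q N u D α γ δ δ' κ lam M : ℤ} (h : WD q N u D α γ δ δ' κ lam) (hq : 0 < q)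
    (hM : 0 ≤ M) (h1 : |δ * D + δ'| ≤ |δ| * M) (h2 : 2 * u ≤ M * (M + 1)) :
    (D - 2 * u) ^ 2 - α * (D - 2 * u) + γ + (δ * (D - 2 * u) + δ' + κ * N) + lam * N ≤
      q * (D ^ 2 - 4 * D + 4 * u - α * (D - 2) + γ + |δ| * (M + 2) + 2 * |κ| + |lam|) := by
  obtain ⟨a, ρ, β, μ, ν, z, ha, hβ, hμ1, hμ2, hν, hz, H⟩ := h
  have ha0 : (0 : ℤ) ≤ a := by positivity
  have hρ1 : (1 : ℤ) ≤ ρ := by
    rcases Nat.eq_zero_or_pos ρ with h | h
    · rw [h] at ha; simp at ha; omega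
    · exact_mod_cast h
  have hβa : |β| ≤ a := by
    rcases hβ with h | h | ⟨h, -⟩ <;> rw [h] <;> simp
  have key : M * a + 2 * |μ| ≤ (M + 2) * q := by
    rcases le_or_gt (ρ : ℤ) M with h | h
    · have := mul_nonneg ha0 (mul_nonneg (sub_nonneg.2 hρ1) (sub_nonneg.2 h))
      rw [← ha] at hμ2 ⊢
      nlinarith
    · have h3 := mul_le_mul_of_nonneg_left h2 ha0
      have h4 : a * M * (M + 2) ≤ a * ρ * (M + 2) := by gcongr
      rw [← ha]
      nlinarith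
  have e1 : (δ * D + δ') * β ≤ |δ| * M * a :=
    (mul_le_abs _ _).trans (mul_le_mul h1 hβa (abs_nonneg _) (by positivity))
  have e2 : - δ * μ ≤ |δ| * |μ| := by
    have := mul_le_abs (-δ) μ
    rwa [abs_neg] at this
  have e3 : |δ| * (M * a + 2 * |μ|) ≤ |δ| * ((M + 2) * q) :=
    mul_le_mul_of_nonneg_left key (abs_nonneg _)
  have e4 : κ * ν ≤ |κ| * (2 * q) := by
    have := nu1 hq.le hν
    exact (mul_le_abs _ _).trans (mul_le_mul_of_nonneg_left (by omega) (abs_nonneg _))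
  have e5 : lam * q * z ≤ |lam| * q := by
    have := mul_le_mul_of_nonneg_right (le_abs_self lam) hq.le
    have := mul_nonneg (abs_nonneg lam) hq.le
    rcases hz with rfl | rfl <;> linarith
  linarith

theorem HD.bound {q u D w₀ w₁ α α' γ γ' κ M : ℤ} (h : HD q u D w₀ w₁ α α' γ γ' κ M)
    (hq : 0 < q) :
    (w₀ - w₁) * (D - 2 * u) ^ 2 - (α + α') * (D - 2 * u) + γ + γ' + κ * M ≤
      q * (w₀ * (D ^ 2 - 4 * D + 4 * u) - α * (D - 2) + γ + |4 * w₁ * D + 2 * α'|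
        + 2 * |κ|) := by
  obtain ⟨ν, y, hν, hy, H⟩ := h
  have e4 : κ * ν ≤ |κ| * (2 * q) := by
    have := nu2 hq.le hν
    exact (mul_le_abs _ _).trans (mul_le_mul_of_nonneg_left (by omega) (abs_nonneg _))
  have e5 : (4 * w₁ * D + 2 * α') * q * y ≤ |4 * w₁ * D + 2 * α'| * q := by
    have := mul_le_mul_of_nonneg_right (le_abs_self (4 * w₁ * D + 2 * α')) hq.le
    have := mul_nonneg (abs_nonneg (4 * w₁ * D + 2 * α')) hq.le
    rcases hy with rfl | rfl <;> linarith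
  linarith

theorem final_contra {q G E : ℤ} (hq : 0 < q) (h : G ≤ q * E) (hE : E ≤ -2) (hG : -q ≤ G) :
    False := by
  nlinarith

variable {ι : Type} [Fintype ι] [DecidableEq ι] {S : Finset (ι → ZMod 2)} {q N u k : ℤ}

theorem asym (hS : Sid S) (hq : q = Fintype.card (ι → ZMod 2)) (hN : N = S.card)
    (hu : 2 * u = 2 * q - N ^ 2 + N) (hk : k % 4 = 2) (hk0 : 1000 ≤ k) (hqk : 200 * k ^ 3 ≤ q)
    (hD : |N - k ^ 2| ≤ 3 * k + 4) (hu1 : 2 * u ≤ (3 * k + 16) ^ 2)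
    (hu2 : (N - k ^ 2) ^ 2 + 4 * u ≤ 23 * k ^ 2 + 100 * k) : False := by
  have hk2 : 1000 * k ≤ k ^ 2 := by nlinarith
  have hk3 : 1000 * k ^ 2 ≤ k ^ 3 := by nlinarith
  have hq0 : 0 < q := by nlinarith
  obtain ⟨hD1, hD2⟩ := abs_le.1 hD
  have hN0 : 0 ≤ N := by rw [hN]; positivity
  have hN1 : k * N ≤ 2 * k ^ 3 := by nlinarith
  have hN2 : 0 ≤ k * N := mul_nonneg (by omega) hN0
  have hM : 2 * u ≤ (3 * k + 16) * (3 * k + 16 + 1) := by nlinarith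
  have hka : |k| = k := abs_of_nonneg (by omega)
  set D := N - k ^ 2 with hDd
  have h4 : N % 4 = 0 ∨ N % 4 = 2 ∨ N % 2 = 1 := by omega
  rcases h4 with h4 | h4 | h4
  · obtain ⟨c, hc, h8⟩ : ∃ c : ℤ, (c = 1 ∨ c = -1) ∧ 8 ∣ N - k - 2 * c := by
      rcases (show (N - k) % 8 = 2 ∨ (N - k) % 8 = 6 by omega) with h | h
      · exact ⟨1, Or.inl rfl, by omega⟩
      · exact ⟨-1, Or.inr rfl, by omega⟩
    have hca : |c| = 1 := by rcases hc with rfl | rfl <;> simp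
    rcases necA hS hq hN hu hk hc h8 with H | H
    · have h1 : |8 * c * k| = 8 * k := by simp [abs_mul, hca, hka]
      have := H.bound (M := 3 * k + 16) hq0 (by omega) (by
        rw [show 8 * c * k * D + 96 * c * k = 8 * c * k * (D + 12) by ring, abs_mul]
        exact mul_le_mul_of_nonneg_left (abs_le.2 ⟨by omega, by omega⟩) (abs_nonneg _)) hM
      rw [h1] at this
      refine final_contra hq0 this (by simp only [abs_zero]; linarith) ?_
      rcases hc with rfl | rfl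
      · linarith [sq_nonneg (D - 2 * u - 20 + 4 * k)]
      · linarith [sq_nonneg (D - 2 * u - 20 - 4 * k)]
    · have h1 : |64 * k * c| = 64 * k := by simp [abs_mul, hca, hka]
      have := H.bound hq0
      rw [h1] at this
      have h2 : |4 * 1 * D + 2 * (-16)| ≤ 12 * k + 48 := abs_le.2 ⟨by omega, by omega⟩
      exact final_contra hq0 this (by linarith) (by linarith)
  · obtain ⟨c, hc, h8⟩ : ∃ c : ℤ, (c = 1 ∨ c = -1) ∧ 8 ∣ N - k + 2 - 2 * c := by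
      rcases (show (N - k) % 8 = 0 ∨ (N - k) % 8 = 4 by omega) with h | h
      · exact ⟨1, Or.inl rfl, by omega⟩
      · exact ⟨-1, Or.inr rfl, by omega⟩
    have hca : |c| = 1 := by rcases hc with rfl | rfl <;> simp
    rcases necB hS hq hN hu hk hc h8 with H | H
    · have h1 : |32 * k * c| = 32 * k := by simp [abs_mul, hca, hka]
      have := H.bound (M := 3 * k + 16) hq0 (by omega) (by simp) hM
      rw [h1] at this
      refine final_contra hq0 this (by simp only [abs_zero]; linarith) ?_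
      rcases hc with rfl | rfl <;> linarith [sq_nonneg (D - 2 * u - 8)]
    · have h1 : |64 * k * c| = 64 * k := by simp [abs_mul, hca, hka]
      have := H.bound hq0
      rw [h1] at this
      refine final_contra hq0 this (by norm_num; linarith) ?_
      rcases hc with rfl | rfl <;> linarith [sq_nonneg (D - 2 * u - 8)]
  · obtain ⟨s, c, hs, hc, h8⟩ : ∃ s c : ℤ, (s = 1 ∨ s = -1) ∧ (c = 1 ∨ c = -1) ∧
        8 ∣ s * N - k - 1 - 2 * c := by
      rcases (show (N - k) % 8 = 3 ∨ (N - k) % 8 = 7 ∨ (-N - k) % 8 = 3 ∨ (-N - k) % 8 = 7 by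
        omega) with h | h | h | h
      · exact ⟨1, 1, Or.inl rfl, Or.inl rfl, by omega⟩
      · exact ⟨1, -1, Or.inl rfl, Or.inr rfl, by omega⟩
      · exact ⟨-1, 1, Or.inr rfl, Or.inl rfl, by omega⟩
      · exact ⟨-1, -1, Or.inr rfl, Or.inr rfl, by omega⟩
    have hca : |c| = 1 := by rcases hc with rfl | rfl <;> simp
    have hsa : |s| = 1 := by rcases hs with rfl | rfl <;> simp
    have H := necO hS hq hN hu hk hs hc h8
    have h1 : |4 * c * k| = 4 * k := by simp [abs_mul, hca, hka]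
    have h2 : |-24 * c * k * s| = 24 * k := by simp [abs_mul, hca, hka, hsa]
    have h3 : |24 * s| = 24 := by simp [abs_mul, hsa]
    have := H.bound (M := 3 * k + 16) hq0 (by omega) (by
      rw [show 4 * c * k * D + 36 * c * k = 4 * c * k * (D + 9) by ring, abs_mul]
      exact mul_le_mul_of_nonneg_left (abs_le.2 ⟨by omega, by omega⟩) (abs_nonneg _)) hM
    rw [h1, h2, h3] at this
    refine final_contra hq0 this (by linarith) ?_
    rcases hc with rfl | rfl <;> rcases hs with rfl | rfl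
    · linarith [sq_nonneg (D - 2 * u - 11 + 2 * k)]
    · linarith [sq_nonneg (D - 2 * u - 11 + 2 * k)]
    · linarith [sq_nonneg (D - 2 * u - 11 - 2 * k)]
    · linarith [sq_nonneg (D - 2 * u - 11 - 2 * k)]

end Pool.Agent.MP_08f939_co

end

-- part MP_08f939_co.Table
section

namespace Pool.Agent.MP_08f939_co

/-- A finite check refuting `WD`. -/
def chkW (t : ℕ) (N u D α γ δ δ' κ lam : ℤ) : Prop :=
  ∀ h ∈ List.range (t + 1), ∀ b ∈ [(0 : ℤ), 1, -1], (b = -1 ∧ h = 0) ∨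
    25 * (D ^ 2 * 2 ^ t - 4 * D * 2 ^ t + 4 * 2 ^ t * u - α * (D * 2 ^ t - 2 * 2 ^ t) + γ * 2 ^ t
        + (δ * D + δ') * (b * 2 ^ (t - h))
        + |δ| * min (2 * (2 ^ (t - h) * u)) (2 ^ t * 2 ^ h + 2 ^ t) + max (lam * 2 ^ t) 0)
        + |κ| * (38 * 2 ^ t) <
      25 * ((D - 2 * u) ^ 2 - α * (D - 2 * u) + γ + (δ * (D - 2 * u) + δ' + κ * N) + lam * N)

instance (t : ℕ) (N u D α γ δ δ' κ lam : ℤ) : Decidable (chkW t N u D α γ δ δ' κ lam) := by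
  unfold chkW; infer_instance

theorem chkW.sound {t : ℕ} {N u D α γ δ δ' κ lam : ℤ} (hc : chkW t N u D α γ δ δ' κ lam) :
    ¬ WD (2 ^ t) N u D α γ δ δ' κ lam := by
  rintro ⟨a, ρ, β, μ, ν, z, ha, hβ, hμ1, hμ2, hν, hz, H⟩
  have ha' : a * ρ = 2 ^ t := by exact_mod_cast ha
  obtain ⟨h, hh, rfl⟩ := (Nat.dvd_prime_pow Nat.prime_two).1 (Dvd.intro_left a ha')
  obtain rfl : a = 2 ^ (t - h) := by
    apply Nat.eq_of_mul_eq_mul_right (Nat.two_pow_pos h)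
    rw [ha', ← pow_add, Nat.sub_add_cancel hh]
  push_cast at hβ hμ1 hμ2
  obtain ⟨b, hb, hb', rfl⟩ : ∃ b : ℤ, b ∈ [(0 : ℤ), 1, -1] ∧ ¬ (b = -1 ∧ h = 0) ∧
      β = b * 2 ^ (t - h) := by
    rcases hβ with h1 | h1 | ⟨h1, h2⟩
    · exact ⟨0, by simp, by simp, by simp [h1]⟩
    · exact ⟨1, by simp, by simp, by simp [h1]⟩
    · refine ⟨-1, by simp, ?_, by simp [h1]⟩
      rintro ⟨-, rfl⟩
      simp at h2
  have h1 := (hc h (List.mem_range.2 (by omega)) b hb).resolve_left hb'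
  have hq : (0 : ℤ) ≤ 2 ^ t := by positivity
  have e2 : - δ * μ ≤ |δ| * |μ| := by
    have := mul_le_abs (-δ) μ
    rwa [abs_neg] at this
  have e3 : |δ| * (2 * |μ|) ≤ |δ| * min (2 * (2 ^ (t - h) * u)) (2 ^ t * 2 ^ h + 2 ^ t) :=
    mul_le_mul_of_nonneg_left (le_min (by linarith) hμ2) (abs_nonneg _)
  have e4 : |κ| * (25 * |ν|) ≤ |κ| * (38 * 2 ^ t) :=
    mul_le_mul_of_nonneg_left (nu1 hq hν) (abs_nonneg _)
  have e5 := mul_le_abs κ ν
  have e6 : lam * 2 ^ t * z ≤ max (lam * 2 ^ t) 0 := by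
    rcases hz with rfl | rfl <;> simp
  linarith

/-- A finite check refuting `HD`. -/
def chkH (q u D w₀ w₁ α α' γ γ' κ M : ℤ) : Prop :=
  ∀ y ∈ [(0 : ℤ), 1],
    100 * (w₀ * (D ^ 2 * q - 4 * D * q + 4 * q * u) + 4 * w₁ * D * q * y - α * (D * q - 2 * q)
        + 2 * α' * q * y + γ * q) + |κ| * (107 * q) <
      100 * ((w₀ - w₁) * (D - 2 * u) ^ 2 - (α + α') * (D - 2 * u) + γ + γ' + κ * M)

instance (q u D w₀ w₁ α α' γ γ' κ M : ℤ) : Decidable (chkH q u D w₀ w₁ α α' γ γ' κ M) := by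
  unfold chkH; infer_instance

theorem chkH.sound {q u D w₀ w₁ α α' γ γ' κ M : ℤ} (hq : 0 ≤ q)
    (hc : chkH q u D w₀ w₁ α α' γ γ' κ M) : ¬ HD q u D w₀ w₁ α α' γ γ' κ M := by
  rintro ⟨ν, y, hν, hy, H⟩
  have h1 := hc y (by rcases hy with rfl | rfl <;> simp)
  have e4 : |κ| * (100 * |ν|) ≤ |κ| * (107 * q) :=
    mul_le_mul_of_nonneg_left (nu2 hq hν) (abs_nonneg _)
  have e5 := mul_le_abs κ ν
  linarith

variable {ι : Type} [Fintype ι] [DecidableEq ι]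

omit [Fintype ι] [DecidableEq ι] in
theorem lt_of_no {N : ℕ} (h : ∀ S : Finset (ι → ZMod 2), Sid S → S.card ≠ N)
    {S : Finset (ι → ZMod 2)} (hS : Sid S) : S.card < N := by
  by_contra hc
  obtain ⟨T, hT, hc⟩ := Finset.exists_subset_card_eq (not_lt.1 hc)
  exact h T (hS.mono hT) hc

theorem card_V {t : ℕ} (ht : Fintype.card ι = t) :
    (2 : ℤ) ^ t = Fintype.card (ι → ZMod 2) := by
  rw [Fintype.card_fun, ZMod.card, ht]; push_cast; rfl

theorem rowO (t N : ℕ) (u k s c : ℤ) (ht : Fintype.card ι = t)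
    (h : 2 * u = 2 * 2 ^ t - (N : ℤ) ^ 2 + N ∧ k % 4 = 2 ∧ (s = 1 ∨ s = -1) ∧ (c = 1 ∨ c = -1) ∧
      8 ∣ s * N - k - 1 - 2 * c ∧ chkW t N u (N - k ^ 2) 22 (45 - 36 * k ^ 2) (4 * c * k)
        (36 * c * k) (-24 * c * k * s) (24 * s))
    {S : Finset (ι → ZMod 2)} (hS : Sid S) : S.card < N := by
  obtain ⟨hu, hk, hs, hc, h8, hW⟩ := h
  refine lt_of_no (fun T hT hN => ?_) hS
  exact hW.sound (necO hT (card_V ht) (by rw [hN]) hu hk hs hc h8)

theorem rowA (t N : ℕ) (u k c : ℤ) (ht : Fintype.card ι = t)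
    (h : 2 * u = 2 * 2 ^ t - (N : ℤ) ^ 2 + N ∧ k % 4 = 2 ∧ (c = 1 ∨ c = -1) ∧
      8 ∣ N - k - 2 * c ∧
      chkW t N u (N - k ^ 2) 40 (144 - 48 * k ^ 2) (8 * c * k) (96 * c * k) 0 0 ∧
      chkH (2 ^ t) u (N - k ^ 2) 1 1 16 (-16) (-32 * k ^ 2) (32 * k ^ 2) (64 * k * c) 0)
    {S : Finset (ι → ZMod 2)} (hS : Sid S) : S.card < N := by
  obtain ⟨hu, hk, hc, h8, hW, hH⟩ := h
  refine lt_of_no (fun T hT hN => ?_) hS
  rcases necA hT (card_V ht) (by rw [hN]) hu hk hc h8 with H | H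
  · exact hW.sound H
  · exact hH.sound (by positivity) H

theorem rowB (t N : ℕ) (u k c : ℤ) (ht : Fintype.card ι = t)
    (h : 2 * u = 2 * 2 ^ t - (N : ℤ) ^ 2 + N ∧ k % 4 = 2 ∧ (c = 1 ∨ c = -1) ∧
      8 ∣ N - k + 2 - 2 * c ∧
      chkW t N u (N - k ^ 2) 16 (-32 * k ^ 2) 0 0 (32 * k * c) 0 ∧
      chkH (2 ^ t) u (N - k ^ 2) 2 0 24 8 (16 - 48 * k ^ 2) (-16 - 16 * k ^ 2) (64 * k * c) N)
    {S : Finset (ι → ZMod 2)} (hS : Sid S) : S.card < N := by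
  obtain ⟨hu, hk, hc, h8, hW, hH⟩ := h
  refine lt_of_no (fun T hT hN => ?_) hS
  rcases necB hT (card_V ht) (by rw [hN]) hu hk hc h8 with H | H
  · exact hW.sound H
  · exact hH.sound (by positivity) H

theorem table {S : Finset (ι → ZMod 2)} (hS : Sid S) :
    ∀ p ∈ [(6, 85), (7, 175), (8, 357), (9, 719), (10, 1443), (11, 2890), (12, 5790), (13, 11582),
      (14, 23168), (15, 46336), (16, 92679), (17, 185358), (18, 370723), (19, 741450), (20,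
      1482905)],
      Fintype.card ι = 2 * p.1 → S.card ≤ p.2 := by
  intro p hp ht
  simp only [List.mem_cons, List.not_mem_nil, or_false] at hp
  rcases hp with rfl | rfl | rfl | rfl | rfl | rfl | rfl | rfl | rfl | rfl | rfl | rfl | rfl | rfl | rfl
  · exact Nat.le_of_lt_succ (rowB 12 86 441 10 (-1) ht (by decide +kernel) hS)
  · exact Nat.le_of_lt_succ (rowA 14 176 984 14 1 ht (by decide +kernel) hS)
  · exact Nat.le_of_lt_succ (rowB 16 358 1633 18 (-1) ht (by decide +kernel) hS)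
  · exact Nat.le_of_lt_succ (rowA 18 720 3304 26 (-1) ht (by decide +kernel) hS)
  · exact Nat.le_of_lt_succ (rowA 20 1444 6730 38 (-1) ht (by decide +kernel) hS)
  · exact Nat.le_of_lt_succ (rowO 22 2891 16809 54 (-1) (-1) ht (by decide +kernel) hS)
  · exact Nat.le_of_lt_succ (rowO 24 5791 12271 78 (-1) 1 ht (by decide +kernel) hS)
  · exact Nat.le_of_lt_succ (rowO 26 11583 31711 106 (-1) (-1) ht (by decide +kernel) hS)
  · exact Nat.le_of_lt_succ (rowO 28 23169 45760 154 1 (-1) ht (by decide +kernel) hS)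
  · exact Nat.le_of_lt_succ (rowO 30 46337 206208 214 1 1 ht (by decide +kernel) hS)
  · exact Nat.le_of_lt_succ (rowA 32 92680 222436 306 (-1) ht (by decide +kernel) hS)
  · exact Nat.le_of_lt_succ (rowO 34 185359 982423 430 (-1) 1 ht (by decide +kernel) hS)
  · exact Nat.le_of_lt_succ (rowA 36 370724 1520010 610 1 ht (by decide +kernel) hS)
  · exact Nat.le_of_lt_succ (rowO 38 741451 3484969 862 (-1) (-1) ht (by decide +kernel) hS)
  · exact Nat.le_of_lt_succ (rowB 40 1482906 7266811 1218 1 ht (by decide +kernel) hS)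

end Pool.Agent.MP_08f939_co

end

-- part MP_08f939_co.Main
section

namespace Pool.Agent.MP_08f939_co

variable {ι : Type} [Fintype ι] [DecidableEq ι]

theorem k_large {n : ℕ} {k : ℤ} (hn : 20 ≤ n) (hk : 0 ≤ k) (h : 2 ^ (2 * n + 5) ≤ (2 * k + 3) ^ 4) :
    1000 ≤ k := by
  by_contra hc
  have h1 : (2 * k + 3) ^ 4 ≤ 2003 ^ 4 := pow_le_pow_left₀ (by omega) (by omega) 4
  have h2 : (2 : ℤ) ^ 45 ≤ 2 ^ (2 * n + 5) := pow_le_pow_right₀ (by norm_num) (by omega)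
  norm_num at h1 h2
  omega

theorem le_of_sq_le {a b : ℤ} (hb : 0 ≤ b) (h : a ^ 2 ≤ b ^ 2) : a ≤ b :=
  abs_le_of_sq_le_sq' h hb |>.2

theorem pow_four_ge {k : ℤ} (hk : 1000 ≤ k) : 1000 * k ^ 3 ≤ k ^ 4 := by
  have : 0 ≤ k ^ 3 := by positivity
  nlinarith

theorem tier1_large {n : ℕ} (hn : 20 ≤ n) (ht : Fintype.card ι = 2 * n)
    {S : Finset (ι → ZMod 2)} (hS : Sid S) {k : ℤ} (hk0 : 0 ≤ k) (hk : k % 4 = 2)
    (h1 : (2 * k - 3) ^ 4 ≤ 2 ^ (2 * n + 5)) (h2 : 2 ^ (2 * n + 5) ≤ (2 * k + 3) ^ 4) :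
    ((S.card : ℤ) + 3) ^ 2 < 2 ^ (2 * n + 1) := by
  by_contra hc
  have hc := not_lt.1 hc
  have hk1 := k_large hn hk0 h2
  have hu := two_mul_u hS
  rw [← card_V ht] at hu
  have hu0 : (0 : ℤ) ≤ (((sums S)ᶜ.card : ℕ) : ℤ) := by positivity
  have hq := card_V ht
  rw [pow_add] at h1 h2 hc
  generalize (2 : ℤ) ^ (2 * n) = q at *
  generalize (((sums S)ᶜ.card : ℕ) : ℤ) = u at *
  have hN0 : (0 : ℤ) ≤ S.card := by positivity
  have hN : ((S.card : ℕ) : ℤ) = S.card := rfl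
  generalize hNd : ((S.card : ℕ) : ℤ) = N at hu hc hN0
  have e1 : (2 * k - 3) ^ 2 ≤ 4 * (N + 3) := le_of_sq_le (by omega) (by linarith)
  have hk2 : 1000 * k ≤ k ^ 2 := by nlinarith only [hk1]
  have hN1 : 1 ≤ N := by linarith
  have e2 : 4 * (N - 1) ≤ (2 * k + 3) ^ 2 := le_of_sq_le (by positivity) (by linarith)
  have hD : |N - k ^ 2| ≤ 3 * k + 4 := abs_le.2 ⟨by linarith, by linarith⟩
  have hD2 : (N - k ^ 2) ^ 2 ≤ (3 * k + 4) ^ 2 := by
    rw [← sq_abs]; exact pow_le_pow_left₀ (abs_nonneg _) hD 2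
  have hq3 : 200 * k ^ 3 ≤ q := by
    have h3 : (19 * k) ^ 4 ≤ (10 * (2 * k - 3)) ^ 4 := pow_le_pow_left₀ (by omega) (by omega) 4
    have h4 := pow_four_ge hk1
    have : 0 ≤ k ^ 3 := by positivity
    linarith
  exact asym hS hq hNd.symm hu hk hk1 hq3 hD (by linarith) (by linarith)

theorem tier2_large {n : ℕ} (hn : 20 ≤ n) (ht : Fintype.card ι = 2 * n)
    {S : Finset (ι → ZMod 2)} (hS : Sid S) {k : ℤ} (hk0 : 0 ≤ k) (hk : k % 4 = 2)
    (h1 : (k - 1) ^ 4 ≤ 2 ^ (2 * n + 1)) (h2 : 2 ^ (2 * n + 1) ≤ (k + 1) ^ 4) :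
    ((S.card : ℤ) + 4) ^ 2 < 2 ^ (2 * n + 1) := by
  by_contra hc
  have hc := not_lt.1 hc
  have hk1 : 1000 ≤ k := by
    refine k_large hn hk0 ?_
    have h3 : (2 * (k + 1)) ^ 4 ≤ (2 * k + 3) ^ 4 := pow_le_pow_left₀ (by omega) (by omega) 4
    rw [show 2 * n + 5 = 2 * n + 1 + 4 by ring, pow_add]
    nlinarith
  have hu := two_mul_u hS
  rw [← card_V ht] at hu
  have hu0 : (0 : ℤ) ≤ (((sums S)ᶜ.card : ℕ) : ℤ) := by positivity
  have hq := card_V ht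
  rw [pow_add] at h1 h2 hc
  generalize (2 : ℤ) ^ (2 * n) = q at *
  generalize (((sums S)ᶜ.card : ℕ) : ℤ) = u at *
  have hN0 : (0 : ℤ) ≤ S.card := by positivity
  have hN : ((S.card : ℕ) : ℤ) = S.card := rfl
  generalize hNd : ((S.card : ℕ) : ℤ) = N at hu hc hN0
  have e1 : (k - 1) ^ 2 ≤ N + 4 := le_of_sq_le (by omega) (by linarith)
  have hk2 : 1000 * k ≤ k ^ 2 := by nlinarith only [hk1]
  have hN1 : 1 ≤ N := by linarith
  have e2 : N - 1 ≤ (k + 1) ^ 2 := le_of_sq_le (by positivity) (by linarith)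
  have hD : |N - k ^ 2| ≤ 2 * k + 4 := abs_le.2 ⟨by linarith, by linarith⟩
  have hD2 : (N - k ^ 2) ^ 2 ≤ (2 * k + 4) ^ 2 := by
    rw [← sq_abs]; exact pow_le_pow_left₀ (abs_nonneg _) hD 2
  have hq3 : 200 * k ^ 3 ≤ q := by
    have h3 : (9 * k) ^ 4 ≤ (10 * (k - 1)) ^ 4 := pow_le_pow_left₀ (by omega) (by omega) 4
    have h4 := pow_four_ge hk1
    have : 0 ≤ k ^ 3 := by positivity
    linarith
  exact asym hS hq hNd.symm hu hk hk1 hq3 (hD.trans (by omega)) (by linarith) (by linarith)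

theorem no_k {k j Q : ℤ} (hk0 : 0 ≤ k) (hk : k % 4 = 2) (hj : j % 4 = 0) (hj0 : 4 ≤ j)
    (h1 : (2 * k - 3) ^ 4 ≤ Q) (h2 : Q ≤ (2 * k + 3) ^ 4)
    (h3 : (2 * j - 1) ^ 4 < Q) (h4 : Q < (2 * j + 1) ^ 4) : False := by
  rcases le_or_gt k j with h | h
  · have : (2 * k + 3) ^ 4 ≤ (2 * j - 1) ^ 4 := pow_le_pow_left₀ (by omega) (by omega) 4
    omega
  · have : (2 * j + 1) ^ 4 ≤ (2 * k - 3) ^ 4 := pow_le_pow_left₀ (by omega) (by omega) 4
    omega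

theorem small {n : ℕ} (hn : 6 ≤ n) (hn' : n < 20) (ht : Fintype.card ι = 2 * n)
    {S : Finset (ι → ZMod 2)} (hS : Sid S) {k : ℤ} (hk0 : 0 ≤ k) (hk : k % 4 = 2)
    (h1 : (2 * k - 3) ^ 4 ≤ 2 ^ (2 * n + 5)) (h2 : 2 ^ (2 * n + 5) ≤ (2 * k + 3) ^ 4) :
    ((S.card : ℤ) + 4) ^ 2 < 2 ^ (2 * n + 1) := by
  have T := table hS
  simp only [List.mem_cons, List.not_mem_nil, or_false, forall_eq_or_imp, forall_eq] at T
  obtain ⟨t6, t7, t8, t9, t10, t11, -, -, -, t15, -, t17, t18, t19, -⟩ := T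
  have key : ∀ B : ℕ, S.card ≤ B → ((B : ℤ) + 4) ^ 2 < 2 ^ (2 * n + 1) →
      ((S.card : ℤ) + 4) ^ 2 < 2 ^ (2 * n + 1) := fun B h h' =>
    lt_of_le_of_lt (pow_le_pow_left₀ (by positivity) (by omega) 2) h'
  interval_cases n
  · exact key _ (t6 ht) (by norm_num)
  · exact key _ (t7 ht) (by norm_num)
  · exact key _ (t8 ht) (by norm_num)
  · exact key _ (t9 ht) (by norm_num)
  · exact key _ (t10 ht) (by norm_num)
  · exact key _ (t11 ht) (by norm_num)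
  · exact (no_k (j := 76) hk0 hk (by norm_num) (by norm_num) h1 h2 (by norm_num)
      (by norm_num)).elim
  · exact (no_k (j := 108) hk0 hk (by norm_num) (by norm_num) h1 h2 (by norm_num)
      (by norm_num)).elim
  · exact (no_k (j := 152) hk0 hk (by norm_num) (by norm_num) h1 h2 (by norm_num)
      (by norm_num)).elim
  · exact key _ (t15 ht) (by norm_num)
  · exact (no_k (j := 304) hk0 hk (by norm_num) (by norm_num) h1 h2 (by norm_num)
      (by norm_num)).elim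
  · exact key _ (t17 ht) (by norm_num)
  · exact key _ (t18 ht) (by norm_num)
  · exact key _ (t19 ht) (by norm_num)

theorem tier1 {n : ℕ} (hn : 6 ≤ n) (ht : Fintype.card ι = 2 * n)
    {S : Finset (ι → ZMod 2)} (hS : Sid S) {k : ℤ} (hk0 : 0 ≤ k) (hk : k % 4 = 2)
    (h1 : (2 * k - 3) ^ 4 ≤ 2 ^ (2 * n + 5)) (h2 : 2 ^ (2 * n + 5) ≤ (2 * k + 3) ^ 4) :
    ((S.card : ℤ) + 3) ^ 2 < 2 ^ (2 * n + 1) := by
  rcases lt_or_ge n 20 with h | h
  · exact lt_of_le_of_lt (pow_le_pow_left₀ (by positivity) (by omega) 2)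
      (small hn h ht hS hk0 hk h1 h2)
  · exact tier1_large h ht hS hk0 hk h1 h2

theorem tier2 {n : ℕ} (hn : 6 ≤ n) (ht : Fintype.card ι = 2 * n)
    {S : Finset (ι → ZMod 2)} (hS : Sid S) {k : ℤ} (hk0 : 0 ≤ k) (hk : k % 4 = 2)
    (h1 : (k - 1) ^ 4 ≤ 2 ^ (2 * n + 1)) (h2 : 2 ^ (2 * n + 1) ≤ (k + 1) ^ 4) :
    ((S.card : ℤ) + 4) ^ 2 < 2 ^ (2 * n + 1) := by
  rcases lt_or_ge n 20 with h | h
  · refine small hn h ht hS hk0 hk ?_ ?_
    · have h3 : (2 * k - 3) ^ 4 ≤ (2 * (k - 1)) ^ 4 := pow_le_pow_left₀ (by omega) (by omega) 4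
      rw [show 2 * n + 5 = 2 * n + 1 + 4 by ring, pow_add]
      nlinarith
    · have h3 : (2 * (k + 1)) ^ 4 ≤ (2 * k + 3) ^ 4 := pow_le_pow_left₀ (by omega) (by omega) 4
      rw [show 2 * n + 5 = 2 * n + 1 + 4 by ring, pow_add]
      nlinarith
  · exact tier2_large h ht hS hk0 hk h1 h2

end Pool.Agent.MP_08f939_co

end

-- part MP_08f939_co.Often
section

namespace Pool.Agent.MP_08f939_co

theorem often (m : ℕ) : ∃ n, m ≤ n ∧ ∃ k : ℤ, 0 ≤ k ∧ k % 4 = 2 ∧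
    (k - 1) ^ 4 ≤ 2 ^ (2 * n + 1) ∧ 2 ^ (2 * n + 1) ≤ (k + 1) ^ 4 := by
  by_contra hc
  push Not at hc
  set α : ℝ := √(√(2 ^ (2 * m + 1))) with hα
  have hα0 : 0 ≤ α := Real.sqrt_nonneg _
  have hα2 : α ^ 2 = √(2 ^ (2 * m + 1)) := Real.sq_sqrt (Real.sqrt_nonneg _)
  have hα4 : α ^ 4 = 2 ^ (2 * m + 1) := by
    rw [show α ^ 4 = (α ^ 2) ^ 2 by ring, hα2, Real.sq_sqrt (by positivity)]
  have h1 : ∀ i : ℕ, ∃ j : ℤ, |2 ^ i * α - 4 * j| < 1 := by
    intro i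
    have hp : (2 ^ i * α) ^ 4 = 2 ^ (2 * (m + 2 * i) + 1) := by
      rw [mul_pow, hα4]; ring
    have hx0 : 0 ≤ 2 ^ i * α := by positivity
    generalize 2 ^ i * α = x at hp hx0
    have hf0 : 0 ≤ ⌊x / 4⌋ := Int.floor_nonneg.2 (by positivity)
    have hf1 := Int.floor_le (x / 4)
    have hf2 := Int.lt_floor_add_one (x / 4)
    generalize ⌊x / 4⌋ = f at hf0 hf1 hf2
    have hf0' : (0 : ℝ) ≤ f := by exact_mod_cast hf0
    by_cases ha : x < 4 * f + 1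
    · exact ⟨f, abs_lt.2 ⟨by linarith, by linarith⟩⟩
    by_cases hb : 4 * f + 3 < x
    · exact ⟨f + 1, abs_lt.2 ⟨by push_cast; linarith, by push_cast; linarith⟩⟩
    exfalso
    have h2 : ((4 * f + 2 - 1 : ℤ) : ℝ) ^ 4 ≤ x ^ 4 :=
      pow_le_pow_left₀ (by push_cast; linarith) (by push_cast; linarith) 4
    have h3 : x ^ 4 ≤ ((4 * f + 2 + 1 : ℤ) : ℝ) ^ 4 :=
      pow_le_pow_left₀ hx0 (by push_cast; linarith) 4
    rw [hp] at h2 h3
    have h4 := hc (m + 2 * i) (by omega) (4 * f + 2) (by omega) (by omega) (by exact_mod_cast h2)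
    exact absurd h4 (not_lt.2 (by exact_mod_cast h3))
  obtain ⟨j, hj⟩ := h1 0
  have h2 : ∀ i : ℕ, |2 ^ i * (α - 4 * j)| < 1 := by
    intro i
    induction i with
    | zero => simpa using hj
    | succ i ih =>
      obtain ⟨j', hj'⟩ := h1 (i + 1)
      obtain ⟨a1, a2⟩ := abs_lt.1 ih
      obtain ⟨b1, b2⟩ := abs_lt.1 hj'
      have hw : (2 ^ (i + 1) * j - j' : ℤ) = 0 := by
        have c1 : ((2 ^ (i + 1) * j - j' : ℤ) : ℝ) < 1 := by
          push_cast; rw [pow_succ] at *; linarith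
        have c2 : (-1 : ℝ) < ((2 ^ (i + 1) * j - j' : ℤ) : ℝ) := by
          push_cast; rw [pow_succ] at *; linarith
        have c3 : (2 ^ (i + 1) * j - j' : ℤ) < 1 := by exact_mod_cast c1
        have c4 : (-1 : ℤ) < 2 ^ (i + 1) * j - j' := by exact_mod_cast c2
        omega
      have hw' : (2 : ℝ) ^ (i + 1) * j - j' = 0 := by exact_mod_cast hw
      exact abs_lt.2 ⟨by linarith, by linarith⟩
  have h3 : α - 4 * j = 0 := by
    by_contra h0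
    obtain ⟨i, hi⟩ := pow_unbounded_of_one_lt (1 / |α - 4 * j|) (one_lt_two (α := ℝ))
    have h4 := h2 i
    rw [abs_mul, abs_of_pos (by positivity : (0 : ℝ) < 2 ^ i)] at h4
    rw [div_lt_iff₀ (abs_pos.2 h0)] at hi
    linarith
  have h4 : α = 4 * j := by linarith
  refine irrational_sqrt_two ⟨16 * j ^ 2 / 2 ^ m, ?_⟩
  push_cast
  symm
  rw [Real.sqrt_eq_iff_mul_self_eq (by norm_num) (by positivity)]
  rw [h4] at hα4
  field_simp
  rw [pow_succ (2 : ℝ)] at hα4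
  rw [← pow_mul, mul_comm m 2]
  linarith

end Pool.Agent.MP_08f939_co

end

-- part MP_08f939_co.Joined
section

namespace Pool.Agent.MP_08f939_co.Joined

/-- Improved upper bounds for Sidon sets in `(𝔽₂ⁿ)²`. -/
theorem joined :
    (∀ (n : ℕ) (S : Finset ((Fin n → ZMod 2) × (Fin n → ZMod 2))),
      (∀ x ∈ S, ∀ y ∈ S, ∀ z ∈ S, ∀ t ∈ S, x ≠ y → x ≠ z → x ≠ t → y ≠ z → y ≠ t → z ≠ t →
        x + y + z + t ≠ 0) →
      (∀ k : ℤ, 6 ≤ n → 0 ≤ k → k % 4 = 2 →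
        (2 * k - 3) ^ 4 ≤ 2 ^ (2 * n + 5) → 2 ^ (2 * n + 5) ≤ (2 * k + 3) ^ 4 →
        (S.card + 3) ^ 2 < 2 ^ (2 * n + 1)) ∧
      (∀ k : ℤ, 6 ≤ n → 0 ≤ k → k % 4 = 2 →
        (k - 1) ^ 4 ≤ 2 ^ (2 * n + 1) → 2 ^ (2 * n + 1) ≤ (k + 1) ^ 4 →
        (S.card + 4) ^ 2 < 2 ^ (2 * n + 1)) ∧
      (∀ p ∈ [(6, 85), (7, 175), (8, 357), (9, 719), (10, 1443), (11, 2890), (12, 5790),
        (13, 11582), (14, 23168), (15, 46336), (16, 92679), (17, 185358), (18, 370723),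
        (19, 741450), (20, 1482905)], n = p.1 → S.card ≤ p.2)) ∧
    (∀ m : ℕ, ∃ n : ℕ, m ≤ n ∧ ∃ k : ℤ, 0 ≤ k ∧ k % 4 = 2 ∧
      (k - 1) ^ 4 ≤ 2 ^ (2 * n + 1) ∧ 2 ^ (2 * n + 1) ≤ (k + 1) ^ 4) := by
  refine ⟨fun n S hS => ?_, Pool.Agent.MP_08f939_co.often⟩
  let φ := (LinearEquiv.sumArrowLequivProdArrow (Fin n) (Fin n) (ZMod 2) (ZMod 2)).symm
  have hT : Pool.Agent.MP_08f939_co.Sid (S.map φ.toEquiv.toEmbedding) := by
    intro x hx y hy z hz t ht h1 h2 h3 h4 h5 h6 h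
    obtain ⟨x, hx', rfl⟩ := Finset.mem_map.1 hx
    obtain ⟨y, hy', rfl⟩ := Finset.mem_map.1 hy
    obtain ⟨z, hz', rfl⟩ := Finset.mem_map.1 hz
    obtain ⟨t, ht', rfl⟩ := Finset.mem_map.1 ht
    refine hS x hx' y hy' z hz' t ht' (fun e => h1 (by rw [e])) (fun e => h2 (by rw [e]))
      (fun e => h3 (by rw [e])) (fun e => h4 (by rw [e])) (fun e => h5 (by rw [e]))
      (fun e => h6 (by rw [e])) ?_
    apply φ.injective
    rw [map_add, map_add, map_add, map_zero]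
    exact h
  have hc : Fintype.card (Fin n ⊕ Fin n) = 2 * n := by simp [two_mul]
  have hcard : (S.map φ.toEquiv.toEmbedding).card = S.card := Finset.card_map _
  refine ⟨fun k hn h0 hk h1 h2 => ?_, fun k hn h0 hk h1 h2 => ?_, fun p hp hn => ?_⟩
  · have := Pool.Agent.MP_08f939_co.tier1 hn hc hT h0 hk h1 h2
    rw [hcard] at this
    exact_mod_cast this
  · have := Pool.Agent.MP_08f939_co.tier2 hn hc hT h0 hk h1 h2
    rw [hcard] at this
    exact_mod_cast this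
  · rw [← hcard]
    exact Pool.Agent.MP_08f939_co.table hT p hp (by rw [hc, hn])

end Pool.Agent.MP_08f939_co.Joined

end
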