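import Mathlib

-- part MP_08f939_co.Basic
section

namespace Pool.Agent.MP_08f939_co

open Finset

/-- The sign character of `ZMod 2`. -/
def sg (a : ZMod 2) : ℤ := if a = 0 then 1 else -1

theorem sg_add (a b : ZMod 2) : sg (a + b) = sg a * sg b := by
  revert a b; decide

theorem sg_zero : sg 0 = 1 := by decide

theorem sg_one : sg 1 = -1 := by decide

theorem sg_mul_self (a : ZMod 2) : sg a * sg a = 1 := by
  revert a; decide

theorem sg_cases (a : ZMod 2) : sg a = 1 ∨ sg a = -1 := by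
  revert a; decide

theorem sg_eq_one {a : ZMod 2} (h : sg a = 1) : a = 0 := by
  revert a; decide

theorem zmod_cases (a : ZMod 2) : a = 0 ∨ a = 1 := by
  revert a; decide

theorem zmod_add_self (a : ZMod 2) : a + a = 0 := by
  revert a; decide

variable {ι : Type} [Fintype ι] [DecidableEq ι]

omit [Fintype ι] [DecidableEq ι] in
theorem add_self (x : ι → ZMod 2) : x + x = 0 := by
  funext i; exact zmod_add_self _

omit [Fintype ι] [DecidableEq ι] in
theorem add_eq_zero_iff' {x y : ι → ZMod 2} : x + y = 0 ↔ x = y := by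
  constructor
  · intro h
    have : x + y + y = y := by rw [h, zero_add]
    rwa [add_assoc, add_self, add_zero] at this
  · rintro rfl; exact add_self _

omit [Fintype ι] [DecidableEq ι] in
theorem add_add_cancel (x y : ι → ZMod 2) : x + y + y = x := by
  rw [add_assoc, add_self, add_zero]

/-- The characters of `ι → ZMod 2`. -/
def e (ξ x : ι → ZMod 2) : ℤ := sg (ξ ⬝ᵥ x)

omit [DecidableEq ι] in
theorem e_comm (ξ x : ι → ZMod 2) : e ξ x = e x ξ := by
  unfold e; rw [dotProduct_comm]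

omit [DecidableEq ι] in
theorem e_add_right (ξ x y : ι → ZMod 2) : e ξ (x + y) = e ξ x * e ξ y := by
  unfold e; rw [dotProduct_add, sg_add]

omit [DecidableEq ι] in
theorem e_add_left (ξ η x : ι → ZMod 2) : e (ξ + η) x = e ξ x * e η x := by
  unfold e; rw [add_dotProduct, sg_add]

omit [DecidableEq ι] in
theorem e_mul_self (ξ x : ι → ZMod 2) : e ξ x * e ξ x = 1 := sg_mul_self _

omit [DecidableEq ι] in
theorem e_cases (ξ x : ι → ZMod 2) : e ξ x = 1 ∨ e ξ x = -1 := sg_cases _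

omit [DecidableEq ι] in
theorem e_zero_left (x : ι → ZMod 2) : e 0 x = 1 := by
  unfold e; rw [zero_dotProduct, sg_zero]

omit [DecidableEq ι] in
theorem e_zero_right (x : ι → ZMod 2) : e x 0 = 1 := by
  unfold e; rw [dotProduct_zero, sg_zero]

/-- A function that changes sign under a translation has sum zero. -/
theorem sum_eq_zero_of_flip (g : (ι → ZMod 2) → ℤ) (η : ι → ZMod 2)
    (h : ∀ ξ, g (ξ + η) = - g ξ) : ∑ ξ, g ξ = 0 := by
  have h1 : ∑ ξ, g (ξ + η) = ∑ ξ, g ξ :=
    Fintype.sum_equiv (Equiv.addRight η) _ _ (fun _ => rfl)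
  simp only [h, Finset.sum_neg_distrib] at h1
  omega

theorem orth (x : ι → ZMod 2) :
    ∑ ξ, e ξ x = if x = 0 then (Fintype.card (ι → ZMod 2) : ℤ) else 0 := by
  split_ifs with hx
  · subst hx; simp [e_zero_right]
  · obtain ⟨i, hi⟩ : ∃ i, x i ≠ 0 := by
      by_contra hc
      push Not at hc
      exact hx (funext hc)
    have hi1 : x i = 1 := (zmod_cases _).resolve_left hi
    apply sum_eq_zero_of_flip _ (Pi.single i 1)
    intro ξ
    rw [e_add_left]
    have : e (Pi.single i 1) x = -1 := by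
      unfold e; rw [single_dotProduct, hi1, one_mul, sg_one]
    rw [this]; ring

theorem orth' (x : ι → ZMod 2) :
    ∑ ξ, e x ξ = if x = 0 then (Fintype.card (ι → ZMod 2) : ℤ) else 0 := by
  rw [← orth x]; exact Finset.sum_congr rfl fun ξ _ => e_comm _ _

/-- The Walsh transform. -/
def ft (f : (ι → ZMod 2) → ℤ) (x : ι → ZMod 2) : ℤ := ∑ ξ, f ξ * e ξ x

theorem sum_mul_sum_e (f : (ι → ZMod 2) → ℤ) (U : Finset (ι → ZMod 2)) :
    ∑ ξ, f ξ * ∑ y ∈ U, e ξ y = ∑ y ∈ U, ft f y := by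
  simp only [ft, Finset.mul_sum]
  exact Finset.sum_comm

theorem sum_ft (f : (ι → ZMod 2) → ℤ) :
    ∑ x, ft f x = (Fintype.card (ι → ZMod 2) : ℤ) * f 0 := by
  rw [← sum_mul_sum_e]
  simp only [orth', mul_ite, mul_zero]
  rw [Finset.sum_ite_eq' univ (0 : ι → ZMod 2)]
  simp [mul_comm]

theorem ft_sq (f : (ι → ZMod 2) → ℤ) (x : ι → ZMod 2) :
    ft f x ^ 2 = ∑ h, (∑ ξ, f ξ * f (ξ + h)) * e h x := by
  have h1 : ∀ ξ, ft f x = ∑ h, f (ξ + h) * e (ξ + h) x := fun ξ =>
    (Fintype.sum_equiv (Equiv.addLeft ξ) _ _ (fun _ => rfl)).symm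
  calc ft f x ^ 2 = ∑ ξ, f ξ * e ξ x * ft f x := by
        rw [sq, ← Finset.sum_mul]; rfl
    _ = ∑ ξ, ∑ h, f ξ * f (ξ + h) * e h x := by
        refine Finset.sum_congr rfl fun ξ _ => ?_
        rw [h1 ξ, Finset.mul_sum]
        refine Finset.sum_congr rfl fun h _ => ?_
        rw [e_add_left]
        have := e_mul_self ξ x
        linear_combination (f ξ * f (ξ + h) * e h x) * this
    _ = _ := by
        rw [Finset.sum_comm]
        simp only [Finset.sum_mul]

theorem parseval (f : (ι → ZMod 2) → ℤ) :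
    ∑ x, ft f x ^ 2 = (Fintype.card (ι → ZMod 2) : ℤ) * ∑ ξ, f ξ ^ 2 := by
  simp only [ft_sq]
  rw [Finset.sum_comm]
  simp only [← Finset.mul_sum, orth', mul_ite, mul_zero]
  rw [Finset.sum_ite_eq' univ (0 : ι → ZMod 2)]
  simp [mul_comm, sq]

end Pool.Agent.MP_08f939_co

end

-- part MP_08f939_co.Spec
section

namespace Pool.Agent.MP_08f939_co

open Finset

variable {ι : Type} [Fintype ι] [DecidableEq ι]

/-- The spectrum of a function all of whose autocorrelations are trivial is flat on an affine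
subspace. -/
theorem spec (f : (ι → ZMod 2) → ℤ) (ξ₀ : ι → ZMod 2) (h0 : f ξ₀ ≠ 0)
    (hP : ∀ h, ∑ ξ, f ξ * f (ξ + h) = 0 ∨ (∀ ξ, f (ξ + h) = f ξ) ∨ (∀ ξ, f (ξ + h) = - f ξ)) :
    ∃ (A : Finset (ι → ZMod 2)) (a : ℕ), (∀ x ∈ A, |ft f x| = a) ∧ (∀ x, x ∉ A → ft f x = 0) ∧
      (A.card : ℤ) * a ^ 2 = (Fintype.card (ι → ZMod 2) : ℤ) * ∑ ξ, f ξ ^ 2 ∧
      ∀ x ∈ A, ∀ y ∈ A, ∀ z ∈ A, x + y + z ∈ A := by
  classical
  set n : ℤ := ∑ ξ, f ξ ^ 2 with hn
  let θ : (ι → ZMod 2) → ℤ := fun h =>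
    if ∀ ξ, f (ξ + h) = f ξ then 1 else if ∀ ξ, f (ξ + h) = - f ξ then -1 else 0
  have θc : ∀ h, θ h = 0 ∨ θ h = 1 ∨ θ h = -1 := by
    intro h; simp only [θ]; split_ifs <;> simp
  have θa : ∀ h, θ h ≠ 0 → ∀ ξ, f (ξ + h) = θ h * f ξ := by
    intro h hh ξ
    simp only [θ] at hh ⊢
    split_ifs at hh ⊢ with h1 h2
    · rw [h1, one_mul]
    · rw [h2, neg_one_mul]
    · exact absurd rfl hh
  have θb : ∀ h (s : ℤ), (s = 1 ∨ s = -1) → (∀ ξ, f (ξ + h) = s * f ξ) → θ h = s := by
    intro h s hs H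
    rcases hs with rfl | rfl
    · simp only [θ]; rw [if_pos]; intro ξ; rw [H, one_mul]
    · simp only [θ]
      rw [if_neg, if_pos]
      · intro ξ; rw [H, neg_one_mul]
      · intro H'
        have h1 := H ξ₀
        have h2 := H' ξ₀
        omega
  have θmul : ∀ h h', θ h ≠ 0 → θ (h' + h) = θ h' * θ h := by
    have key : ∀ h h', θ h ≠ 0 → θ h' ≠ 0 → θ (h' + h) = θ h' * θ h := by
      intro h h' hh hh'
      apply θb
      · rcases θc h with h1 | h1 | h1 <;> rcases θc h' with h2 | h2 | h2 <;> simp_all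
      · intro ξ
        rw [← add_assoc, θa h hh, θa h' hh']; ring
    intro h h' hh
    by_cases hh' : θ h' = 0
    · rw [hh', zero_mul]
      by_contra hc
      have := key h (h' + h) hh hc
      rw [add_add_cancel, hh'] at this
      exact mul_ne_zero hc hh this.symm
    · exact key h h' hh hh'
  have hr : ∀ h, ∑ ξ, f ξ * f (ξ + h) = θ h * n := by
    intro h
    by_cases hh : θ h = 0
    · rw [hh, zero_mul]
      rcases hP h with H | H | H
      · exact H
      · have := θb h 1 (Or.inl rfl) (fun ξ => by rw [H, one_mul]); omega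
      · have := θb h (-1) (Or.inr rfl) (fun ξ => by rw [H, neg_one_mul]); omega
    · rw [hn, Finset.mul_sum]
      refine Finset.sum_congr rfl fun ξ _ => ?_
      rw [θa h hh]; ring
  have hsq : ∀ x, ft f x ^ 2 = n * ∑ h, θ h * e h x := by
    intro x
    rw [ft_sq, Finset.mul_sum]
    refine Finset.sum_congr rfl fun h _ => ?_
    rw [hr]; ring
  let A : Finset (ι → ZMod 2) := univ.filter fun x => ∀ h, θ h ≠ 0 → θ h * e h x = 1
  have hA : ∀ x, x ∈ A ↔ ∀ h, θ h ≠ 0 → θ h * e h x = 1 := by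
    intro x; simp [A]
  have hin : ∀ x ∈ A, ft f x ^ 2 = n * ∑ h, θ h ^ 2 := by
    intro x hx
    rw [hsq]
    congr 1
    refine Finset.sum_congr rfl fun h _ => ?_
    by_cases hh : θ h = 0
    · rw [hh]; simp
    · rw [(hA x).1 hx h hh]
      rcases θc h with h1 | h1 | h1 <;> simp_all
  have hout : ∀ x, x ∉ A → ft f x = 0 := by
    intro x hx
    rw [hA] at hx
    push Not at hx
    obtain ⟨h, hh, hx⟩ := hx
    have h1 : θ h * e h x = -1 := by
      rcases θc h with h1 | h1 | h1 <;> rcases e_cases h x with h2 | h2 <;> simp_all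
    have : ∑ h', θ h' * e h' x = 0 := by
      apply sum_eq_zero_of_flip _ h
      intro h'
      rw [θmul h h' hh, e_add_left]
      linear_combination (θ h' * e h' x) * h1
    have h2 := hsq x
    rw [this, mul_zero] at h2
    exact pow_eq_zero_iff two_ne_zero |>.1 h2
  refine ⟨A, (n * ∑ h, θ h ^ 2).sqrt.toNat, ?_, hout, ?_, ?_⟩
  · intro x hx
    rw [← hin x hx, sq, Int.sqrt_eq, Int.toNat_natCast, Int.natCast_natAbs]
  · have hs : ∑ x ∈ A, ft f x ^ 2 = ∑ x, ft f x ^ 2 :=
      Finset.sum_subset (Finset.subset_univ A) (fun x _ hx => by rw [hout x hx]; simp)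
    rw [← parseval, ← hs]
    rw [Finset.card_eq_sum_ones, Nat.cast_sum, Finset.sum_mul]
    refine Finset.sum_congr rfl fun x hx => ?_
    rw [← hin x hx, sq (ft f x), Int.sqrt_eq, Int.toNat_natCast, Int.natCast_natAbs, sq_abs]
    simp [sq]
  · intro x hx y hy z hz
    rw [hA] at hx hy hz ⊢
    intro h hh
    have h1 := hx h hh
    have h2 := hy h hh
    have h3 := hz h hh
    rw [e_add_right, e_add_right]
    have h4 : θ h * θ h = 1 := by
      rcases θc h with h4 | h4 | h4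
      · exact absurd h4 hh
      · rw [h4]; norm_num
      · rw [h4]; norm_num
    have h5 : (θ h * e h x) * (θ h * e h y) * (θ h * e h z) = 1 := by rw [h1, h2, h3]; norm_num
    linear_combination h5 - (θ h * e h x * e h y * e h z) * h4

/-- The cubic difference identity defining quadratic functions. -/
def IsQuad (F : (ι → ZMod 2) → ZMod 2) : Prop :=
  ∀ ξ η h, F (ξ + η + h) + F (ξ + η) + F (ξ + h) + F ξ = F (η + h) + F η + F h + F 0

/-- The sign of a quadratic function, restricted to an affine hyperplane (or everything). -/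
def qf (F : (ι → ZMod 2) → ZMod 2) (σ : ι → ZMod 2) (l : ZMod 2) (ξ : ι → ZMod 2) : ℤ :=
  if ξ ⬝ᵥ σ = l then sg (F ξ) else 0

theorem qf_auto {F : (ι → ZMod 2) → ZMod 2} (hF : IsQuad F) (σ : ι → ZMod 2) (l : ZMod 2)
    (h : ι → ZMod 2) :
    ∑ ξ, qf F σ l ξ * qf F σ l (ξ + h) = 0 ∨ (∀ ξ, qf F σ l (ξ + h) = qf F σ l ξ) ∨
      (∀ ξ, qf F σ l (ξ + h) = - qf F σ l ξ) := by
  by_cases hh : h ⬝ᵥ σ = 0
  swap
  · left
    refine Finset.sum_eq_zero fun ξ _ => ?_
    simp only [qf, add_dotProduct]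
    split_ifs with h1 h2
    · exfalso; apply hh
      rw [← h1] at h2
      simpa using h2
    all_goals simp
  by_cases hB : ∃ η, η ⬝ᵥ σ = 0 ∧ F (η + h) + F η + F h + F 0 = 1
  · left
    obtain ⟨η, hη, hB⟩ := hB
    apply sum_eq_zero_of_flip _ η
    intro ξ
    simp only [qf, add_dotProduct, hη, hh, add_zero]
    split_ifs with h1
    · have := hF ξ η h
      rw [hB] at this
      generalize F (ξ + η + h) = a at *
      generalize F (ξ + η) = b at *
      generalize F (ξ + h) = c at *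
      generalize F ξ = d at *
      revert a b c d; decide
    · simp
  · right
    push Not at hB
    by_cases hex : ∃ ξ₁, ξ₁ ⬝ᵥ σ = l
    swap
    · left; intro ξ
      push Not at hex
      simp only [qf, if_neg (hex _)]
    obtain ⟨ξ₁, h1⟩ := hex
    have key : ∀ ξ, ξ ⬝ᵥ σ = l → F (ξ + h) + F ξ = F (ξ₁ + h) + F ξ₁ := by
      intro ξ hξ
      have h2 := hB (ξ + ξ₁) (by rw [add_dotProduct, hξ, h1, zmod_add_self])
      have h3 := hF ξ₁ (ξ + ξ₁) h
      rw [show ξ₁ + (ξ + ξ₁) = ξ by rw [add_comm ξ₁, add_add_cancel]] at h3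
      rw [← h3] at h2
      clear h3
      generalize F (ξ + h) = a at *
      generalize F ξ = b at *
      generalize F (ξ₁ + h) = c at *
      generalize F ξ₁ = d at *
      revert a b c d; decide
    rcases zmod_cases (F (ξ₁ + h) + F ξ₁) with hc | hc
    · left; intro ξ
      simp only [qf, add_dotProduct, hh, add_zero]
      split_ifs with h2
      · have := key ξ h2
        rw [hc] at this
        generalize F (ξ + h) = a at *
        generalize F ξ = b at *
        revert a b; decide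
      · rfl
    · right; intro ξ
      simp only [qf, add_dotProduct, hh, add_zero]
      split_ifs with h2
      · have := key ξ h2
        rw [hc] at this
        generalize F (ξ + h) = a at *
        generalize F ξ = b at *
        revert a b; decide
      · simp

end Pool.Agent.MP_08f939_co

end

-- part MP_08f939_co.Sid
section

namespace Pool.Agent.MP_08f939_co

open Finset

variable {ι : Type} [Fintype ι] [DecidableEq ι]

/-- Sidon sets: no four pairwise distinct elements with sum zero. -/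
def Sid (S : Finset (ι → ZMod 2)) : Prop :=
  ∀ x ∈ S, ∀ y ∈ S, ∀ z ∈ S, ∀ t ∈ S, x ≠ y → x ≠ z → x ≠ t → y ≠ z → y ≠ t → z ≠ t →
    x + y + z + t ≠ 0

omit [Fintype ι] [DecidableEq ι] in
theorem Sid.mono {S S' : Finset (ι → ZMod 2)} (h : Sid S) (hs : S' ⊆ S) : Sid S' :=
  fun x hx y hy z hz t ht => h x (hs hx) y (hs hy) z (hs hz) t (hs ht)

omit [Fintype ι] [DecidableEq ι] in
theorem Sid.pair {S : Finset (ι → ZMod 2)} (h : Sid S) {x y z t : ι → ZMod 2} (hx : x ∈ S)
    (hy : y ∈ S) (hz : z ∈ S) (ht : t ∈ S) (hxy : x ≠ y) (hs : z + t = x + y) :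
    (z = x ∧ t = y) ∨ (z = y ∧ t = x) := by
  by_cases h1 : z = x
  · left; subst h1; exact ⟨rfl, add_left_cancel hs⟩
  by_cases h2 : z = y
  · right; subst h2; rw [add_comm x] at hs; exact ⟨rfl, add_left_cancel hs⟩
  exfalso
  refine h x hx y hy z hz t ht hxy (Ne.symm h1) ?_ (Ne.symm h2) ?_ ?_ ?_
  · rintro rfl; rw [add_comm x] at hs; exact h2 (add_right_cancel hs)
  · rintro rfl; exact h1 (add_right_cancel hs)
  · rintro rfl; rw [add_self] at hs; exact hxy (add_eq_zero_iff'.1 hs.symm)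
  · rw [add_assoc (x + y), hs, add_self]

/-- The set of sums of two distinct elements. -/
def sums (S : Finset (ι → ZMod 2)) : Finset (ι → ZMod 2) :=
  S.offDiag.image fun p => p.1 + p.2

theorem zero_notMem_sums (S : Finset (ι → ZMod 2)) : (0 : ι → ZMod 2) ∉ sums S := by
  intro h
  obtain ⟨p, hp, h0⟩ := Finset.mem_image.1 h
  exact (Finset.mem_offDiag.1 hp).2.2 (add_eq_zero_iff'.1 h0)

theorem sum_offDiag {S : Finset (ι → ZMod 2)} (h : Sid S) (g : (ι → ZMod 2) → ℤ) :
    ∑ p ∈ S.offDiag, g (p.1 + p.2) = 2 * ∑ z ∈ sums S, g z := by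
  rw [Finset.sum_comp g (fun p : (ι → ZMod 2) × (ι → ZMod 2) => p.1 + p.2), Finset.mul_sum]
  refine Finset.sum_congr rfl fun z hz => ?_
  obtain ⟨⟨x, y⟩, hp, rfl⟩ := Finset.mem_image.1 hz
  obtain ⟨hx, hy, hxy⟩ := Finset.mem_offDiag.1 hp
  simp only at hx hy hxy
  have : S.offDiag.filter (fun p => p.1 + p.2 = x + y) = {(x, y), (y, x)} := by
    ext ⟨z, t⟩
    simp only [Finset.mem_filter, Finset.mem_offDiag, Finset.mem_insert, Finset.mem_singleton,
      Prod.mk.injEq]
    constructor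
    · rintro ⟨⟨hz, ht, _⟩, hs⟩
      exact h.pair hx hy hz ht hxy hs
    · rintro (⟨rfl, rfl⟩ | ⟨rfl, rfl⟩)
      · exact ⟨⟨hx, hy, hxy⟩, rfl⟩
      · exact ⟨⟨hy, hx, hxy.symm⟩, add_comm _ _⟩
  rw [this, Finset.card_pair (fun hc => hxy (Prod.mk.inj hc).1)]
  simp

theorem two_mul_card_sums {S : Finset (ι → ZMod 2)} (h : Sid S) :
    2 * ((sums S).card : ℤ) = (S.card : ℤ) ^ 2 - S.card := by
  have h1 := sum_offDiag h (fun _ => 1)
  simp only [Finset.sum_const, nsmul_eq_mul, mul_one, Finset.offDiag_card] at h1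
  rw [← h1, Nat.cast_sub (Nat.le_mul_self _)]
  push_cast; ring

/-- The Walsh coefficients of a set. -/
def W (S : Finset (ι → ZMod 2)) (ξ : ι → ZMod 2) : ℤ := ∑ x ∈ S, e ξ x

omit [DecidableEq ι] in
theorem W_zero (S : Finset (ι → ZMod 2)) : W S 0 = S.card := by
  simp [W, e_zero_left]

theorem W_sq {S : Finset (ι → ZMod 2)} (h : Sid S) {ξ : ι → ZMod 2} (hξ : ξ ≠ 0) :
    W S ξ ^ 2 = S.card - 2 * W (sums S)ᶜ ξ := by
  have h1 : W S ξ ^ 2 = ∑ p ∈ S ×ˢ S, e ξ (p.1 + p.2) := by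
    rw [sq, W, Finset.sum_mul_sum, Finset.sum_product]
    simp only [e_add_right]
  have h2 : W (sums S) ξ + W (sums S)ᶜ ξ = 0 := by
    rw [W, W, Finset.sum_add_sum_compl, orth', if_neg hξ]
  rw [h1, ← Finset.diag_union_offDiag, Finset.sum_union (Finset.disjoint_diag_offDiag S),
    sum_offDiag h (e ξ), Finset.sum_diag]
  simp only [add_self, e_zero_right, Finset.sum_const, nsmul_eq_mul, mul_one]
  rw [W] at h2
  linarith

theorem card_inter_le {S A : Finset (ι → ZMod 2)} (h : Sid S)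
    (hA : ∀ x ∈ A, ∀ y ∈ A, ∀ z ∈ A, x + y + z ∈ A) :
    7 * ((S ∩ A).card : ℤ) ^ 2 ≤ 16 * A.card := by
  rcases (S ∩ A).eq_empty_or_nonempty with he | ⟨x₀, hx₀⟩
  · rw [he]; simp
  have h1 := two_mul_card_sums (h.mono (Finset.inter_subset_left (s₂ := A)))
  have hx₀A := (Finset.mem_inter.1 hx₀).2
  have h2 : (sums (S ∩ A)).card ≤ (A.erase x₀).card := by
    apply Finset.card_le_card_of_injOn (fun z => z + x₀)
    · intro z hz
      have hz0 : z ≠ 0 := fun hc => zero_notMem_sums _ (hc ▸ hz)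
      obtain ⟨p, hp, rfl⟩ := Finset.mem_image.1 hz
      obtain ⟨hx, hy, -⟩ := Finset.mem_offDiag.1 hp
      refine Finset.mem_coe.2 (Finset.mem_erase.2 ⟨?_, ?_⟩)
      · intro hc; exact hz0 (by simpa using hc)
      · exact hA _ (Finset.mem_inter.1 hx).2 _ (Finset.mem_inter.1 hy).2 _ hx₀A
    · intro a _ b _ hab; exact add_right_cancel hab
  have h3 : (A.erase x₀).card + 1 = A.card := Finset.card_erase_add_one hx₀A
  have h4 : ((sums (S ∩ A)).card : ℤ) + 1 ≤ A.card := by exact_mod_cast (by omega)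
  nlinarith [sq_nonneg (((S ∩ A).card : ℤ) - 4)]

/-- The Walsh coefficients modulo 8 are governed by a linear and a quadratic function. -/
theorem exists_quad (S : Finset (ι → ZMod 2)) :
    ∃ F : (ι → ZMod 2) → ZMod 2, IsQuad F ∧ F 0 = 0 ∧
      ∀ ξ, (8 : ℤ) ∣ W S ξ - S.card + 3 - e ξ (∑ x ∈ S, x) - 2 * sg (F ξ) := by
  induction S using Finset.induction_on with
  | empty =>
    refine ⟨fun _ => 0, fun _ _ _ => rfl, rfl, fun ξ => ?_⟩
    simp [W, e_zero_right, sg_zero]
  | insert x S hx ih =>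
    obtain ⟨F, hF, hF0, h8⟩ := ih
    refine ⟨fun ξ => F ξ + (ξ ⬝ᵥ x) * (ξ ⬝ᵥ ∑ y ∈ S, y), ?_, by simp [hF0], fun ξ => ?_⟩
    · intro ξ η h
      have := hF ξ η h
      simp only [add_dotProduct, zero_dotProduct]
      generalize ξ ⬝ᵥ x = a at *
      generalize η ⬝ᵥ x = b at *
      generalize h ⬝ᵥ x = c at *
      generalize ξ ⬝ᵥ (∑ y ∈ S, y) = a' at *
      generalize η ⬝ᵥ (∑ y ∈ S, y) = b' at *
      generalize h ⬝ᵥ (∑ y ∈ S, y) = c' at *
      have h2 : (a + b + c) * (a' + b' + c') + (a + b) * (a' + b') + (a + c) * (a' + c') + a * a'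
          = (b + c) * (b' + c') + b * b' + c * c' + 0 * 0 := by
        clear this
        revert a b c a' b' c'; decide
      linear_combination this + h2
    · have h1 := h8 ξ
      rw [W, Finset.sum_insert hx, Finset.sum_insert hx, Finset.card_insert_of_notMem hx,
        e_add_right, sg_add]
      rw [W] at h1
      unfold e at h1 ⊢
      generalize ∑ y ∈ S, sg (ξ ⬝ᵥ y) = w at *
      rcases zmod_cases (ξ ⬝ᵥ x) with h2 | h2 <;>
        rcases zmod_cases (ξ ⬝ᵥ ∑ y ∈ S, y) with h3 | h3 <;>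
        rcases sg_cases (F ξ) with h4 | h4 <;>
        simp only [h2, h3, h4, mul_zero, mul_one, sg_zero, sg_one] at h1 ⊢ <;>
        push_cast <;> omega

end Pool.Agent.MP_08f939_co

end
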